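import Pool.Agent.T9h57.PK.Sizes

/-!
# Conductors of real characters
-/

set_option autoImplicit false

namespace Pool.Agent.T9h57.PK

open Finset

/-- powers of `1 + u` modulo `u ^ 2` -/
lemma one_add_pow_mod (u : ℤ) (n : ℕ) : u ^ 2 ∣ (1 + u) ^ n - 1 - n * u := by
  induction n with
  | zero => simp
  | succ n ih =>
    obtain ⟨w, hw⟩ := ih
    refine ⟨n + w + u * w, ?_⟩
    have h1 : (1 + u) ^ n = 1 + n * u + u ^ 2 * w := by linarith
    rw [pow_succ, h1]
    push_cast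
    ring

/-- odd primes divide the conductor of a real primitive character at most once -/
lemma quad_odd {f : ℕ} [NeZero f] {ψ : DirichletCharacter ℂ f} (hψ : NT f ψ) (h2 : ψ ^ 2 = 1) {p : ℕ}
    (hp : p.Prime) (hp2 : p ≠ 2) (hpf : p ∣ f) : ¬ p ^ 2 ∣ f := by
  intro hp2f
  obtain ⟨x, hx, hx1, hx0⟩ := hψ p hp hpf
  obtain ⟨t, ht⟩ := hx
  obtain ⟨g, hg⟩ := hp2f
  have hfp : f / p = p * g := by
    rw [hg, pow_two, mul_assoc, Nat.mul_div_cancel_left _ hp.pos]
  rw [hfp] at ht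
  have hxe : x = 1 + ((p * g : ℕ) : ℤ) * t := by linarith
  obtain ⟨w, hw⟩ := one_add_pow_mod (((p * g : ℕ) : ℤ) * t) p
  have h3 : (f : ℤ) ∣ x ^ p - 1 := by
    refine ⟨t + g * t ^ 2 * w, ?_⟩
    rw [hxe]
    have h4 : (1 + ((p * g : ℕ) : ℤ) * t) ^ p = 1 + p * (((p * g : ℕ) : ℤ) * t) +
        (((p * g : ℕ) : ℤ) * t) ^ 2 * w := by linarith
    rw [h4, hg]
    push_cast
    ring
  have h4 : ((x ^ p : ℤ) : ZMod f) = ((1 : ℤ) : ZMod f) := by
    rw [ZMod.intCast_eq_intCast_iff_dvd_sub]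
    rw [← neg_sub]
    exact (dvd_neg).2 h3
  have h5 : ψ (x : ZMod f) ^ p = 1 := by
    rw [← map_pow, ← Int.cast_pow, h4, Int.cast_one, map_one]
  have h6 : ψ (x : ZMod f) ^ 2 = 1 := by
    have hu : IsUnit (x : ZMod f) := by
      by_contra hcon
      exact hx0 (ψ.map_nonunit hcon)
    have h7 : (ψ ^ 2) (x : ZMod f) = ψ (x : ZMod f) ^ 2 := by
      rw [pow_two, pow_two, MulChar.mul_apply]
    rw [← h7, h2, MulChar.one_apply hu]
  apply hx1
  obtain ⟨k, hk⟩ := hp.odd_of_ne_two hp2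
  rw [hk, pow_succ, pow_mul, h6, one_pow, one_mul] at h5
  exact h5

/-- the power of two -/
lemma quad_two {f : ℕ} [NeZero f] {ψ : DirichletCharacter ℂ f} (hψ : NT f ψ) (h2 : ψ ^ 2 = 1) : ¬ 16 ∣ f := by
  intro h16
  obtain ⟨g, hg⟩ := h16
  obtain ⟨x, hx, hx1, hx0⟩ := hψ 2 Nat.prime_two ⟨8 * g, by rw [hg]; ring⟩
  obtain ⟨t, ht⟩ := hx
  have hf2 : f / 2 = 8 * g := by omega
  rw [hf2] at ht
  have hxe : x = 1 + ((8 * g : ℕ) : ℤ) * t := by linarith
  have h4 : ((x : ℤ) : ZMod f) = (((1 + 4 * g * t) ^ 2 : ℤ) : ZMod f) := by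
    rw [ZMod.intCast_eq_intCast_iff_dvd_sub]
    refine ⟨g * t ^ 2, ?_⟩
    rw [hxe, hg]
    push_cast
    ring
  apply hx1
  have hu : IsUnit (x : ZMod f) := by
    by_contra hcon
    exact hx0 (ψ.map_nonunit hcon)
  rw [h4, Int.cast_pow] at hu
  have hu2 : IsUnit ((1 + 4 * g * t : ℤ) : ZMod f) := (isUnit_pow_iff two_ne_zero).1 hu
  rw [h4, Int.cast_pow, map_pow]
  have h7 : (ψ ^ 2) ((1 + 4 * g * t : ℤ) : ZMod f) = ψ ((1 + 4 * g * t : ℤ) : ZMod f) ^ 2 := by
    rw [pow_two, pow_two, MulChar.mul_apply]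
  rw [← h7, h2, MulChar.one_apply hu2]

/-- the conductor of a primitive real character -/
lemma quad_le {f : ℕ} [NeZero f] {ψ : DirichletCharacter ℂ f} (hψ : NT f ψ) (h2 : ψ ^ 2 = 1) :
    f ≤ 4 * rad f := by
  have h1 : f = ∏ p ∈ f.primeFactors, p ^ f.factorization p := by
    conv_lhs => rw [← Nat.prod_factorization_pow_eq_self (NeZero.ne f)]
    rfl
  have h3 : ∀ p ∈ f.primeFactors, p ^ f.factorization p ≤ (if p = 2 then 4 else 1) * p := by
    intro p hp
    have hpp := Nat.prime_of_mem_primeFactors hp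
    have hpd := Nat.dvd_of_mem_primeFactors hp
    split_ifs with h
    · have h4 : f.factorization p ≤ 3 := by
        by_contra hcon
        push Not at hcon
        apply quad_two hψ h2
        have h5 : p ^ 4 ∣ f := (hpp.pow_dvd_iff_le_factorization (NeZero.ne f)).2 (by omega)
        rw [h] at h5
        exact h5
      calc p ^ f.factorization p ≤ p ^ 3 := Nat.pow_le_pow_right hpp.pos h4
        _ = 4 * p := by rw [h]
    · have h4 : f.factorization p ≤ 1 := by
        by_contra hcon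
        push Not at hcon
        exact quad_odd hψ h2 hpp h hpd ((hpp.pow_dvd_iff_le_factorization (NeZero.ne f)).2 (by omega))
      calc p ^ f.factorization p ≤ p ^ 1 := Nat.pow_le_pow_right hpp.pos h4
        _ = 1 * p := by ring
  have h4 : ∏ p ∈ f.primeFactors, p ^ f.factorization p ≤ (∏ p ∈ f.primeFactors, if p = 2 then 4 else 1) * rad f := by
    unfold rad
    rw [← prod_mul_distrib]
    exact prod_le_prod' h3
  have h5 : (∏ p ∈ f.primeFactors, if p = 2 then 4 else 1) ≤ 4 := by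
    rw [prod_ite_eq' f.primeFactors 2 (fun _ => 4)]
    split_ifs <;> omega
  calc f = _ := h1
    _ ≤ _ := h4
    _ ≤ 4 * rad f := Nat.mul_le_mul_right _ h5

lemma rad_dvd {a b : ℕ} (hb : b ≠ 0) (h : a ∣ b) : rad a ∣ rad b := by
  unfold rad
  exact prod_dvd_prod_of_subset _ _ _ (Nat.primeFactors_mono h hb)

/-- the conductor of a real character -/
lemma cond_sq {q : ℕ} [NeZero q] (χ : DirichletCharacter ℂ q) (h : χ ^ 2 = 1) : χ.conductor ≤ 4 * rad q := by
  haveI : NeZero χ.conductor := ⟨fun h => (NeZero.ne q) (by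
    have := χ.conductor_dvd_level
    rw [h, zero_dvd_iff] at this
    exact this)⟩
  have h1 : χ.primitiveCharacter ^ 2 = 1 := by
    have h3 : DirichletCharacter.changeLevel χ.conductor_dvd_level (χ.primitiveCharacter ^ 2) = 1 := by
      rw [map_pow, χ.changeLevel_primitiveCharacter, h]
    exact (DirichletCharacter.changeLevel_eq_one_iff _).1 h3
  have h2 := quad_le (NT_of_primitive χ.primitiveCharacter_isPrimitive) h1
  have h3 : rad χ.conductor ≤ rad q :=
    Nat.le_of_dvd (rad_pos _) (rad_dvd (NeZero.ne q) χ.conductor_dvd_level)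
  omega

/-- the radical of a product -/
lemma rad_mul_le (a b : ℕ) : rad (a * b) ≤ rad a * rad b := by
  rcases Nat.eq_zero_or_pos a with rfl | ha
  · rw [zero_mul]
    exact Nat.le_mul_of_pos_right _ (rad_pos b)
  rcases Nat.eq_zero_or_pos b with rfl | hb
  · rw [mul_zero]
    exact Nat.le_mul_of_pos_left _ (rad_pos a)
  unfold rad
  rw [Nat.primeFactors_mul ha.ne' hb.ne', ← Finset.prod_union_inter]
  apply Nat.le_mul_of_pos_right
  exact prod_pos fun p hp => (Nat.prime_of_mem_primeFactors (mem_inter.1 hp).1).pos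

lemma rad_le {a : ℕ} (ha : a ≠ 0) : rad a ≤ a :=
  Nat.le_of_dvd (Nat.pos_of_ne_zero ha) (Nat.prod_primeFactors_dvd a)

end Pool.Agent.T9h57.PK
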