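import Pool.Agent.T9h57.PK.Psi

/-!
# Prime sums twisted by characters to moduli with small radical, sharp cut-off
-/

set_option autoImplicit false

namespace Pool.Agent.T9h57.PK

open Finset Filter Topology
open Pool.Agent.N728.SP Pool.Agent.H378R2 Pool.Agent.H378R2.M1

/-- the coefficients -/
noncomputable def cL {d : ℕ} (χ : DirichletCharacter ℂ d) (n : ℕ) : ℂ :=
  ((ArithmeticFunction.vonMangoldt n : ℝ) : ℂ) * χ (n : ZMod d)

lemma norm_cL {d : ℕ} (χ : DirichletCharacter ℂ d) (n : ℕ) : ‖cL χ n‖ ≤ Real.log n := by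
  unfold cL
  rw [norm_mul, Complex.norm_real, Real.norm_of_nonneg ArithmeticFunction.vonMangoldt_nonneg]
  have h1 := χ.norm_le_one (n : ZMod d)
  have h2 := ArithmeticFunction.vonMangoldt_le_log (n := n)
  have h3 := ArithmeticFunction.vonMangoldt_nonneg (n := n)
  calc ArithmeticFunction.vonMangoldt n * ‖χ (n : ZMod d)‖ ≤ Real.log n * 1 := by gcongr
    _ = _ := mul_one _

/-- logarithmic weights -/
theorem pl57 {m : ℕ} (hm : 3 ≤ m) (U : ℕ) : ∀ᶠ y : ℝ in atTop, SumsAt m y →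
    ∀ (d : ℕ) [NeZero d], Real.log d ≤ y ^ (2 * m) → Real.log (rad d) ≤ y ^ m →
    ∀ χ : DirichletCharacter ℂ d, χ ^ 2 ≠ 1 →
    ∀ x : ℝ, 0 < x → 1 / 5 * y ^ (2 * m) ≤ Real.log x → Real.log x ≤ 2 * y ^ (2 * m) →
      ‖PL (cL χ) x‖ ≤ x / y ^ U := by
  obtain ⟨G, hG⟩ : ∃ G : ℕ, G = U + 4 * m + 3 := ⟨_, rfl⟩
  filter_upwards [eventually_ge_atTop (8 : ℝ), tent57 hm (U + 3), ev_log (32 * G) 1,
    Real.tendsto_log_atTop.eventually_ge_atTop 1] with y hy8 htent hy1 hly1 hS d _ hd hR χ hχ2 x hx0 hx1 hx2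
  have hyp : 0 < y := by linarith
  have hyo : 1 ≤ y := by linarith
  have hly : 0 < Real.log y := by linarith
  rw [pow_one] at hy1
  obtain ⟨Y, hY⟩ : ∃ Y : ℝ, Y = y ^ (2 * m) := ⟨_, rfl⟩
  have hyY : y ≤ Y := by
    rw [hY]
    exact le_self_pow₀ hyo (by omega)
  rw [← hY] at hx1 hx2
  have hG3 : (3 : ℝ) ≤ G := by
    rw [hG]
    exact_mod_cast (by omega : 3 ≤ U + 4 * m + 3)
  obtain ⟨K, hK⟩ : ∃ K : ℕ, K = ⌈2 * (G * Real.log y)⌉₊ := ⟨_, rfl⟩
  have hK1 : 2 * (G * Real.log y) ≤ (K : ℝ) := by rw [hK]; exact Nat.le_ceil _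
  have hGl : 1 ≤ G * Real.log y := by nlinarith
  have hK2 : (K : ℝ) ≤ 2 * (G * Real.log y) + 1 := by
    rw [hK]
    exact (Nat.ceil_lt_add_one (by positivity)).le
  have hK3 : 8 * (K : ℝ) ≤ y := by nlinarith
  have hK0 : 1 ≤ K := by
    rw [hK]
    exact Nat.one_le_ceil_iff.2 (by positivity)
  have hK0r : (1 : ℝ) ≤ K := by exact_mod_cast hK0
  have hE : Real.exp (-((K : ℝ) / 2)) ≤ 1 / y ^ G := by
    have e : (1 : ℝ) / y ^ G = Real.exp (-(G * Real.log y)) := by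
      rw [Real.exp_neg, Real.exp_nat_mul, Real.exp_log hyp, one_div]
    rw [e]
    apply Real.exp_le_exp.2
    linarith
  have hlow : Y / 8 ≤ Real.log (x * Real.exp (-((K : ℝ) / 2))) := by
    rw [Real.log_mul hx0.ne' (Real.exp_pos _).ne', Real.log_exp]
    linarith
  have hxe0 : 0 < x * Real.exp (-((K : ℝ) / 2)) := by positivity
  have hlow1 : 1 ≤ x * Real.exp (-((K : ℝ) / 2)) := by
    by_contra hcon
    push Not at hcon
    have := Real.log_nonpos hxe0.le hcon.le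
    linarith
  have hT := Pool.Agent.N457.SP.t_TEL (cL χ) x (1 / y ^ (U + 3)) (4 * y ^ (4 * m)) K hK0 (by positivity)
    (by positivity) hlow1 (by
      intro z hz1 hz2
      have hz0 : 0 < z := lt_of_lt_of_le hxe0 hz1
      have e := Pool.Agent.N475.SP.PP_eq χ z
      have e2 : PP (cL χ) z = psiPhi χ z := e
      rw [e2]
      have h1 := htent hS d hd hR χ hχ2 z hz0 (by
        rw [← hY]
        exact hlow.trans (Real.log_le_log hxe0 hz1)) (by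
        rw [← hY]
        exact (Real.log_le_log hz0 hz2).trans hx2)
      refine h1.trans (le_of_eq ?_)
      ring)
    (by
      intro z hz1 hz2
      have h1 := Pool.Agent.N475.SP.PL_triv χ z hz1
      have e2 : PL (cL χ) z = PL (fun n => ((ArithmeticFunction.vonMangoldt n : ℝ) : ℂ) * χ (n : ZMod d)) z := rfl
      rw [e2]
      refine h1.trans ?_
      have hz0 : 0 < z := by linarith
      have h2 : 0 ≤ Real.log z := Real.log_nonneg hz1
      have h3 : Real.log z ≤ 2 * Y := (Real.log_le_log hz0 hz2).trans hx2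
      have h4 : Real.log z ^ 2 ≤ 4 * y ^ (4 * m) := by
        calc Real.log z ^ 2 ≤ (2 * Y) ^ 2 := by gcongr
          _ = 4 * y ^ (4 * m) := by
              rw [hY, mul_pow, ← pow_mul]
              norm_num
              ring_nf
      gcongr)
  refine hT.trans ?_
  obtain ⟨Z, hZ⟩ : ∃ Z : ℝ, Z = x / y ^ (U + 3) := ⟨_, rfl⟩
  have hZ0 : 0 < Z := by rw [hZ]; positivity
  have s1 : (4 * (K : ℝ) + 1) * (4 * y ^ (4 * m)) * x * Real.exp (-(K / 2)) ≤ (4 * (K : ℝ) + 1) * 4 * Z := by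
    calc (4 * (K : ℝ) + 1) * (4 * y ^ (4 * m)) * x * Real.exp (-(K / 2)) ≤
          (4 * (K : ℝ) + 1) * (4 * y ^ (4 * m)) * x * (1 / y ^ G) := by gcongr
      _ = (4 * (K : ℝ) + 1) * 4 * Z := by
          have e : y ^ G = y ^ (4 * m) * y ^ (U + 3) := by
            rw [← pow_add, hG]
            congr 1
            ring
          rw [e, hZ]
          field_simp
  have s2 : (K : ℝ) ^ 2 * (1 / y ^ (U + 3)) * x = K ^ 2 * Z := by
    rw [hZ]
    ring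
  rw [s2]
  have hxU : x / y ^ U = y ^ 3 * Z := by
    rw [hZ, pow_add]
    field_simp
  rw [hxU]
  have h5 : (4 * (K : ℝ) + 1) * 4 + (K : ℝ) ^ 2 ≤ y ^ 3 := by
    have h6 : (K : ℝ) ≤ y / 8 := by linarith
    have h7 : (K : ℝ) ^ 2 ≤ (y / 8) ^ 2 := by gcongr
    have h8 : y ^ 3 = y * (y * y) := by ring
    have h9 : 8 * (y * y) ≤ y * (y * y) := by nlinarith
    have h10 : 8 * y ≤ y * y := by nlinarith
    rw [h8]
    nlinarith
  calc (4 * (K : ℝ) + 1) * (4 * y ^ (4 * m)) * x * Real.exp (-(K / 2)) + K ^ 2 * Z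
      ≤ (4 * (K : ℝ) + 1) * 4 * Z + K ^ 2 * Z := by linarith
    _ = ((4 * (K : ℝ) + 1) * 4 + (K : ℝ) ^ 2) * Z := by ring
    _ ≤ y ^ 3 * Z := by gcongr

/-- from logarithmic weights to sharp cut-offs -/
lemma sharp {x h : ℝ} (hx : 1 ≤ x) (hh0 : 0 < h) (hh1 : h ≤ 1) (c : ℕ → ℂ)
    (hc : ∀ n, ‖c n‖ ≤ Real.log n) :
    h * ‖∑ n ∈ Icc 1 ⌊x⌋₊, c n‖ ≤ ‖PL c (x * Real.exp h)‖ + ‖PL c x‖ +
      h * ((Real.log x + 1) * (2 * h * x + 1)) := by
  have hx0 : 0 < x := by linarith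
  have he1 : 1 ≤ Real.exp h := Real.one_le_exp hh0.le
  have he2 : Real.exp h ≤ 1 + 2 * h := by
    have h1 := Real.abs_exp_sub_one_sub_id_le (show |h| ≤ 1 by rw [abs_of_pos hh0]; exact hh1)
    rw [abs_le] at h1
    nlinarith [h1.2]
  have hxx : x ≤ x * Real.exp h := by nlinarith
  have hfl : ⌊x⌋₊ ≤ ⌊x * Real.exp h⌋₊ := Nat.floor_le_floor hxx
  have hx'0 : 0 < x * Real.exp h := by positivity
  have hlx' : Real.log (x * Real.exp h) = Real.log x + h := by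
    rw [Real.log_mul hx0.ne' (Real.exp_pos _).ne', Real.log_exp]
  have hlx : 0 ≤ Real.log x := Real.log_nonneg hx
  have hsplit : ∀ f : ℕ → ℂ, ∑ n ∈ Icc 1 ⌊x * Real.exp h⌋₊, f n =
      ∑ n ∈ Icc 1 ⌊x⌋₊, f n + ∑ n ∈ Ioc ⌊x⌋₊ ⌊x * Real.exp h⌋₊, f n := by
    intro f
    have e1 : ∀ M : ℕ, Icc 1 M = Ioc 0 M := fun M => by ext n; simp [Nat.succ_le_iff]
    rw [e1, e1, Finset.sum_Ioc_consecutive f (Nat.zero_le _) hfl]
  have h1 : PL c (x * Real.exp h) - PL c x = (h : ℂ) * ∑ n ∈ Icc 1 ⌊x⌋₊, c n +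
      ∑ n ∈ Ioc ⌊x⌋₊ ⌊x * Real.exp h⌋₊, c n * ((Real.log (x * Real.exp h / n) : ℝ) : ℂ) := by
    unfold PL
    rw [hsplit, mul_sum]
    have h2 : ∑ n ∈ Icc 1 ⌊x⌋₊, c n * ((Real.log (x * Real.exp h / n) : ℝ) : ℂ) =
        ∑ n ∈ Icc 1 ⌊x⌋₊, (h : ℂ) * c n + ∑ n ∈ Icc 1 ⌊x⌋₊, c n * ((Real.log (x / n) : ℝ) : ℂ) := by
      rw [← sum_add_distrib]
      refine sum_congr rfl fun n hn => ?_
      rw [mem_Icc] at hn
      have hn0 : (0 : ℝ) < n := by exact_mod_cast hn.1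
      rw [Real.log_div hx'0.ne' hn0.ne', hlx', Real.log_div hx0.ne' hn0.ne']
      push_cast
      ring
    rw [h2]
    ring
  have h2 : ‖∑ n ∈ Ioc ⌊x⌋₊ ⌊x * Real.exp h⌋₊, c n * ((Real.log (x * Real.exp h / n) : ℝ) : ℂ)‖ ≤
      h * ((Real.log x + 1) * (2 * h * x + 1)) := by
    have hb : ∀ n ∈ Ioc ⌊x⌋₊ ⌊x * Real.exp h⌋₊,
        ‖c n * ((Real.log (x * Real.exp h / n) : ℝ) : ℂ)‖ ≤ (Real.log x + 1) * h := by
      intro n hn
      rw [mem_Ioc] at hn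
      have hn1 : x < n := (Nat.floor_lt hx0.le).1 hn.1
      have hn2 : (n : ℝ) ≤ x * Real.exp h := (Nat.le_floor_iff hx'0.le).1 hn.2
      have hn0 : (0 : ℝ) < n := by linarith
      rw [norm_mul, Complex.norm_real]
      have h3 : ‖c n‖ ≤ Real.log x + 1 := by
        refine (hc n).trans ((Real.log_le_log hn0 hn2).trans ?_)
        rw [hlx']
        linarith
      have h4 : ‖Real.log (x * Real.exp h / n)‖ ≤ h := by
        have h5 : 1 ≤ x * Real.exp h / n := by rw [le_div_iff₀ hn0]; linarith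
        rw [Real.norm_of_nonneg (Real.log_nonneg h5), Real.log_div hx'0.ne' hn0.ne', hlx']
        have := Real.log_le_log hx0 hn1.le
        linarith
      gcongr
    refine (norm_sum_le_of_le _ hb).trans ?_
    rw [sum_const, nsmul_eq_mul, Nat.card_Ioc]
    have h3 : ((⌊x * Real.exp h⌋₊ - ⌊x⌋₊ : ℕ) : ℝ) ≤ 2 * h * x + 1 := by
      rw [Nat.cast_sub hfl]
      have h4 := Nat.floor_le hx'0.le
      have h5 := Nat.lt_floor_add_one x
      nlinarith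
    calc ((⌊x * Real.exp h⌋₊ - ⌊x⌋₊ : ℕ) : ℝ) * ((Real.log x + 1) * h) ≤
          (2 * h * x + 1) * ((Real.log x + 1) * h) := by gcongr
      _ = _ := by ring
  have h3 : h * ‖∑ n ∈ Icc 1 ⌊x⌋₊, c n‖ = ‖(h : ℂ) * ∑ n ∈ Icc 1 ⌊x⌋₊, c n‖ := by
    rw [norm_mul, Complex.norm_real, Real.norm_of_nonneg hh0.le]
  have h4 : (h : ℂ) * ∑ n ∈ Icc 1 ⌊x⌋₊, c n = PL c (x * Real.exp h) - PL c x -
      ∑ n ∈ Ioc ⌊x⌋₊ ⌊x * Real.exp h⌋₊, c n * ((Real.log (x * Real.exp h / n) : ℝ) : ℂ) := by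
    rw [h1]
    ring
  rw [h3, h4]
  refine (norm_sub_le _ _).trans ?_
  have := norm_sub_le (PL c (x * Real.exp h)) (PL c x)
  linarith

/-- prime sums -/
theorem psi57a {m : ℕ} (hm : 3 ≤ m) (U : ℕ) : ∀ᶠ y : ℝ in atTop, SumsAt m y →
    ∀ (d : ℕ) [NeZero d], Real.log d ≤ y ^ (2 * m) → Real.log (rad d) ≤ y ^ m →
    ∀ χ : DirichletCharacter ℂ d, χ ^ 2 ≠ 1 →
    ∀ x : ℝ, 1 ≤ x → 1 / 4 * y ^ (2 * m) ≤ Real.log x → Real.log x ≤ y ^ (2 * m) →
      ‖∑ n ∈ Icc 1 ⌊x⌋₊, cL χ n‖ ≤ x / y ^ U := by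
  obtain ⟨W, hW⟩ : ∃ W : ℕ, W = 2 * m + U + 2 := ⟨_, rfl⟩
  obtain ⟨a, ha⟩ := Pool.Agent.N475.SP.dom 3 (1 / 5) (2 * m + U + 1) (by norm_num)
  filter_upwards [eventually_ge_atTop (16 : ℝ), pl57 hm (W + U + 2), eventually_ge_atTop a]
    with y hy16 hpl hya hS d _ hd hR χ hχ2 x hx hc hlx
  have hyp : 0 < y := by linarith
  have hyo : 1 ≤ y := by linarith
  have hx0 : 0 < x := by linarith
  have ha1 := ha y hya
  obtain ⟨Y, hY⟩ : ∃ Y : ℝ, Y = y ^ (2 * m) := ⟨_, rfl⟩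
  have hyY : y ≤ Y := by
    rw [hY]
    exact le_self_pow₀ hyo (by omega)
  have hY16 : 16 ≤ Y := by linarith
  have hlx0 : 0 ≤ Real.log x := Real.log_nonneg hx
  have hyU0 : 0 < y ^ U := by positivity
  have hdom : 3 * (Y * y ^ U * y) ≤ Real.exp (Y / 5) := by
    calc 3 * (Y * y ^ U * y) = 3 * y ^ (2 * m + U + 1) := by
          rw [hY, ← pow_add, ← pow_succ]
      _ ≤ Real.exp (1 / 5 * y) := ha1
      _ ≤ _ := Real.exp_le_exp.2 (by linarith)
  rw [← hY] at hc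
  obtain ⟨h, hh⟩ : ∃ h : ℝ, h = 1 / y ^ W := ⟨_, rfl⟩
  have hyW : 1 ≤ y ^ W := one_le_pow₀ hyo
  have hh0 : 0 < h := by rw [hh]; positivity
  have hh1 : h ≤ 1 := by
    rw [hh, div_le_one (by positivity)]
    exact hyW
  have hsh := sharp hx hh0 hh1 (cL χ) (norm_cL χ)
  have he3 : Real.exp h ≤ 3 := by
    have h1 := Real.exp_le_exp.2 hh1
    have := Real.exp_one_lt_d9
    linarith
  have hx'0 : 0 < x * Real.exp h := by positivity
  have hlx' : Real.log (x * Real.exp h) = Real.log x + h := by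
    rw [Real.log_mul hx0.ne' (Real.exp_pos _).ne', Real.log_exp]
  have hlxY : Real.log x ≤ Y := by rw [hY]; exact hlx
  have p1 := hpl hS d hd hR χ hχ2 (x * Real.exp h) hx'0 (by rw [hlx', ← hY]; linarith)
    (by rw [hlx', ← hY]; linarith)
  have p2 := hpl hS d hd hR χ hχ2 x hx0 (by rw [← hY]; linarith) (by rw [← hY]; linarith)
  have p3 : x * Real.exp h / y ^ (W + U + 2) ≤ 3 * (x / y ^ (W + U + 2)) := by
    calc x * Real.exp h / y ^ (W + U + 2) ≤ x * 3 / y ^ (W + U + 2) := by gcongr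
      _ = _ := by ring
  obtain ⟨S, hS'⟩ : ∃ S : ℝ, S = ‖∑ n ∈ Icc 1 ⌊x⌋₊, cL χ n‖ := ⟨_, rfl⟩
  rw [← hS'] at hsh ⊢
  have h1 : h * S ≤ h * (4 * (x / y ^ (U + 2)) + (2 * Y) * (2 * h * x + 1)) := by
    have e1 : x / y ^ (W + U + 2) = h * (x / y ^ (U + 2)) := by
      rw [hh, add_assoc, pow_add]
      field_simp
    have e2 : h * ((Real.log x + 1) * (2 * h * x + 1)) ≤ h * ((2 * Y) * (2 * h * x + 1)) := by
      gcongr
      linarith
    rw [e1] at p2 p3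
    nlinarith
  have h2 : S ≤ 4 * (x / y ^ (U + 2)) + (2 * Y) * (2 * h * x + 1) := le_of_mul_le_mul_left h1 hh0
  have h3 : Y * (h * x) = x / y ^ (U + 2) := by
    rw [hh, hY, hW]
    have : y ^ (2 * m + U + 2) = y ^ (2 * m) * y ^ (U + 2) := by
      rw [← pow_add]
      congr 1
    rw [this]
    field_simp
  have h4 : 2 * Y ≤ x / y ^ (U + 1) := by
    rw [le_div_iff₀ (by positivity)]
    have h5 : Real.exp (Y / 5) ≤ x := by
      rw [← Real.exp_log hx0]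
      apply Real.exp_le_exp.2
      linarith
    have h6 : Y * y ^ (U + 1) = Y * y ^ U * y := by ring
    have h7 : 0 ≤ Y * y ^ U * y := by positivity
    calc 2 * Y * y ^ (U + 1) = 2 * (Y * y ^ U * y) := by rw [mul_assoc, h6]
      _ ≤ 3 * (Y * y ^ U * y) := by linarith
      _ ≤ x := hdom.trans h5
  have h5 : S ≤ 8 * (x / y ^ (U + 2)) + x / y ^ (U + 1) := by
    have e : (2 * Y) * (2 * h * x + 1) = 4 * (Y * (h * x)) + 2 * Y := by ring
    rw [e, h3] at h2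
    linarith
  have h6 : x / y ^ (U + 1) = x / y ^ U * (1 / y) := by
    rw [pow_succ]
    field_simp
  have h7 : x / y ^ (U + 2) = x / y ^ U * (1 / y * (1 / y)) := by
    rw [pow_succ, pow_succ]
    field_simp
  have h8 : 1 / y ≤ 1 / 16 := one_div_le_one_div_of_le (by norm_num) hy16
  have h9 : 0 < 1 / y := by positivity
  have h10 : 0 < x / y ^ U := by positivity
  rw [h6, h7] at h5
  have h12 : 8 * (1 / y * (1 / y)) + 1 / y ≤ 1 := by nlinarith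
  calc S ≤ 8 * (x / y ^ U * (1 / y * (1 / y))) + x / y ^ U * (1 / y) := h5
    _ = x / y ^ U * (8 * (1 / y * (1 / y)) + 1 / y) := by ring
    _ ≤ x / y ^ U * 1 := by gcongr
    _ = _ := mul_one _

/-- prime sums, all lengths -/
theorem psi57 {m : ℕ} (hm : 3 ≤ m) (U : ℕ) : ∀ᶠ y : ℝ in atTop, SumsAt m y →
    ∀ (d : ℕ) [NeZero d], Real.log d ≤ y ^ (2 * m) → Real.log (rad d) ≤ y ^ m →
    ∀ χ : DirichletCharacter ℂ d, χ ^ 2 ≠ 1 →
    ∀ x : ℝ, 1 ≤ x → Real.log x ≤ y ^ (2 * m) →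
      ‖∑ n ∈ Icc 1 ⌊x⌋₊, cL χ n‖ ≤ Real.exp (y ^ (2 * m)) / y ^ U := by
  obtain ⟨a, ha⟩ := Pool.Agent.N475.SP.dom 3 (1 / 5) (2 * m + U + 1) (by norm_num)
  filter_upwards [eventually_ge_atTop (16 : ℝ), psi57a hm U, eventually_ge_atTop a]
    with y hy16 hpsi hya hS d _ hd hR χ hχ2 x hx hlx
  have hyp : 0 < y := by linarith
  have hyo : 1 ≤ y := by linarith
  have hx0 : 0 < x := by linarith
  have ha1 := ha y hya
  obtain ⟨Y, hY⟩ : ∃ Y : ℝ, Y = y ^ (2 * m) := ⟨_, rfl⟩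
  have hyY : y ≤ Y := by
    rw [hY]
    exact le_self_pow₀ hyo (by omega)
  have hY16 : 16 ≤ Y := by linarith
  have hlx0 : 0 ≤ Real.log x := Real.log_nonneg hx
  have hxY : x ≤ Real.exp Y := by
    rw [← Real.exp_log hx0]
    apply Real.exp_le_exp.2
    rw [hY]
    exact hlx
  have hyU0 : 0 < y ^ U := by positivity
  have hdom : 3 * (Y * y ^ U * y) ≤ Real.exp (Y / 5) := by
    calc 3 * (Y * y ^ U * y) = 3 * y ^ (2 * m + U + 1) := by
          rw [hY, ← pow_add, ← pow_succ]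
      _ ≤ Real.exp (1 / 5 * y) := ha1
      _ ≤ _ := Real.exp_le_exp.2 (by linarith)
  rcases lt_or_ge (Real.log x) (1 / 4 * Y) with hc | hc
  · -- small `x`
    have h1 : ‖∑ n ∈ Icc 1 ⌊x⌋₊, cL χ n‖ ≤ x * Real.log x := by
      have hb : ∀ n ∈ Icc 1 ⌊x⌋₊, ‖cL χ n‖ ≤ Real.log x := by
        intro n hn
        rw [mem_Icc] at hn
        refine (norm_cL χ n).trans (Real.log_le_log (by exact_mod_cast hn.1) ?_)
        exact (Nat.le_floor_iff hx0.le).1 hn.2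
      refine (norm_sum_le_of_le _ hb).trans ?_
      rw [sum_const, nsmul_eq_mul, Nat.card_Icc, Nat.add_sub_cancel]
      have := Nat.floor_le hx0.le
      gcongr
    refine h1.trans ?_
    rw [← hY, le_div_iff₀ hyU0]
    have h2 : x ≤ Real.exp (4 / 5 * Y) := by
      rw [← Real.exp_log hx0]
      exact Real.exp_le_exp.2 (by linarith)
    have h3 : Real.log x ≤ Y := by rw [hY]; exact hlx
    have h4 : Y * y ^ U ≤ Real.exp (Y / 5) := by
      have : Y * y ^ U ≤ Y * y ^ U * y := le_mul_of_one_le_right (by positivity) hyo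
      have h5 : 0 ≤ Y * y ^ U * y := by positivity
      linarith
    calc x * Real.log x * y ^ U ≤ Real.exp (4 / 5 * Y) * Y * y ^ U := by gcongr
      _ = Real.exp (4 / 5 * Y) * (Y * y ^ U) := by ring
      _ ≤ Real.exp (4 / 5 * Y) * Real.exp (Y / 5) := by gcongr
      _ = Real.exp Y := by
          rw [← Real.exp_add]
          congr 1
          ring
  · refine (hpsi hS d hd hR χ hχ2 x hx (by rw [← hY]; exact hc) hlx).trans ?_
    rw [← hY]
    gcongr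

/-- the main theorem on prime sums -/
theorem main57 : ∃ m : ℕ, 3 ≤ m ∧ ∀ U : ℕ, ∃ y1 : ℝ, 1 ≤ y1 ∧ ∀ y : ℝ, y1 ≤ y →
    ∀ (d : ℕ) [NeZero d], Real.log d ≤ y ^ (2 * m) → Real.log (rad d) ≤ y ^ m →
    ∀ χ : DirichletCharacter ℂ d, χ ^ 2 ≠ 1 →
    ∀ x : ℝ, 1 ≤ x → Real.log x ≤ y ^ (2 * m) →
      ‖∑ n ∈ Icc 1 ⌊x⌋₊, cL χ n‖ ≤ Real.exp (y ^ (2 * m)) / y ^ U := by
  obtain ⟨m, hm, y0, hy0, h⟩ := sumsP
  refine ⟨m, hm, fun U => ?_⟩
  obtain ⟨a, ha⟩ := eventually_atTop.1 (psi57 hm U)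
  refine ⟨max 1 (max a y0), le_max_left _ _, fun y hy => ?_⟩
  have h1 : a ≤ y := ((le_max_left _ _).trans (le_max_right _ _)).trans hy
  have h2 : y0 ≤ y := ((le_max_right _ _).trans (le_max_right _ _)).trans hy
  exact ha y h1 (h y h2)

end Pool.Agent.T9h57.PK
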