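import Pool.Agent.T9h57.PK.Coef

/-!
# Sums of primitive characters over intervals
-/

set_option autoImplicit false

namespace Pool.Agent.T9h57.PK

open Finset Pool.Agent.Y957.VK

/-- shifting an interval -/
lemma shift_sum (f : ℕ → ℂ) (hf : ∀ n, ‖f n‖ ≤ 1) (a b t : ℕ) :
    ‖∑ n ∈ Ioc a b, f n - ∑ n ∈ Ioc a b, f (n + t)‖ ≤ 2 * t := by
  rcases le_total b a with h | h
  · rw [Ioc_eq_empty_of_le h]
    simp
  have h1 : ∑ n ∈ Ioc a b, f (n + t) = ∑ n ∈ Ioc (a + t) (b + t), f n := by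
    rw [← Finset.image_add_right_Ioc, sum_image]
    intro x _ y _ hxy
    simpa using hxy
  have h2 : ∀ c : ℕ, ‖∑ n ∈ Ioc c (c + t), f n‖ ≤ t := by
    intro c
    refine (norm_sum_le _ _).trans ?_
    refine (sum_le_sum fun n _ => hf n).trans ?_
    simp
  have h3 : ∑ n ∈ Ioc a (b + t), f n = ∑ n ∈ Ioc a b, f n + ∑ n ∈ Ioc b (b + t), f n :=
    (Finset.sum_Ioc_consecutive f h (by omega)).symm
  have h4 : ∑ n ∈ Ioc a (b + t), f n = ∑ n ∈ Ioc a (a + t), f n + ∑ n ∈ Ioc (a + t) (b + t), f n :=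
    (Finset.sum_Ioc_consecutive f (by omega) (by omega)).symm
  have h5 : ∑ n ∈ Ioc a b, f n - ∑ n ∈ Ioc (a + t) (b + t), f n =
      ∑ n ∈ Ioc a (a + t), f n - ∑ n ∈ Ioc b (b + t), f n := by
    linear_combination h4 - h3
  rw [h1, h5]
  refine (norm_sub_le _ _).trans ?_
  have := h2 a
  have := h2 b
  linarith

/-- the mean over the shifts -/
lemma shift_mean (f : ℕ → ℂ) (hf : ∀ n, ‖f n‖ ≤ 1) (a b H M : ℕ) (hM : 1 ≤ M) :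
    (M : ℝ) ^ 2 * ‖∑ n ∈ Ioc a b, f n‖ ≤
      ∑ n ∈ Ioc a b, ‖∑ x ∈ Icc 1 M, ∑ y ∈ Icc 1 M, f (n + H * (x * y))‖ + (M : ℝ) ^ 2 * (2 * (H * M ^ 2)) := by
  have h1 : ∀ x ∈ Icc 1 M, ∀ y ∈ Icc 1 M,
      ‖∑ n ∈ Ioc a b, f n - ∑ n ∈ Ioc a b, f (n + H * (x * y))‖ ≤ 2 * (H * M ^ 2) := by
    intro x hx y hy
    rw [mem_Icc] at hx hy
    refine (shift_sum f hf a b _).trans ?_
    push_cast
    have h2 : (x : ℝ) ≤ M := by exact_mod_cast hx.2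
    have h3 : (y : ℝ) ≤ M := by exact_mod_cast hy.2
    rw [pow_two]
    gcongr
  have h2 : ((M : ℂ)) ^ 2 * ∑ n ∈ Ioc a b, f n =
      ∑ x ∈ Icc 1 M, ∑ y ∈ Icc 1 M, (∑ n ∈ Ioc a b, f n - ∑ n ∈ Ioc a b, f (n + H * (x * y))) +
        ∑ n ∈ Ioc a b, ∑ x ∈ Icc 1 M, ∑ y ∈ Icc 1 M, f (n + H * (x * y)) := by
    simp only [sum_sub_distrib, sum_const, Nat.card_Icc, Nat.add_sub_cancel, nsmul_eq_mul]
    have h3 : ∑ n ∈ Ioc a b, ∑ x ∈ Icc 1 M, ∑ y ∈ Icc 1 M, f (n + H * (x * y)) =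
        ∑ x ∈ Icc 1 M, ∑ y ∈ Icc 1 M, ∑ n ∈ Ioc a b, f (n + H * (x * y)) := by
      rw [sum_comm]
      refine sum_congr rfl fun x _ => ?_
      rw [sum_comm]
    rw [h3]
    ring
  have h3 : (M : ℝ) ^ 2 * ‖∑ n ∈ Ioc a b, f n‖ = ‖((M : ℂ)) ^ 2 * ∑ n ∈ Ioc a b, f n‖ := by
    rw [norm_mul, norm_pow, Complex.norm_natCast]
  rw [h3, h2]
  refine (norm_add_le _ _).trans ?_
  rw [add_comm]
  apply add_le_add (norm_sum_le _ _)
  refine (norm_sum_le _ _).trans ?_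
  calc ∑ x ∈ Icc 1 M, ‖∑ y ∈ Icc 1 M, (∑ n ∈ Ioc a b, f n - ∑ n ∈ Ioc a b, f (n + H * (x * y)))‖
      ≤ ∑ x ∈ Icc 1 M, ∑ y ∈ Icc 1 M, (2 * (H * M ^ 2) : ℝ) := by
        refine sum_le_sum fun x hx => (norm_sum_le _ _).trans ?_
        exact sum_le_sum fun y hy => h1 x hx y hy
    _ = _ := by
        simp only [sum_const, Nat.card_Icc, Nat.add_sub_cancel, nsmul_eq_mul]
        ring

/-- the inner sums -/
theorem inner : ∃ C : ℕ, ∀ (N d : ℕ) (κ : ℝ), 2 ≤ N → 1 / 2 ≤ κ → 0 < d →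
    Real.log d = κ * Real.log N → Real.log (rad d) * (50 * κ + 60) ≤ Real.log N →
    ∀ χ : DirichletCharacter ℂ d, χ.IsPrimitive → ∀ n : ℕ,
    ‖∑ x ∈ Icc 1 ⌊(N : ℝ) ^ (2 / 5 : ℝ)⌋₊, ∑ y ∈ Icc 1 ⌊(N : ℝ) ^ (2 / 5 : ℝ)⌋₊,
      χ ((n + Hh (sK (⌈5 * κ⌉₊ + 6) d) d * (x * y) : ℕ) : ZMod d)‖ ≤
    Real.exp (C * (1 + κ) ^ C) * (⌊(N : ℝ) ^ (2 / 5 : ℝ)⌋₊ : ℝ) ^ 2 *
        (N : ℝ) ^ (-(1 / 10 ^ 10 / (1 + κ) ^ 2) : ℝ) := by
  obtain ⟨C0, h0⟩ := coef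
  obtain ⟨C, hC⟩ := tn_gen C0
  refine ⟨C, fun N d κ hN hκ hd0 hd hR χ hχ n => ?_⟩
  haveI : NeZero d := ⟨hd0.ne'⟩
  obtain ⟨k, hk⟩ : ∃ k, k = ⌈5 * κ⌉₊ + 6 := ⟨_, rfl⟩
  obtain ⟨s, hs⟩ : ∃ s, s = sK k d := ⟨_, rfl⟩
  obtain ⟨H, hH⟩ : ∃ H, H = Hh s d := ⟨_, rfl⟩
  have hk1 : 1 ≤ k := by omega
  rw [← hk, ← hs, ← hH]
  by_cases hco : Nat.Coprime n d
  · obtain ⟨m, hm, hz⟩ := post d hd0 χ (NT_of_primitive hχ) s k (by
      intro p hp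
      rw [hs]
      exact ⟨(sK_ok hk1 hp).1, (sK_ok hk1 hp).2.1⟩)
    obtain ⟨n', hn'⟩ : ∃ n' : ℤ, ((n' : ℤ) : ZMod d) = ((n : ZMod d))⁻¹ :=
      ⟨(((n : ZMod d)⁻¹).val : ℤ), by simp⟩
    have hnn : (n : ZMod d) * (n' : ZMod d) = 1 := by
      rw [hn']
      exact ZMod.coe_mul_inv_eq_one n hco
    have hcn : IsCoprime n' (d : ℤ) := by
      have h1 : (((n : ℤ) * n' : ℤ) : ZMod d) = ((1 : ℤ) : ZMod d) := by
        push_cast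
        exact hnn
      have h2 := (ZMod.intCast_eq_intCast_iff_dvd_sub _ _ d).1 h1
      obtain ⟨w, hw⟩ := h2
      exact ⟨n, w, by linarith⟩
    obtain ⟨A, hA⟩ : ∃ A : ℕ → ℤ, A = fun j => m j * n' ^ j := ⟨_, rfl⟩
    have hAc : ∀ j, 1 ≤ j → IsCoprime (A j) (Dj (sK (⌈5 * κ⌉₊ + 6) d) d j : ℤ) := by
      intro j hj
      rw [← hk, ← hs, hA]
      exact (hm j hj).mul_left (IsCoprime.pow_left (coprime_Dj hcn))
    have hmain := hC N κ (fun j => (A j : ℝ) / Dj (sK (⌈5 * κ⌉₊ + 6) d) d j) hN hκ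
      (fun j r s' M hr hs' hM hj => h0 N d κ A hN hκ hd0 hd hR hAc j r s' M hr hs' hM hj)
    rw [← hk, ← hs] at hmain
    have hk5 : k - 1 = ⌈5 * κ⌉₊ + 5 := by omega
    refine le_trans (le_of_eq ?_) hmain
    rw [TT]
    have h1 : ∀ x ∈ Icc 1 ⌊(N : ℝ) ^ (2 / 5 : ℝ)⌋₊, ∀ y ∈ Icc 1 ⌊(N : ℝ) ^ (2 / 5 : ℝ)⌋₊,
        χ ((n + H * (x * y) : ℕ) : ZMod d) = χ (n : ZMod d) *
          Complex.exp (2 * Real.pi * Complex.I * ((∑ j ∈ Finset.Icc 1 (⌈5 * κ⌉₊ + 5),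
            (A j : ℝ) / Dj s d j * ((x : ℝ) * y) ^ j : ℝ) : ℂ)) := by
      intro x _ y _
      have h2 : ((n + H * (x * y) : ℕ) : ZMod d) = (n : ZMod d) * ((1 + (Hh s d : ℤ) * (n' * (x * y)) : ℤ) : ZMod d) := by
        push_cast
        rw [← hH]
        linear_combination (-(H : ZMod d) * (x * y)) * hnn
      rw [h2, map_mul, hz, ex, hk5]
      congr 3
      push_cast
      refine sum_congr rfl fun j _ => ?_
      rw [hA]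
      push_cast
      rw [mul_pow]
      ring
    rw [sum_congr rfl fun x hx => sum_congr rfl fun y hy => h1 x hx y hy]
    simp_rw [← mul_sum]
    rw [norm_mul]
    have h3 : ‖χ (n : ZMod d)‖ = 1 := by
      have h4 : IsUnit (n : ZMod d) := (ZMod.isUnit_iff_coprime n d).2 hco
      obtain ⟨u, hu⟩ := h4
      rw [← hu]
      exact χ.unit_norm_eq_one u
    rw [h3, one_mul]
  · have h1 : ∀ x y : ℕ, χ ((n + H * (x * y) : ℕ) : ZMod d) = 0 := by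
      intro x y
      apply χ.map_nonunit
      rw [ZMod.isUnit_iff_coprime]
      intro h2
      obtain ⟨p, hp, hpn, hpd⟩ := Nat.Prime.not_coprime_iff_dvd.1 hco
      have hpf : p ∈ d.primeFactors := Nat.mem_primeFactors.2 ⟨hp, hpd, hd0.ne'⟩
      have h3 : p ∣ H := by
        rw [hH, hs]
        exact dvd_Hh hk1 hpf
      have h4 : p ∣ n + H * (x * y) := dvd_add hpn (h3.mul_right _)
      have h5 := Nat.dvd_gcd h4 hpd
      rw [h2] at h5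
      exact hp.one_lt.ne' (Nat.dvd_one.1 h5)
    simp only [h1, sum_const_zero, norm_zero]
    positivity

/-- sums of primitive characters over intervals -/
theorem block : ∃ C : ℕ, ∀ (N d : ℕ) (κ : ℝ), 2 ≤ N → 1 / 2 ≤ κ → 0 < d →
    Real.log d = κ * Real.log N → Real.log (rad d) * (50 * κ + 60) ≤ Real.log N →
    ∀ χ : DirichletCharacter ℂ d, χ.IsPrimitive → ∀ a b : ℕ, b ≤ a + N →
    ‖∑ n ∈ Ioc a b, χ (n : ZMod d)‖ ≤
    Real.exp (C * (1 + κ) ^ C) * (N : ℝ) ^ (1 - 1 / 10 ^ 10 / (1 + κ) ^ 2 : ℝ) := by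
  obtain ⟨C, hC⟩ := inner
  refine ⟨C + 3, fun N d κ hN hκ hd0 hd hR χ hχ a b hab => ?_⟩
  have hκ0 : 0 < κ := by linarith
  have hNr : (2 : ℝ) ≤ N := by exact_mod_cast hN
  have hN0 : (0 : ℝ) < N := by linarith
  have hN1 : (1 : ℝ) ≤ N := by linarith
  obtain ⟨M, hM⟩ : ∃ M, M = ⌊(N : ℝ) ^ (2 / 5 : ℝ)⌋₊ := ⟨_, rfl⟩
  have hM1 : 1 ≤ M := by
    rw [hM, Nat.one_le_floor_iff]
    exact Real.one_le_rpow hN1 (by norm_num)
  have hMr : (1 : ℝ) ≤ M := by exact_mod_cast hM1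
  have hMN : (M : ℝ) ≤ (N : ℝ) ^ (2 / 5 : ℝ) := by
    rw [hM]
    exact Nat.floor_le (by positivity)
  obtain ⟨H, hH⟩ : ∃ H, H = Hh (sK (⌈5 * κ⌉₊ + 6) d) d := ⟨_, rfl⟩
  have hHs : (H : ℝ) ≤ (N : ℝ) ^ (1 / 5 - 1 / (5 * κ + 6) : ℝ) := by
    have h1 := Hh_small (k := ⌈5 * κ⌉₊ + 6) hN hκ hd hd0 hR (by
      push_cast
      have := Nat.le_ceil (5 * κ)
      linarith)
    rw [← hH] at h1
    have hH0 : (0 : ℝ) < H := by
      rw [hH]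
      exact_mod_cast Hh_pos _ _
    rw [Real.rpow_def_of_pos hN0, ← Real.exp_log hH0]
    apply Real.exp_le_exp.2
    linarith
  have hinner := hC N d κ hN hκ hd0 hd hR χ hχ
  rw [← hM, ← hH] at hinner
  have h1 := shift_mean (fun n => χ (n : ZMod d)) (fun n => χ.norm_le_one _) a b H M hM1
  obtain ⟨c, hc⟩ : ∃ c : ℝ, c = 1 / 10 ^ 10 / (1 + κ) ^ 2 := ⟨_, rfl⟩
  rw [← hc] at hinner ⊢
  obtain ⟨E, hE⟩ : ∃ E : ℝ, E = Real.exp (C * (1 + κ) ^ C) := ⟨_, rfl⟩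
  rw [← hE] at hinner
  have hE1 : 1 ≤ E := by
    rw [hE]
    exact Real.one_le_exp (by positivity)
  have hM2 : (0 : ℝ) < (M : ℝ) ^ 2 := by positivity
  have h2 : ∑ n ∈ Ioc a b, ‖∑ x ∈ Icc 1 M, ∑ y ∈ Icc 1 M, χ ((n + H * (x * y) : ℕ) : ZMod d)‖ ≤
      (M : ℝ) ^ 2 * (E * (N : ℝ) ^ (1 - c)) := by
    calc ∑ n ∈ Ioc a b, ‖∑ x ∈ Icc 1 M, ∑ y ∈ Icc 1 M, χ ((n + H * (x * y) : ℕ) : ZMod d)‖
        ≤ ∑ n ∈ Ioc a b, E * (M : ℝ) ^ 2 * (N : ℝ) ^ (-c) := sum_le_sum fun n _ => hinner n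
      _ = ((b - a : ℕ) : ℝ) * (E * (M : ℝ) ^ 2 * (N : ℝ) ^ (-c)) := by
          rw [sum_const, Nat.card_Ioc, nsmul_eq_mul]
      _ ≤ (N : ℝ) * (E * (M : ℝ) ^ 2 * (N : ℝ) ^ (-c)) := by
          have : ((b - a : ℕ) : ℝ) ≤ N := by
            have : b - a ≤ N := by omega
            exact_mod_cast this
          gcongr
      _ = _ := by
          rw [sub_eq_add_neg, Real.rpow_add hN0, Real.rpow_one]
          ring
  have h3 : (H : ℝ) * M ^ 2 ≤ (N : ℝ) ^ (1 - c) := by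
    calc (H : ℝ) * M ^ 2 ≤ (N : ℝ) ^ (1 / 5 - 1 / (5 * κ + 6) : ℝ) * ((N : ℝ) ^ (2 / 5 : ℝ)) ^ 2 := by gcongr
      _ = (N : ℝ) ^ (1 - 1 / (5 * κ + 6) : ℝ) := by
          rw [← Real.rpow_natCast, ← Real.rpow_mul hN0.le, ← Real.rpow_add hN0]
          congr 1
          push_cast
          ring
      _ ≤ _ := by
          apply Real.rpow_le_rpow_of_exponent_le hN1
          have h4 : c ≤ 1 / (5 * κ + 6) := by
            rw [hc, div_div]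
            apply one_div_le_one_div_of_le (by positivity)
            nlinarith
          linarith
  have h4 : ‖∑ n ∈ Ioc a b, χ (n : ZMod d)‖ ≤ E * (N : ℝ) ^ (1 - c) + 2 * (N : ℝ) ^ (1 - c) := by
    have h5 : (M : ℝ) ^ 2 * ‖∑ n ∈ Ioc a b, χ (n : ZMod d)‖ ≤
        (M : ℝ) ^ 2 * (E * (N : ℝ) ^ (1 - c) + 2 * (N : ℝ) ^ (1 - c)) := by
      refine h1.trans ?_
      have h6 : (M : ℝ) ^ 2 * (2 * (H * M ^ 2)) ≤ (M : ℝ) ^ 2 * (2 * (N : ℝ) ^ (1 - c)) := by gcongr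
      linarith
    exact le_of_mul_le_mul_left h5 hM2
  refine h4.trans ?_
  have hpos : 0 ≤ (N : ℝ) ^ (1 - c) := by positivity
  calc E * (N : ℝ) ^ (1 - c) + 2 * (N : ℝ) ^ (1 - c) ≤ (E * Real.exp 2) * (N : ℝ) ^ (1 - c) := by
        have h5 : (3 : ℝ) ≤ Real.exp 2 := by
          have := Real.add_one_le_exp (2 : ℝ)
          linarith
        have h6 : E + 2 ≤ E * Real.exp 2 := by nlinarith
        have h7 := mul_le_mul_of_nonneg_right h6 hpos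
        linarith
    _ ≤ _ := by
        apply mul_le_mul_of_nonneg_right _ hpos
        rw [hE, ← Real.exp_add]
        apply Real.exp_le_exp.2
        push_cast
        have h6 : (1 : ℝ) ≤ 1 + κ := by linarith
        have h7 : (1 + κ) ^ C ≤ (1 + κ) ^ (C + 3) := pow_le_pow_right₀ h6 (by omega)
        have h8 : 1 ≤ (1 + κ) ^ (C + 3) := one_le_pow₀ h6
        have h9 : (0 : ℝ) ≤ C := Nat.cast_nonneg _
        have h10 : (C : ℝ) * (1 + κ) ^ C ≤ C * (1 + κ) ^ (C + 3) := mul_le_mul_of_nonneg_left h7 h9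
        linarith

end Pool.Agent.T9h57.PK
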