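import Pool.Agent.T9h57.PK.Tn

/-!
# The factors `WJ` for the coefficients in Postnikov's formula
-/

set_option autoImplicit false

namespace Pool.Agent.T9h57.PK

open Finset Pool.Agent.Y957.VK

/-- the denominators are large -/
lemma Dj_ge {N d k j : ℕ} {κ : ℝ} (hN : 2 ≤ N) (hκ : 1 / 2 ≤ κ) (hd : Real.log d = κ * Real.log N)
    (hd0 : 0 < d) (hR : Real.log (rad d) * (50 * κ + 60) ≤ Real.log N) (hk1 : 5 * κ + 6 ≤ k)
    (hj : (j : ℝ) ≤ 3 * κ + 1 / 2) :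
    κ / 5 * Real.log N ≤ Real.log (Dj (sK k d) d j) := by
  have hκ0 : 0 < κ := by linarith
  have hL0 : 0 < Real.log N := Real.log_pos (by exact_mod_cast (by omega : 1 < N))
  have hk0 : (0 : ℝ) < k := by linarith
  have hkN : 1 ≤ k := by
    have : (0 : ℝ) < k := hk0
    exact_mod_cast this
  have hjk : j ≤ k := by
    have : (j : ℝ) ≤ k := by linarith
    exact_mod_cast this
  have h1 := Dj_low hkN hd0 hjk
  have hD0 : (0 : ℝ) < (Dj (sK k d) d j : ℝ) := by exact_mod_cast Dj_pos _ _ _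
  have hr0 : (0 : ℝ) < (rad d : ℝ) := by exact_mod_cast rad_pos d
  have hdr : (0 : ℝ) < (d : ℝ) := by exact_mod_cast hd0
  have h2 : ((d : ℝ)) ^ (k - j) ≤ (Dj (sK k d) d j : ℝ) ^ k * (rad d : ℝ) ^ (2 * k * j) := by exact_mod_cast h1
  have h3 := Real.log_le_log (by positivity) h2
  rw [Real.log_mul (by positivity) (by positivity), Real.log_pow, Real.log_pow, Real.log_pow,
    Nat.cast_sub hjk, hd] at h3
  push_cast at h3
  obtain ⟨L, hL⟩ : ∃ L, L = Real.log N := ⟨_, rfl⟩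
  obtain ⟨x, hx⟩ : ∃ x, x = Real.log (Dj (sK k d) d j) := ⟨_, rfl⟩
  obtain ⟨ρ, hρ⟩ : ∃ ρ, ρ = Real.log (rad d) := ⟨_, rfl⟩
  rw [← hL] at h3 hR hL0 ⊢
  rw [← hx] at h3 ⊢
  rw [← hρ] at h3 hR
  have hρ0 : 0 ≤ ρ := by rw [hρ]; exact Real.log_natCast_nonneg _
  -- `2 j ρ ≤ κ / 10 L`
  have h4 : 2 * (j : ℝ) * ρ ≤ κ / 10 * L := by
    have h5 : 2 * (j : ℝ) ≤ κ / 10 * (50 * κ + 60) := by nlinarith
    calc 2 * (j : ℝ) * ρ ≤ κ / 10 * (50 * κ + 60) * ρ := by gcongr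
      _ = κ / 10 * (ρ * (50 * κ + 60)) := by ring
      _ ≤ κ / 10 * L := by gcongr
  have h5 : (j : ℝ) ≤ 7 / 10 * k := by linarith
  have h6 : (k : ℝ) * (κ / 5 * L) ≤ k * x := by
    have h7 : ((k : ℝ) - j) * (κ * L) ≥ 3 / 10 * k * (κ * L) := by
      have : 3 / 10 * (k : ℝ) ≤ k - j := by linarith
      have h8 : 0 ≤ κ * L := by positivity
      nlinarith
    have h8 : 2 * (k : ℝ) * j * ρ ≤ k * (κ / 10 * L) := by
      calc 2 * (k : ℝ) * j * ρ = k * (2 * j * ρ) := by ring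
        _ ≤ k * (κ / 10 * L) := by gcongr
    nlinarith
  exact le_of_mul_le_mul_left h6 hk0

/-- the step is small -/
lemma Hh_small {N d k : ℕ} {κ : ℝ} (hN : 2 ≤ N) (hκ : 1 / 2 ≤ κ) (hd : Real.log d = κ * Real.log N)
    (hd0 : 0 < d) (hR : Real.log (rad d) * (50 * κ + 60) ≤ Real.log N) (hk1 : 5 * κ + 6 ≤ k) :
    Real.log (Hh (sK k d) d) ≤ (1 / 5 - 1 / (5 * κ + 6)) * Real.log N := by
  have hκ0 : 0 < κ := by linarith
  have hL0 : 0 < Real.log N := Real.log_pos (by exact_mod_cast (by omega : 1 < N))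
  have hk0 : (0 : ℝ) < k := by linarith
  have hkN : 1 ≤ k := by
    have : (0 : ℝ) < k := hk0
    exact_mod_cast this
  have h1 := Hh_le hkN hd0
  have hH0 : (0 : ℝ) < (Hh (sK k d) d : ℝ) := by exact_mod_cast Hh_pos _ _
  have hr0 : (0 : ℝ) < (rad d : ℝ) := by exact_mod_cast rad_pos d
  have hdr : (0 : ℝ) < (d : ℝ) := by exact_mod_cast hd0
  have h2 : (Hh (sK k d) d : ℝ) ^ k ≤ (d : ℝ) * (rad d : ℝ) ^ (2 * k) := by exact_mod_cast h1
  have h3 := Real.log_le_log (by positivity) h2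
  rw [Real.log_mul (by positivity) (by positivity), Real.log_pow, Real.log_pow, hd] at h3
  push_cast at h3
  obtain ⟨L, hL⟩ : ∃ L, L = Real.log N := ⟨_, rfl⟩
  obtain ⟨x, hx⟩ : ∃ x, x = Real.log (Hh (sK k d) d) := ⟨_, rfl⟩
  obtain ⟨ρ, hρ⟩ : ∃ ρ, ρ = Real.log (rad d) := ⟨_, rfl⟩
  rw [← hL] at h3 hR hL0 ⊢
  rw [← hx] at h3 ⊢
  rw [← hρ] at h3 hR
  have hk6 : 0 < 5 * κ + 6 := by linarith
  -- `x ≤ κ L / k + 2 ρ`
  have h4 : x ≤ κ * L / k + 2 * ρ := by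
    have h5 : (k : ℝ) * x ≤ k * (κ * L / k + 2 * ρ) := by
      have : (k : ℝ) * (κ * L / k + 2 * ρ) = κ * L + 2 * k * ρ := by field_simp
      rw [this]
      exact h3
    exact le_of_mul_le_mul_left h5 hk0
  have h5 : κ * L / k ≤ κ * L / (5 * κ + 6) :=
    div_le_div_of_nonneg_left (by positivity) hk6 hk1
  have h6 : 2 * ρ ≤ (1 / 5) * L / (5 * κ + 6) := by
    rw [le_div_iff₀ hk6]
    linarith
  have h7 : κ * L / (5 * κ + 6) + (1 / 5) * L / (5 * κ + 6) = (1 / 5 - 1 / (5 * κ + 6)) * L := by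
    field_simp
    ring
  linarith

/-- the bound for the factors -/
theorem coef : ∃ C0 : ℕ, ∀ (N d : ℕ) (κ : ℝ) (A : ℕ → ℤ), 2 ≤ N → 1 / 2 ≤ κ → 0 < d →
    Real.log d = κ * Real.log N → Real.log (rad d) * (50 * κ + 60) ≤ Real.log N →
    (∀ j, 1 ≤ j → IsCoprime (A j) (Dj (sK (⌈5 * κ⌉₊ + 6) d) d j : ℤ)) →
    ∀ (j r s M : ℕ), r = ⌈5 * κ⌉₊ + 5 → s = 9 * r ^ 2 → M = ⌊(N : ℝ) ^ (2 / 5 : ℝ)⌋₊ → j ∈ Finset.Icc 1 r →
      WJ s M j ((A j : ℝ) / Dj (sK (⌈5 * κ⌉₊ + 6) d) d j) ≤ (M : ℝ) ^ (2 * j) * Real.exp (C0 * (1 + κ) ^ C0) ∧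
      ((s : ℝ) ≤ 3 * (N : ℝ) ^ (κ / 5) → 2 * κ ≤ j → (j : ℝ) ≤ 3 * κ + 1 / 2 →
        WJ s M j ((A j : ℝ) / Dj (sK (⌈5 * κ⌉₊ + 6) d) d j) ≤ (M : ℝ) ^ (2 * j) *
          (Real.exp (C0 * (1 + κ) ^ C0) * (1 + Real.log N) * (N : ℝ) ^ (-(κ / 5) : ℝ))) := by
  obtain ⟨C0, hC0⟩ : ∃ C0 : ℕ, 100000000 ≤ C0 := ⟨_, le_rfl⟩
  refine ⟨C0, fun N d κ A hN hκ hd0 hd hR hA j r s M hr hs hM hj => ?_⟩
  have hκ0 : 0 < κ := by linarith
  have hNr : (2 : ℝ) ≤ N := by exact_mod_cast hN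
  have hN0 : (0 : ℝ) < N := by linarith
  have hL0 : 0 < Real.log N := Real.log_pos (by linarith)
  rw [mem_Icc] at hj
  have hr2 : (r : ℝ) ≤ 5 * κ + 6 := by
    rw [hr]
    push_cast
    have := Nat.ceil_lt_add_one (a := 5 * κ) (by linarith)
    linarith
  have hr17 : (r : ℝ) ≤ 17 * κ := by linarith
  obtain ⟨u, hu⟩ : ∃ u : ℝ, u = 1 + κ := ⟨_, rfl⟩
  have hu1 : 1 ≤ u := by linarith
  have hu0 : 0 < u := by linarith
  have hκu : κ ≤ u := by linarith
  rw [← hu]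
  have hs2 : (s : ℝ) ≤ 2601 * u ^ 2 := by
    rw [hs]
    push_cast
    have h1 : (r : ℝ) ^ 2 ≤ (17 * u) ^ 2 := by
      apply pow_le_pow_left₀ (Nat.cast_nonneg _)
      linarith
    nlinarith
  have hs0 : (1 : ℝ) ≤ s := by
    rw [hs]
    have h1 : 1 ≤ r := by omega
    have h2 : 1 ≤ 9 * r ^ 2 := by nlinarith
    exact_mod_cast h2
  have hM1 : 1 ≤ M := by
    rw [hM, Nat.one_le_floor_iff]
    exact Real.one_le_rpow (by linarith) (by norm_num)
  have hM1r : (1 : ℝ) ≤ M := by exact_mod_cast hM1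
  have hMj : (1 : ℝ) ≤ (M : ℝ) ^ j := one_le_pow₀ hM1r
  have hM2j : (M : ℝ) ^ (2 * j) = (M : ℝ) ^ j * (M : ℝ) ^ j := by rw [two_mul, pow_add]
  have hV : (2 * (s * M ^ j : ℕ) + 1 : ℝ) ≤ 3 * s * M ^ j := by
    push_cast
    nlinarith
  have hupow : u ^ 4 ≤ u ^ C0 := pow_le_pow_right₀ hu1 (by omega)
  have hC0r : (100000000 : ℝ) ≤ C0 := by exact_mod_cast hC0
  have hexpC : 100000000 * u ^ 4 ≤ C0 * u ^ C0 := by
    have : 0 ≤ u ^ 4 := by positivity
    gcongr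
  constructor
  · refine ((Pool.Agent.Y331.VK.wb s M j _ (by exact_mod_cast hs0) hM1).1).trans ?_
    have h1 : (2 * (s * M ^ j : ℕ) + 1 : ℝ) ^ 2 ≤ (3 * s * M ^ j) ^ 2 :=
      pow_le_pow_left₀ (by positivity) hV 2
    refine h1.trans ?_
    have h2 : (3 * (s : ℝ) * M ^ j) ^ 2 = M ^ (2 * j) * (9 * s ^ 2) := by rw [hM2j]; ring
    rw [h2]
    apply mul_le_mul_of_nonneg_left _ (by positivity)
    have h3 : 9 * (s : ℝ) ^ 2 ≤ 100000000 * u ^ 4 := by
      have h4 : (s : ℝ) ^ 2 ≤ (2601 * u ^ 2) ^ 2 := pow_le_pow_left₀ (by linarith) hs2 2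
      nlinarith [pow_nonneg hu0.le 4]
    have h4 := Real.add_one_le_exp (C0 * u ^ C0)
    linarith
  · intro _ hj1 hj2
    obtain ⟨D, hD⟩ : ∃ D, D = Dj (sK (⌈5 * κ⌉₊ + 6) d) d j := ⟨_, rfl⟩
    have hAj := hA j hj.1
    have hDge := Dj_ge (k := ⌈5 * κ⌉₊ + 6) hN hκ hd hd0 hR (by
      push_cast
      have := Nat.le_ceil (5 * κ)
      linarith) hj2
    have hDup := Dj_up (s := sK (⌈5 * κ⌉₊ + 6) d) hd0 hj.1
    have hDpos := Dj_pos (sK (⌈5 * κ⌉₊ + 6) d) d j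
    rw [← hD] at hAj hDge hDup hDpos ⊢
    have hD0 : (0 : ℝ) < D := by exact_mod_cast hDpos
    have hD1 : (1 : ℝ) ≤ D := by exact_mod_cast hDpos
    refine (WJ_rat s M j D hDpos hAj).trans ?_
    obtain ⟨V, hVd⟩ : ∃ V : ℝ, V = 3 * s * M ^ j := ⟨_, rfl⟩
    rw [← hVd] at hV
    have hV0 : 0 < V := by rw [hVd]; positivity
    obtain ⟨ℓ, hℓ⟩ : ∃ ℓ : ℝ, ℓ = 1 + Real.log D := ⟨_, rfl⟩
    rw [← hℓ]
    have hlD0 : 0 ≤ Real.log D := Real.log_nonneg hD1
    have hℓ1 : 1 ≤ ℓ := by linarith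
    have h1 : ((2 * (s * M ^ j : ℕ) + 1 : ℝ) / D + 1) * ((2 * (s * M ^ j : ℕ) + 1) + D * ℓ) ≤
        V ^ 2 / D + 2 * V * ℓ + D * ℓ := by
      calc ((2 * (s * M ^ j : ℕ) + 1 : ℝ) / D + 1) * ((2 * (s * M ^ j : ℕ) + 1) + D * ℓ)
          ≤ (V / D + 1) * (V + D * ℓ) := by gcongr
        _ = V ^ 2 / D + V * ℓ + V * 1 + D * ℓ := by field_simp; ring
        _ ≤ V ^ 2 / D + V * ℓ + V * ℓ + D * ℓ := by gcongr
        _ = _ := by ring
    refine h1.trans ?_
    -- the basic quantities as exponentials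
    obtain ⟨L, hL⟩ : ∃ L, L = Real.log N := ⟨_, rfl⟩
    rw [← hL] at hDge hL0 hd ⊢
    have hexpN : ∀ a : ℝ, (N : ℝ) ^ a = Real.exp (a * L) := by
      intro a
      rw [Real.rpow_def_of_pos hN0, hL, mul_comm]
    obtain ⟨P, hP⟩ : ∃ P : ℝ, P = Real.exp (-(κ / 5) * L) := ⟨_, rfl⟩
    rw [hexpN, ← hP]
    have hP0 : 0 < P := by rw [hP]; exact Real.exp_pos _
    have hDinv : 1 / (D : ℝ) ≤ P := by
      rw [hP, one_div, ← Real.exp_log hD0, ← Real.exp_neg]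
      apply Real.exp_le_exp.2
      linarith
    -- `M ^ (-1) ≤ 2 N ^ (-2/5)`
    have hMinv : 1 ≤ 2 * Real.exp (-(2 / 5) * L) * M := by
      have h2 : (N : ℝ) ^ (2 / 5 : ℝ) ≤ 2 * M := by
        have h3 := Nat.lt_floor_add_one ((N : ℝ) ^ (2 / 5 : ℝ))
        rw [← hM] at h3
        linarith
      rw [hexpN] at h2
      have h3 : Real.exp (-(2 / 5) * L) * Real.exp (2 / 5 * L) = 1 := by
        rw [← Real.exp_add]
        simp
      have h4 : 0 < Real.exp (-(2 / 5) * L) := Real.exp_pos _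
      nlinarith
    have hMjinv : 1 ≤ 2 ^ j * Real.exp (-(4 * κ / 5) * L) * M ^ j := by
      have h2 : 1 ≤ (2 * Real.exp (-(2 / 5) * L) * M) ^ j := one_le_pow₀ hMinv
      rw [mul_pow, mul_pow, ← Real.exp_nat_mul] at h2
      refine h2.trans ?_
      have h3 : Real.exp (j * (-(2 / 5) * L)) ≤ Real.exp (-(4 * κ / 5) * L) := by
        apply Real.exp_le_exp.2
        nlinarith
      gcongr
    have h2j : (2 : ℝ) ^ j ≤ Real.exp (3 * u) := by
      have h2 : (2 : ℝ) ^ j ≤ Real.exp 1 ^ j := by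
        apply pow_le_pow_left₀ (by norm_num)
        have := Real.add_one_le_exp (1 : ℝ)
        linarith
      rw [← Real.exp_nat_mul, mul_one] at h2
      refine h2.trans (Real.exp_le_exp.2 ?_)
      linarith
    have hj4 : (j : ℝ) ≤ 4 * u := by linarith
    have hlogD : ℓ ≤ 5 * u * (1 + L) := by
      have h2 : Real.log D ≤ Real.log (d * j) := by
        apply Real.log_le_log hD0
        exact_mod_cast hDup
      have hj0 : (0 : ℝ) < j := by exact_mod_cast hj.1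
      rw [Real.log_mul (by exact_mod_cast hd0.ne') hj0.ne', hd] at h2
      have h3 := Real.log_le_sub_one_of_pos hj0
      rw [hℓ]
      nlinarith
    have hPP : Real.exp (-(4 * κ / 5) * L) ≤ P := by
      rw [hP]
      apply Real.exp_le_exp.2
      nlinarith
    have hdN : (d : ℝ) = Real.exp (κ * L) := by
      rw [← hd, Real.exp_log (by exact_mod_cast hd0)]
    obtain ⟨W, hW⟩ : ∃ W : ℝ, W = (M : ℝ) ^ j := ⟨_, rfl⟩
    rw [← hW] at hMj hMjinv hVd
    rw [hM2j, ← hW]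
    have hW0 : 0 < W := by linarith
    have hE3 : 1 ≤ Real.exp (3 * u) := Real.one_le_exp (by linarith)
    -- (a)
    have ta : V ^ 2 / D ≤ W * W * P * (70000000 * u ^ 4) := by
      calc V ^ 2 / D = 9 * s ^ 2 * (W * W) * (1 / D) := by rw [hVd]; field_simp; norm_num
        _ ≤ 9 * (2601 * u ^ 2) ^ 2 * (W * W) * P := by gcongr
        _ = W * W * P * (60886809 * u ^ 4) := by ring
        _ ≤ _ := by
            gcongr
            norm_num
    -- (b)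
    have tb : 2 * V * ℓ ≤ W * W * P * (80000 * u ^ 3 * Real.exp (3 * u) * (1 + L)) := by
      have h3 : W ≤ W * W * (Real.exp (3 * u) * P) := by
        have h4 : 1 ≤ Real.exp (3 * u) * P * W := by
          refine hMjinv.trans ?_
          gcongr
        calc W = W * 1 := (mul_one _).symm
          _ ≤ W * (Real.exp (3 * u) * P * W) := by gcongr
          _ = _ := by ring
      calc 2 * V * ℓ = 6 * s * ℓ * W := by rw [hVd]; ring
        _ ≤ 6 * (2601 * u ^ 2) * (5 * u * (1 + L)) * (W * W * (Real.exp (3 * u) * P)) := by gcongr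
        _ = W * W * P * (78030 * u ^ 3 * Real.exp (3 * u) * (1 + L)) := by ring
        _ ≤ _ := by
            gcongr
            norm_num
    -- (c)
    have tc : D * ℓ ≤ W * W * P * (20 * u ^ 2 * Real.exp (6 * u) * (1 + L)) := by
      have h3 : (D : ℝ) ≤ d * j := by exact_mod_cast hDup
      have h4 : (1 : ℝ) ≤ (Real.exp (3 * u) * Real.exp (-(4 * κ / 5) * L) * W) *
          (Real.exp (3 * u) * Real.exp (-(4 * κ / 5) * L) * W) := by
        have h5 : 1 ≤ Real.exp (3 * u) * Real.exp (-(4 * κ / 5) * L) * W := by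
          refine hMjinv.trans ?_
          gcongr
        nlinarith
      have h5 : Real.exp (κ * L) * (Real.exp (-(4 * κ / 5) * L) * Real.exp (-(4 * κ / 5) * L)) ≤ P := by
        rw [hP, ← Real.exp_add, ← Real.exp_add]
        apply Real.exp_le_exp.2
        nlinarith
      have h6 : Real.exp (3 * u) * Real.exp (3 * u) = Real.exp (6 * u) := by
        rw [← Real.exp_add]; congr 1; ring
      calc D * ℓ ≤ (d * j) * (5 * u * (1 + L)) := by gcongr
        _ ≤ (Real.exp (κ * L) * (4 * u)) * (5 * u * (1 + L)) := by rw [hdN]; gcongr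
        _ = Real.exp (κ * L) * (20 * u ^ 2 * (1 + L)) * 1 := by ring
        _ ≤ Real.exp (κ * L) * (20 * u ^ 2 * (1 + L)) *
            ((Real.exp (3 * u) * Real.exp (-(4 * κ / 5) * L) * W) *
            (Real.exp (3 * u) * Real.exp (-(4 * κ / 5) * L) * W)) := by gcongr
        _ = (Real.exp (κ * L) * (Real.exp (-(4 * κ / 5) * L) * Real.exp (-(4 * κ / 5) * L))) * (W * W) *
            (20 * u ^ 2 * (Real.exp (3 * u) * Real.exp (3 * u)) * (1 + L)) := by ring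
        _ ≤ P * (W * W) * (20 * u ^ 2 * (Real.exp (3 * u) * Real.exp (3 * u)) * (1 + L)) := by gcongr
        _ = _ := by rw [h6]; ring
    have hfin : 70000000 * u ^ 4 + 80000 * u ^ 3 * Real.exp (3 * u) * (1 + L) +
        20 * u ^ 2 * Real.exp (6 * u) * (1 + L) ≤ Real.exp (C0 * u ^ C0) * (1 + L) := by
      have hL1 : 1 ≤ 1 + L := by linarith
      have hE6 : Real.exp (3 * u) ≤ Real.exp (6 * u) := Real.exp_le_exp.2 (by linarith)
      have hE1 : 1 ≤ Real.exp (6 * u) := Real.one_le_exp (by linarith)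
      have p3 : u ^ 3 ≤ u ^ 4 := pow_le_pow_right₀ hu1 (by norm_num)
      have p2 : u ^ 2 ≤ u ^ 4 := pow_le_pow_right₀ hu1 (by norm_num)
      have p1 : u ≤ u ^ 4 := le_self_pow₀ hu1 (by norm_num)
      have h3 : 70000000 * u ^ 4 + 80000 * u ^ 3 * Real.exp (3 * u) * (1 + L) +
        20 * u ^ 2 * Real.exp (6 * u) * (1 + L) ≤ (80000000 * u ^ 4) * Real.exp (6 * u) * (1 + L) := by
        have q1 : 70000000 * u ^ 4 ≤ 70000000 * u ^ 4 * Real.exp (6 * u) * (1 + L) := by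
          have : 1 ≤ Real.exp (6 * u) * (1 + L) := by nlinarith
          calc 70000000 * u ^ 4 = 70000000 * u ^ 4 * 1 := (mul_one _).symm
            _ ≤ 70000000 * u ^ 4 * (Real.exp (6 * u) * (1 + L)) := by gcongr
            _ = _ := by ring
        have q2 : 80000 * u ^ 3 * Real.exp (3 * u) * (1 + L) ≤ 80000 * u ^ 4 * Real.exp (6 * u) * (1 + L) := by
          gcongr
        have q3 : 20 * u ^ 2 * Real.exp (6 * u) * (1 + L) ≤ 20 * u ^ 4 * Real.exp (6 * u) * (1 + L) := by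
          gcongr
        have q4 : 0 ≤ u ^ 4 * Real.exp (6 * u) * (1 + L) := by positivity
        nlinarith
      refine h3.trans ?_
      apply mul_le_mul_of_nonneg_right _ (by linarith)
      have h4 : 80000000 * u ^ 4 ≤ Real.exp (80000000 * u ^ 4) := by
        have := Real.add_one_le_exp (80000000 * u ^ 4)
        linarith
      calc 80000000 * u ^ 4 * Real.exp (6 * u) ≤ Real.exp (80000000 * u ^ 4) * Real.exp (6 * u) := by gcongr
        _ = Real.exp (80000000 * u ^ 4 + 6 * u) := by rw [← Real.exp_add]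
        _ ≤ Real.exp (C0 * u ^ C0) := by
            apply Real.exp_le_exp.2
            nlinarith
    have hWP : 0 ≤ W * W * P := by positivity
    calc V ^ 2 / D + 2 * V * ℓ + D * ℓ ≤ W * W * P * (70000000 * u ^ 4 + 80000 * u ^ 3 * Real.exp (3 * u) * (1 + L) +
        20 * u ^ 2 * Real.exp (6 * u) * (1 + L)) := by
          rw [mul_add, mul_add]
          linarith
      _ ≤ W * W * P * (Real.exp (C0 * u ^ C0) * (1 + L)) := mul_le_mul_of_nonneg_left hfin hWP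
      _ = _ := by ring

end Pool.Agent.T9h57.PK
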