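import Pool.Agent.N864.GN.InvB
import Pool.Agent.W66.LA

/-!
# Zeros and logarithmic derivatives of `L(s, χ)` near `Re s = 1` from upper bounds
-/

set_option autoImplicit false

namespace Pool.Agent.T9h57.PK

open Finset Filter Topology Complex Metric
open Pool.Agent.N864.GN (mA inv_exp exA isOpen_reg)
open Pool.Agent.W66L (LSeries_eq_DL three_four_one_char LF_ne_zero)
open scoped ArithmeticFunction.vonMangoldt

/-- the inverse to the right of one -/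
lemma inv_right {Q : ℕ} [NeZero Q] (χ : DirichletCharacter ℂ Q) {s : ℂ} (hs : 1 < s.re) :
    χ.LFunction s ≠ 0 ∧ ‖(χ.LFunction s)⁻¹‖ ≤ (1 + 1 / (s.re - 1)) ^ 2 := by
  rw [DirichletCharacter.LFunction_eq_LSeries χ hs]
  have h1 := DirichletCharacter.LSeries.mul_mu_eq_one χ hs
  have hne : LSeries (fun n : ℕ => χ n) s ≠ 0 := by
    intro h0
    rw [h0, zero_mul] at h1
    exact zero_ne_one h1
  refine ⟨hne, ?_⟩
  have h2 : (LSeries (fun n : ℕ => χ n) s)⁻¹ =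
      LSeries ((fun n : ℕ => χ n) * fun n : ℕ => (ArithmeticFunction.moebius n : ℂ)) s :=
    (eq_inv_of_mul_eq_one_right h1).symm
  rw [h2]
  have hsum : Summable (fun n : ℕ => (n : ℝ) ^ (-s.re)) := Real.summable_nat_rpow.mpr (by linarith)
  have h3 : ‖LSeries ((fun n : ℕ => χ n) * fun n : ℕ => (ArithmeticFunction.moebius n : ℂ)) s‖ ≤
      ∑' n : ℕ, (n : ℝ) ^ (-s.re) := by
    unfold LSeries
    refine tsum_of_norm_bounded hsum.hasSum fun n => ?_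
    rcases eq_or_ne n 0 with rfl | hn
    · simp only [LSeries.term_zero, norm_zero]
      positivity
    · rw [LSeries.term_of_ne_zero hn, norm_div, norm_natCast_cpow_of_pos (Nat.pos_of_ne_zero hn),
        Real.rpow_neg (Nat.cast_nonneg _), ← one_div]
      simp only [Pi.mul_apply, norm_mul]
      apply div_le_div_of_nonneg_right _ (by positivity)
      have a1 := DirichletCharacter.norm_le_one χ (n : ZMod Q)
      have a2 : ‖(ArithmeticFunction.moebius n : ℂ)‖ ≤ 1 := by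
        have := ArithmeticFunction.abs_moebius_le_one (n := n)
        rw [Complex.norm_intCast]
        exact_mod_cast this
      calc _ ≤ (1 : ℝ) * 1 := mul_le_mul a1 a2 (norm_nonneg _) zero_le_one
        _ = 1 := one_mul 1
  have h4 := Pool.Agent.N864.GN.zeta_le hs
  have h5 : 0 < 1 / (s.re - 1) := by
    apply one_div_pos.2
    linarith
  have h6 : 1 + 1 / (s.re - 1) ≤ (1 + 1 / (s.re - 1)) ^ 2 := by nlinarith
  linarith

/-- the hypotheses near one height -/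
structure Dat {Q : ℕ} [NeZero Q] (χ : DirichletCharacter ℂ Q) (t r θ R : ℝ) : Prop where
  ne1 : χ ≠ 1
  θ0 : 0 < θ
  θ1 : θ ≤ 1 / 20
  R3 : 3 ≤ R
  bd : ∀ s : ℂ, 1 - 4 * θ < s.re → s.re ≤ 3 → |s.im - t| < r → ‖χ.LFunction s‖ ≤ R

variable {Q : ℕ} [NeZero Q] {χ : DirichletCharacter ℂ Q}

/-- the local lemma for our functions -/
lemma Dat.loc {t r θ R : ℝ} (D : Dat χ t r θ R) {A η τ : ℝ} (hA : 1 ≤ A)
    (hη : η = θ / (A * Real.log (R / θ))) (hτ : |τ - t| + 2 * θ < r) :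
    (-(24 * (mA A) * Real.log (R / θ) / θ) ≤ (deriv χ.LFunction ⟨1 + η, τ⟩ / χ.LFunction ⟨1 + η, τ⟩).re) ∧
    (∀ ρ ∈ closedBall (⟨1 + η, τ⟩ : ℂ) θ, χ.LFunction ρ = 0 →
      (1 / ((⟨1 + η, τ⟩ : ℂ) - ρ)).re - 24 * (mA A) * Real.log (R / θ) / θ ≤
        (deriv χ.LFunction ⟨1 + η, τ⟩ / χ.LFunction ⟨1 + η, τ⟩).re) ∧
    (∀ z ∈ closedBall (⟨1 + η, τ⟩ : ℂ) (θ / 2), ∀ d : ℝ, 0 < d →
      (∀ ρ ∈ closedBall (⟨1 + η, τ⟩ : ℂ) θ, χ.LFunction ρ = 0 → d ≤ ‖z - ρ‖) →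
      χ.LFunction z ≠ 0 ∧ ‖deriv χ.LFunction z / χ.LFunction z‖ ≤ mA A * Real.log (R / θ) * (3 / 2) / d +
        24 * (mA A) * Real.log (R / θ) / θ) := by
  have hθ0 := D.θ0
  have hθ1 := D.θ1
  have hR3 := D.R3
  obtain ⟨hQ4, hη0, hη1, hi1, hi2⟩ := inv_exp hA D.θ0 D.θ1 D.R3 hη
  have hball : ∀ z ∈ closedBall (⟨1 + η, τ⟩ : ℂ) (4 * (θ / 2)),
      1 - 4 * θ < z.re ∧ z.re ≤ 3 ∧ |z.im - t| < r := by
    intro z hz
    rw [mem_closedBall, dist_eq_norm] at hz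
    have h1 := (abs_re_le_norm (z - ⟨1 + η, τ⟩)).trans hz
    have h2 := (abs_im_le_norm (z - ⟨1 + η, τ⟩)).trans hz
    rw [sub_re, abs_le] at h1
    rw [sub_im] at h2
    have h3 : (⟨1 + η, τ⟩ : ℂ).re = 1 + η := rfl
    have h4 : (⟨1 + η, τ⟩ : ℂ).im = τ := rfl
    rw [h3] at h1
    rw [h4] at h2
    refine ⟨by linarith [h1.1], by linarith [h1.2], ?_⟩
    have h5 : |z.im - t| ≤ |z.im - τ| + |τ - t| := abs_sub_le _ _ _
    linarith
  have han : AnalyticOnNhd ℂ χ.LFunction (closedBall (⟨1 + η, τ⟩ : ℂ) (4 * (θ / 2))) :=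
    fun z _ => (DirichletCharacter.differentiable_LFunction D.ne1).analyticAt z
  have hc1 : 1 < (⟨1 + η, τ⟩ : ℂ).re := by
    show 1 < 1 + η
    linarith
  obtain ⟨n1, n2⟩ := inv_right χ hc1
  have hinv : R * ‖(χ.LFunction ⟨1 + η, τ⟩)⁻¹‖ ≤ Real.exp ((mA A - 1) * Real.log (R / θ)) := by
    refine le_trans (mul_le_mul_of_nonneg_left (n2.trans ?_) (by linarith)) hi2
    have e1 : (⟨1 + η, τ⟩ : ℂ).re - 1 = η := by
      show 1 + η - 1 = η
      ring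
    rw [e1]
    have h3 : 1 ≤ 1 / η := by
      rw [le_div_iff₀ hη0]
      linarith
    have h4 : 2 / η = 1 / η + 1 / η := by ring
    exact pow_le_pow_left₀ (by positivity) (by linarith) 2
  have hz : ∀ ρ ∈ closedBall (⟨1 + η, τ⟩ : ℂ) (4 * (θ / 2)), χ.LFunction ρ = 0 → ρ.re ≤ 1 := by
    intro ρ _ hρ0
    by_contra hcon
    push Not at hcon
    exact (inv_right χ hcon).1 hρ0
  obtain ⟨l1, l2, l3⟩ := Pool.Agent.N864.GN.loc (w := θ / 2) (by linarith) (by linarith) hη0 han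
    (fun z hz => D.bd z (hball z hz).1 (hball z hz).2.1 (hball z hz).2.2) n1 hinv hz
  have hm : (mA A - 1) * Real.log (R / θ) + 1 ≤ mA A * Real.log (R / θ) := by linarith
  have hE : 12 * ((mA A - 1) * Real.log (R / θ) + 1) / (θ / 2) ≤
      24 * (mA A) * Real.log (R / θ) / θ := by
    have e1 : 24 * (mA A) * Real.log (R / θ) / θ = 12 * (mA A * Real.log (R / θ)) / (θ / 2) := by
      field_simp
      ring
    rw [e1]
    gcongr
  have hr2 : 2 * (θ / 2) = θ := by ring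
  rw [hr2] at l2 l3
  refine ⟨by linarith, fun ρ hρ hρ0 => ?_, fun z hz d hd hdist => ?_⟩
  · have := l2 ρ hρ hρ0
    linarith
  · obtain ⟨m1, m2⟩ := l3 z hz d hd hdist
    refine ⟨m1, m2.trans (add_le_add ?_ hE)⟩
    have : (mA A - 1) * Real.log (R / θ) ≤ mA A * Real.log (R / θ) := by linarith
    gcongr

/-- the 3-4-1 inequality -/
lemma tfo : ∃ K : ℝ, 0 < K ∧ ∀ {Q : ℕ} [NeZero Q] (χ : DirichletCharacter ℂ Q), χ ^ 2 ≠ 1 →
    ∀ σ : ℝ, 1 < σ → σ ≤ 2 → ∀ t : ℝ,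
    4 * (deriv χ.LFunction (⟨σ, t⟩ : ℂ) / χ.LFunction (⟨σ, t⟩ : ℂ)).re +
      (deriv (χ ^ 2).LFunction (⟨σ, 2 * t⟩ : ℂ) / (χ ^ 2).LFunction (⟨σ, 2 * t⟩ : ℂ)).re ≤
      3 * (1 / (σ - 1) + K) := by
  obtain ⟨K0, hK0, hD0⟩ := Pool.Agent.W66.D_re
  refine ⟨K0 * Pool.Agent.W66.ell 0, ?_, fun χ hχ2 σ hσ1 hσ2 t => ?_⟩
  · have := Pool.Agent.W66.one_le_ell 0
    positivity
  · have hχ : χ ≠ 1 := by
      rintro rfl
      exact hχ2 (one_pow 2)
    have h341 := three_four_one_char χ hσ1 t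
    rw [Pool.Agent.W66.LSeries_eq_DD (by simpa using hσ1), LSeries_eq_DL χ hχ (by simpa using hσ1),
      LSeries_eq_DL (χ ^ 2) hχ2 (by simpa using hσ1), sub_re, neg_re, neg_re] at h341
    have d0 := (hD0 0 σ hσ1 hσ2).1
    change _ ≤ (Pool.Agent.W66.DD _).re at d0
    have e0 : (1 / ((⟨σ, 0⟩ : ℂ) - 1)).re = 1 / (σ - 1) := by
      have e : (⟨σ, 0⟩ : ℂ) - 1 = ((σ - 1 : ℝ) : ℂ) := by
        apply Complex.ext <;> simp
      rw [e, ← Complex.ofReal_one, ← Complex.ofReal_div, Complex.ofReal_re]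
    rw [e0] at h341
    linarith

/-- no zeros near the line -/
lemma zfree {A K : ℝ} (hA : 1 ≤ A) (hK0 : 0 < K)
    (hK : ∀ {Q : ℕ} [NeZero Q] (χ : DirichletCharacter ℂ Q), χ ^ 2 ≠ 1 →
      ∀ σ : ℝ, 1 < σ → σ ≤ 2 → ∀ t : ℝ,
      4 * (deriv χ.LFunction (⟨σ, t⟩ : ℂ) / χ.LFunction (⟨σ, t⟩ : ℂ)).re +
      (deriv (χ ^ 2).LFunction (⟨σ, 2 * t⟩ : ℂ) / (χ ^ 2).LFunction (⟨σ, 2 * t⟩ : ℂ)).re ≤
      3 * (1 / (σ - 1) + K)) (hAK : 3 * K + 120 * mA A ≤ A / 2)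
    {t θ R : ℝ} (D1 : Dat χ t (4 * θ) θ R)
    (D2 : Dat (χ ^ 2) (2 * t) (8 * θ) θ R) {ρ : ℂ} (hρ : χ.LFunction ρ = 0) (ht : |ρ.im - t| ≤ θ)
    (hre : 1 - θ / 2 ≤ ρ.re) : ρ.re ≤ 1 - θ / (7 * A * Real.log (R / θ)) := by
  have hθ0 := D1.θ0
  have hθ1 := D1.θ1
  have hR3 := D1.R3
  obtain ⟨η, hη⟩ : ∃ η : ℝ, η = θ / (A * Real.log (R / θ)) := ⟨_, rfl⟩
  obtain ⟨hQ4, hη0, hη1, hi1, hi2⟩ := inv_exp hA D1.θ0 D1.θ1 D1.R3 hη
  have hre1 : ρ.re ≤ 1 := by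
    by_contra hcon
    push Not at hcon
    exact (inv_right χ hcon).1 hρ
  obtain ⟨a1, a2, -⟩ := D1.loc (τ := ρ.im) hA hη (by linarith)
  have h2t : |2 * ρ.im - 2 * t| = 2 * |ρ.im - t| := by
    rw [← mul_sub, abs_mul]
    norm_num
  obtain ⟨b1, b2, -⟩ := D2.loc (τ := 2 * ρ.im) hA hη (by rw [h2t]; linarith)
  have hball : ρ ∈ closedBall (⟨1 + η, ρ.im⟩ : ℂ) θ := by
    rw [mem_closedBall, dist_eq_norm]
    have e : ρ - ⟨1 + η, ρ.im⟩ = ((ρ.re - (1 + η) : ℝ) : ℂ) := by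
      apply Complex.ext <;> simp
    rw [e, Complex.norm_real, Real.norm_eq_abs, abs_le]
    constructor <;> linarith
  have a3 := a2 ρ hball hρ
  have e1 : (1 / ((⟨1 + η, ρ.im⟩ : ℂ) - ρ)).re = 1 / (1 + η - ρ.re) := by
    have e : (⟨1 + η, ρ.im⟩ : ℂ) - ρ = ((1 + η - ρ.re : ℝ) : ℂ) := by
      apply Complex.ext <;> simp
    rw [e, ← Complex.ofReal_one, ← Complex.ofReal_div, Complex.ofReal_re]
  rw [e1] at a3
  have h341 := hK χ D2.ne1 (1 + η) (by linarith) (by linarith) ρ.im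
  have e2 : 1 + η - 1 = η := by ring
  rw [e2] at h341
  generalize Real.log (R / θ) = Q at *
  have hQ0 : 0 < Q := by linarith
  have hA0 : 0 < A := by linarith
  have h3η : 1 / η = A * (Q / θ) := by
    rw [hη]
    field_simp
  have hQθ : 1 ≤ Q / θ := by
    rw [le_div_iff₀ hθ0]
    linarith
  have e3 : 24 * (mA A) * Q / θ = 24 * (mA A) * (Q / θ) := by ring
  rw [e3] at a3 b1
  have hD0 : 0 < 1 + η - ρ.re := by linarith
  have hKQ : K ≤ K * (Q / θ) := by nlinarith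
  have hm : 4 * (1 / (1 + η - ρ.re)) ≤ 7 / 2 * A * (Q / θ) := by
    have h8 : (3 * K + 120 * mA A) * (Q / θ) ≤ A / 2 * (Q / θ) :=
      mul_le_mul_of_nonneg_right hAK (by linarith)
    rw [h3η] at h341
    linarith
  have h9 : 4 / (1 + η - ρ.re) ≤ 7 / 2 * A * (Q / θ) := by
    have h1 : 4 * (1 / (1 + η - ρ.re)) = 4 / (1 + η - ρ.re) := by ring
    rwa [h1] at hm
  rw [div_le_iff₀ hD0] at h9
  have h11 : θ / (7 * A * Q) = 1 / 7 * η := by
    rw [hη]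
    field_simp
  rw [h11]
  have h12 : 8 / 7 * η ≤ 1 + η - ρ.re := by
    by_contra hcon
    push Not at hcon
    have h13 : 7 / 2 * A * (Q / θ) * (1 + η - ρ.re) < 7 / 2 * A * (Q / θ) * (8 / 7 * η) :=
      mul_lt_mul_of_pos_left hcon (by positivity)
    have h14 : 7 / 2 * A * (Q / θ) * (8 / 7 * η) = 4 := by
      rw [hη]
      field_simp
      norm_num
    linarith
  linarith

/-- the logarithmic derivative near the line -/
theorem ldb : ∃ A : ℝ, 1 ≤ A ∧ ∀ {Q : ℕ} [NeZero Q] (χ : DirichletCharacter ℂ Q) (t θ R : ℝ),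
    Dat χ t (4 * θ) θ R → Dat (χ ^ 2) (2 * t) (8 * θ) θ R → ∀ σ : ℝ,
    |σ - 1| ≤ θ / (A * Real.log (R / θ)) →
    χ.LFunction ⟨σ, t⟩ ≠ 0 ∧ ‖deriv χ.LFunction ⟨σ, t⟩ / χ.LFunction ⟨σ, t⟩‖ ≤
      A * Real.log (R / θ) ^ 2 / θ := by
  obtain ⟨K, hK0, hK⟩ := tfo
  obtain ⟨A, hA, hAK⟩ := exA K
  obtain ⟨M, hM⟩ : ∃ M : ℝ, M = mA (28 * A) := ⟨_, rfl⟩
  have hM6 : 6 ≤ M := by
    rw [hM]
    unfold mA
    have := Real.log_nonneg (show (1 : ℝ) ≤ 2 * (28 * A) by linarith)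
    linarith
  refine ⟨700 * A * M, by nlinarith, ?_⟩
  intro Q _ χ t θ R D1 D2 σ hσ
  have hθ0 := D1.θ0
  have hθ1 := D1.θ1
  have hR3 := D1.R3
  obtain ⟨w1, hw1⟩ : ∃ w1 : ℝ, w1 = θ / (28 * A * Real.log (R / θ)) := ⟨_, rfl⟩
  obtain ⟨hQ4, hw0, hw2, hi1, hi2⟩ := inv_exp (A := 28 * A) (by linarith) hθ0 hθ1 hR3 hw1
  have hzf : ∀ ρ : ℂ, χ.LFunction ρ = 0 → |ρ.im - t| ≤ θ → ρ.re ≤ 1 - 4 * w1 := by
    intro ρ hρ hρt
    rcases le_or_gt (1 - θ / 2) ρ.re with hc | hc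
    · have h1 := zfree hA hK0 hK hAK D1 D2 hρ hρt hc
      have h2 : θ / (7 * A * Real.log (R / θ)) = 4 * w1 := by
        rw [hw1]
        field_simp
        norm_num
      linarith
    · have h3 : 4 * w1 ≤ θ / 2 := by
        have : w1 ≤ θ / 8 := by
          rw [hw1]
          exact div_le_div_of_nonneg_left hθ0.le (by norm_num) (by nlinarith)
        linarith
      linarith
  have hσw : |σ - 1| ≤ w1 := by
    refine hσ.trans ?_
    rw [hw1]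
    apply div_le_div_of_nonneg_left hθ0.le (by positivity)
    have h1 : 28 * A ≤ 700 * A * M := by nlinarith
    have h2 : 0 < Real.log (R / θ) := by linarith
    exact mul_le_mul_of_nonneg_right h1 h2.le
  rw [abs_le] at hσw
  have hl := D1.loc (A := 28 * A) (η := w1) (τ := t) (by linarith) hw1 (by
    rw [sub_self, abs_zero]
    linarith)
  rw [← hM] at hl
  obtain ⟨-, -, hl3⟩ := hl
  generalize hQ : Real.log (R / θ) = Q at *
  have hQ0 : 0 < Q := by linarith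
  obtain ⟨h1, h2⟩ := hl3 ⟨σ, t⟩ (by
    rw [mem_closedBall, dist_eq_norm]
    have e : (⟨σ, t⟩ : ℂ) - ⟨1 + w1, t⟩ = ((σ - (1 + w1) : ℝ) : ℂ) := by
      apply Complex.ext <;> simp
    rw [e, Complex.norm_real, Real.norm_eq_abs, abs_le]
    constructor <;> linarith [hσw.1, hσw.2]) (3 * w1) (by linarith) (by
    intro ρ hρ hρ0
    rw [mem_closedBall, dist_eq_norm] at hρ
    have h2 := (abs_im_le_norm (ρ - ⟨1 + w1, t⟩)).trans hρ
    rw [sub_im] at h2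
    have h3 := hzf ρ hρ0 h2
    have h4 := (le_abs_self _).trans (abs_re_le_norm ((⟨σ, t⟩ : ℂ) - ρ))
    rw [sub_re] at h4
    have h5 : (⟨σ, t⟩ : ℂ).re = σ := rfl
    rw [h5] at h4
    linarith [hσw.1])
  refine ⟨h1, h2.trans ?_⟩
  have e1 : M * Q * (3 / 2) / (3 * w1) ≤ M * Q / w1 := by
    have : M * Q * (3 / 2) / (3 * w1) = 1 / 2 * (M * Q / w1) := by
      field_simp
      try norm_num
    rw [this]
    have : 0 < M * Q / w1 := by positivity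
    linarith
  have e2 : 24 * M * Q / θ ≤ 24 * M * Q / w1 :=
    div_le_div_of_nonneg_left (by positivity) hw0 (by linarith)
  have e3 : 700 * A * M * Q ^ 2 / θ = M * Q / w1 + 24 * M * Q / w1 := by
    rw [hw1]
    field_simp
    ring
  rw [e3]
  exact add_le_add e1 e2

end Pool.Agent.T9h57.PK
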