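import Pool.Agent.T9h57.PK.Sums
import Pool.Agent.T9h57.PK.Zf
import Pool.Agent.H378R2.M1

/-!
# Growth of `L(s, χ)` near the line `Re s = 1` for moduli with small radical
-/

set_option autoImplicit false

namespace Pool.Agent.T9h57.PK

open Finset Filter Topology MeasureTheory Set

/-- the conclusion of `sumsP` -/
def SumsAt (m : ℕ) (y : ℝ) : Prop := ∀ (d : ℕ) [NeZero d],
    Real.log d ≤ y ^ (2 * m) → Real.log (rad d) ≤ y ^ m →
    ∀ χ : DirichletCharacter ℂ d, χ.IsPrimitive → χ ≠ 1 → ∀ u : ℕ, y ^ (2 * m - 1) ≤ Real.log u →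
    ‖∑ n ∈ Finset.Ioc 0 u, χ (n : ZMod d)‖ ≤ (u : ℝ) ^ (1 - 1 / y ^ 3)

/-- the head of the series -/
lemma head_le {w W : ℝ} (hw : 0 ≤ w) {N : ℕ} (hN : 1 ≤ N) (hW : w * Real.log N ≤ W) (a : ℕ → ℂ)
    (ha : ∀ n, ‖a n‖ ≤ 1) {s : ℂ} (hs : 1 - w ≤ s.re) :
    ‖∑ n ∈ Finset.Icc 1 N, a n * (n : ℂ) ^ (-s)‖ ≤ Real.exp W * (1 + Real.log N) := by
  have hNr : (1 : ℝ) ≤ N := by exact_mod_cast hN
  refine (norm_sum_le _ _).trans ?_
  have h1 : ∀ n ∈ Finset.Icc 1 N, ‖a n * (n : ℂ) ^ (-s)‖ ≤ Real.exp W * (n : ℝ)⁻¹ := by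
    intro n hn
    rw [Finset.mem_Icc] at hn
    have hn0 : (0 : ℝ) < n := by exact_mod_cast hn.1
    have hn1 : (1 : ℝ) ≤ n := by exact_mod_cast hn.1
    rw [norm_mul, Complex.norm_natCast_cpow_of_pos hn.1, Complex.neg_re]
    have h2 : (n : ℝ) ^ (-s.re) ≤ Real.exp W * (n : ℝ)⁻¹ := by
      have e : (n : ℝ)⁻¹ = (n : ℝ) ^ (-1 : ℝ) := (Real.rpow_neg_one _).symm
      rw [e, Real.rpow_def_of_pos hn0, Real.rpow_def_of_pos hn0, ← Real.exp_add]
      apply Real.exp_le_exp.2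
      have h3 : 0 ≤ Real.log n := Real.log_nonneg hn1
      have h4 : Real.log n ≤ Real.log N := Real.log_le_log hn0 (by exact_mod_cast hn.2)
      have h5 : w * Real.log n ≤ w * Real.log N := by gcongr
      nlinarith
    calc ‖a n‖ * (n : ℝ) ^ (-s.re) ≤ 1 * (Real.exp W * (n : ℝ)⁻¹) := by
          gcongr
          exact ha n
      _ = _ := one_mul _
  refine (sum_le_sum h1).trans ?_
  rw [← mul_sum]
  apply mul_le_mul_of_nonneg_left _ (Real.exp_pos _).le
  have h2 := harmonic_le_one_add_log N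
  have h3 : ((harmonic N : ℚ) : ℝ) = ∑ n ∈ Finset.Icc 1 N, (n : ℝ)⁻¹ := by
    rw [harmonic_eq_sum_Icc]
    push_cast
    rfl
  rw [← h3]
  exact h2

/-- the tail -/
lemma tail_le' {N : ℕ} (hN : 1 ≤ N) {η : ℝ} (E : ℝ → ℂ) (hE : ∀ t : ℝ, (N : ℝ) < t → ‖E t‖ ≤ 2 * t ^ (1 - η))
    {s : ℂ} (hs : 1 - η / 2 ≤ s.re) (hη : 0 < η) :
    ‖Pool.Agent.H307R2.TM N E s‖ ≤ 4 / η := by
  have hN0 : (0 : ℝ) < N := by exact_mod_cast hN
  have hN1 : (1 : ℝ) ≤ N := by exact_mod_cast hN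
  have hneg : -s.re - η < -1 := by linarith
  have h1 : ∫ t in Set.Ioi (N : ℝ), 2 * t ^ (-s.re - η) = 2 * ((N : ℝ) ^ (1 - s.re - η) / (s.re + η - 1)) := by
    rw [integral_const_mul, integral_Ioi_rpow_of_lt hneg hN0]
    have e : -s.re - η + 1 = 1 - s.re - η := by ring
    rw [e]
    have e2 : s.re + η - 1 = -(1 - s.re - η) := by ring
    rw [e2, neg_div, ← div_neg]
  have h2 : ‖Pool.Agent.H307R2.TM N E s‖ ≤ 2 * ((N : ℝ) ^ (1 - s.re - η) / (s.re + η - 1)) := by
    rw [← h1]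
    unfold Pool.Agent.H307R2.TM
    refine norm_integral_le_of_norm_le
      ((integrableOn_Ioi_rpow_of_lt hneg hN0).const_mul 2) ?_
    refine (ae_restrict_mem measurableSet_Ioi).mono fun t ht => ?_
    have ht' : (N : ℝ) < t := ht
    have ht0 : 0 < t := by linarith
    rw [norm_mul, Complex.norm_cpow_eq_rpow_re_of_pos ht0]
    have h2 : (-(s + 1)).re = -s.re - 1 := by simp; ring
    rw [h2]
    have h3 : 0 ≤ t ^ (-s.re - 1) := (Real.rpow_pos_of_pos ht0 _).le
    calc ‖E t‖ * t ^ (-s.re - 1) ≤ 2 * t ^ (1 - η) * t ^ (-s.re - 1) :=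
          mul_le_mul_of_nonneg_right (hE t ht') h3
      _ = 2 * t ^ (-s.re - η) := by
          rw [mul_assoc, ← Real.rpow_add ht0]
          congr 2
          ring
  refine h2.trans ?_
  have h3 : (N : ℝ) ^ (1 - s.re - η) ≤ 1 := Real.rpow_le_one_of_one_le_of_nonpos hN1 (by linarith)
  have h4 : η / 2 ≤ s.re + η - 1 := by linarith
  have h5 : (N : ℝ) ^ (1 - s.re - η) / (s.re + η - 1) ≤ 1 / (η / 2) :=
    div_le_div₀ zero_le_one h3 (by positivity) h4
  calc 2 * ((N : ℝ) ^ (1 - s.re - η) / (s.re + η - 1)) ≤ 2 * (1 / (η / 2)) := by linarith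
    _ = 4 / η := by
        field_simp
        norm_num

/-- primitive characters -/
lemma growP {m : ℕ} (hm : 3 ≤ m) {y : ℝ} (hy : 8 ≤ y) (hS : SumsAt m y) (d : ℕ) [NeZero d]
    (hd : Real.log d ≤ y ^ (2 * m)) (hR : Real.log (rad d) ≤ y ^ m)
    (χ : DirichletCharacter ℂ d) (hχ : χ.IsPrimitive) (hχ1 : χ ≠ 1) {s : ℂ}
    (hs : 1 - 1 / y ^ (2 * m - 1) ≤ s.re) :
    ‖χ.LFunction s‖ ≤ 16 * y ^ (2 * m - 1) * (1 + ‖s‖) := by
  have hy1 : 1 ≤ y := by linarith
  have hy0 : 0 < y := by linarith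
  obtain ⟨V, hV⟩ : ∃ V : ℝ, V = y ^ (2 * m - 1) := ⟨_, rfl⟩
  have hV8 : 8 ≤ V := by
    rw [hV]
    exact hy.trans (le_self_pow₀ hy1 (by omega))
  have hyV : 8 * y ^ 3 ≤ V := by
    rw [hV]
    calc 8 * y ^ 3 ≤ y * y ^ 3 := by gcongr
      _ = y ^ 4 := by ring
      _ ≤ _ := pow_le_pow_right₀ hy1 (by omega)
  have hS' := hS d hd hR χ hχ hχ1
  rw [← hV] at hs hS' ⊢
  have hV0 : 0 < V := by linarith
  obtain ⟨N, hN⟩ : ∃ N : ℕ, N = ⌈Real.exp V⌉₊ := ⟨_, rfl⟩
  have hNe : Real.exp V ≤ N := by rw [hN]; exact Nat.le_ceil _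
  have hexp1 : 1 ≤ Real.exp V := Real.one_le_exp hV0.le
  have hN1r : (1 : ℝ) ≤ N := hexp1.trans hNe
  have hN1 : 1 ≤ N := by exact_mod_cast hN1r
  have hN2 : (N : ℝ) ≤ Real.exp (V + 1) := by
    have h1 := (Nat.ceil_lt_add_one (Real.exp_pos V).le).le
    rw [← hN] at h1
    rw [Real.exp_add]
    have h2 := Real.add_one_le_exp (1 : ℝ)
    nlinarith
  have hlogN : Real.log N ≤ V + 1 := by
    rw [Real.log_le_iff_le_exp (by linarith)]
    exact hN2
  have hVlogN : V ≤ Real.log N := by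
    rw [Real.le_log_iff_exp_le (by linarith)]
    exact hNe
  have hw : 0 < 1 / V := by positivity
  have hre0 : 0 < s.re := by
    have : 1 / V ≤ 1 / 8 := one_div_le_one_div_of_le (by norm_num) hV8
    linarith
  rw [Pool.Agent.H307R2.LFunction_eq hχ1 hN1 hre0]
  have h1 := head_le (w := 1 / V) (W := 2) hw.le hN1 (by
    calc 1 / V * Real.log N ≤ 1 / V * (V + 1) := by gcongr
      _ = 1 + 1 / V := by field_simp
      _ ≤ 2 := by
        have : 1 / V ≤ 1 / 8 := one_div_le_one_div_of_le (by norm_num) hV8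
        linarith) (fun n => χ (n : ZMod d)) (fun n => χ.norm_le_one _) hs
  have h2 := tail_le' hN1 (η := 1 / y ^ 3) (Pool.Agent.H307R2.Ech χ N) (by
    intro t ht
    unfold Pool.Agent.H307R2.Ech
    have hfl : N ≤ ⌊t⌋₊ := Nat.le_floor ht.le
    have ht0 : 0 < t := by linarith
    have e : ∑ k ∈ Finset.Ioc N ⌊t⌋₊, χ (k : ZMod d) =
        ∑ k ∈ Finset.Ioc 0 ⌊t⌋₊, χ (k : ZMod d) - ∑ k ∈ Finset.Ioc 0 N, χ (k : ZMod d) := by
      rw [← Finset.sum_Ioc_consecutive (fun k => χ (k : ZMod d)) (Nat.zero_le N) hfl]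
      ring
    rw [e]
    have hp : 0 ≤ 1 - 1 / y ^ 3 := by
      have h3 : 1 ≤ y ^ 3 := one_le_pow₀ hy1
      have h4 : 1 / y ^ 3 ≤ 1 := by
        rw [div_le_one (by positivity)]
        exact h3
      linarith
    have b1 := hS' ⌊t⌋₊ (by
      refine hVlogN.trans (Real.log_le_log (by linarith) ?_)
      exact_mod_cast hfl)
    have b2 := hS' N hVlogN
    have b3 : ((⌊t⌋₊ : ℕ) : ℝ) ^ (1 - 1 / y ^ 3) ≤ t ^ (1 - 1 / y ^ 3) :=
      Real.rpow_le_rpow (Nat.cast_nonneg _) (Nat.floor_le ht0.le) hp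
    have b4 : (N : ℝ) ^ (1 - 1 / y ^ 3) ≤ t ^ (1 - 1 / y ^ 3) :=
      Real.rpow_le_rpow (Nat.cast_nonneg _) ht.le hp
    refine (norm_sub_le _ _).trans ?_
    linarith) (s := s) (by
      have h3 : 1 / V ≤ 1 / y ^ 3 / 2 := by
        rw [div_div]
        exact one_div_le_one_div_of_le (by positivity) (by nlinarith [pow_pos hy0 3])
      linarith) (by positivity)
  have h3 : 4 / (1 / y ^ 3) = 4 * y ^ 3 := by field_simp
  rw [h3] at h2
  have h4 : Real.exp 2 ≤ 8 := by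
    have e1 := Real.exp_one_lt_d9
    have e2 : Real.exp 2 = Real.exp 1 * Real.exp 1 := by
      rw [← Real.exp_add]
      norm_num
    rw [e2]
    nlinarith [Real.exp_pos 1]
  have h5 : 1 + Real.log N ≤ 2 * V := by linarith
  have h6 : 0 ≤ 1 + Real.log N := by linarith
  refine (norm_add_le _ _).trans ?_
  rw [norm_mul]
  have h7 : Real.exp 2 * (1 + Real.log N) ≤ 8 * (2 * V) := by gcongr
  have h8 : ‖s‖ * ‖Pool.Agent.H307R2.TM N (Pool.Agent.H307R2.Ech χ N) s‖ ≤ ‖s‖ * V := by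
    apply mul_le_mul_of_nonneg_left _ (norm_nonneg _)
    have : 0 < y ^ 3 := by positivity
    linarith
  have h9 : ‖s‖ * V ≤ 16 * V * ‖s‖ := by
    have : 0 ≤ ‖s‖ * V := by positivity
    linarith
  linarith

/-- all characters -/
theorem grow {m : ℕ} (hm : 3 ≤ m) {y : ℝ} (hy : 8 ≤ y) (hS : SumsAt m y) (d : ℕ) [NeZero d]
    (hd : Real.log d ≤ y ^ (2 * m)) (hR : Real.log (rad d) ≤ y ^ m)
    (χ : DirichletCharacter ℂ d) (hχ1 : χ ≠ 1) {s : ℂ}
    (hs : 1 - 1 / y ^ (2 * m - 1) ≤ s.re) :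
    ‖χ.LFunction s‖ ≤ y ^ (5 * m + 2) * (1 + ‖s‖) := by
  have hy1 : 1 ≤ y := by linarith
  have hy0 : 0 < y := by linarith
  have hd0 : 0 < d := NeZero.pos d
  haveI : NeZero χ.conductor := ⟨fun h => (NeZero.ne d) (by
    have := χ.conductor_dvd_level
    rw [h, zero_dvd_iff] at this
    exact this)⟩
  have hψ1 : χ.primitiveCharacter ≠ 1 := by
    intro h
    apply hχ1
    rw [← χ.changeLevel_primitiveCharacter, h]
    exact DirichletCharacter.changeLevel_one _
  have hf0 : 0 < χ.conductor := NeZero.pos _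
  have hfd := χ.conductor_dvd_level
  have hP := growP hm hy hS χ.conductor (by
    refine le_trans (Real.log_le_log (by exact_mod_cast hf0) ?_) hd
    exact_mod_cast Nat.le_of_dvd hd0 hfd) (by
    refine le_trans (Real.log_le_log (by exact_mod_cast rad_pos _) ?_) hR
    have h1 : rad χ.conductor ∣ rad d := by
      unfold rad
      exact prod_dvd_prod_of_subset _ _ _ (Nat.primeFactors_mono hfd (NeZero.ne d))
    exact_mod_cast Nat.le_of_dvd (rad_pos _) h1) χ.primitiveCharacter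
    χ.primitiveCharacter_isPrimitive hψ1 hs
  have hL : χ.LFunction s = χ.primitiveCharacter.LFunction s *
      ∏ p ∈ d.primeFactors, (1 - χ.primitiveCharacter p * (p : ℂ) ^ (-s)) := by
    conv_lhs => rw [← χ.changeLevel_primitiveCharacter]
    exact DirichletCharacter.LFunction_changeLevel hfd _ (Or.inl hψ1)
  rw [hL, norm_mul]
  obtain ⟨V, hV⟩ : ∃ V : ℝ, V = y ^ (2 * m - 1) := ⟨_, rfl⟩
  have hV0 : 0 < V := by rw [hV]; positivity
  have hVm : y ^ m ≤ V := by
    rw [hV]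
    exact pow_le_pow_right₀ hy1 (by omega)
  rw [← hV] at hs hP
  have hprod : ‖∏ p ∈ d.primeFactors, (1 - χ.primitiveCharacter p * (p : ℂ) ^ (-s))‖ ≤
      ((d.primeFactors.card : ℝ) + 1) ^ 3 := by
    rw [norm_prod]
    have h1 : ∀ p ∈ d.primeFactors, ‖1 - χ.primitiveCharacter p * (p : ℂ) ^ (-s)‖ ≤ (1 + 1 / (p : ℝ)) ^ 3 := by
      intro p hp
      have hpp := Nat.prime_of_mem_primeFactors hp
      have hp0 : (0 : ℝ) < p := by exact_mod_cast hpp.pos
      have hp1 : (1 : ℝ) ≤ p := by exact_mod_cast hpp.one_le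
      have h2 : ‖(p : ℂ) ^ (-s)‖ ≤ 3 / p := by
        rw [Complex.norm_natCast_cpow_of_pos hpp.pos, Complex.neg_re]
        have hlp : Real.log p ≤ y ^ m := by
          refine le_trans (Real.log_le_log hp0 ?_) hR
          have h3 : p ∣ rad d := by
            unfold rad
            exact dvd_prod_of_mem _ hp
          exact_mod_cast Nat.le_of_dvd (rad_pos _) h3
        have hlp0 : 0 ≤ Real.log p := Real.log_nonneg hp1
        have h4 : (p : ℝ) ^ (-s.re) ≤ Real.exp 1 / p := by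
          have e : Real.exp 1 / p = Real.exp (1 - Real.log p) := by
            rw [Real.exp_sub, Real.exp_log hp0]
          rw [e, Real.rpow_def_of_pos hp0]
          apply Real.exp_le_exp.2
          have h5 : 1 / V * Real.log p ≤ 1 := by
            rw [one_div, inv_mul_le_one₀ hV0]
            linarith
          nlinarith
        refine h4.trans ?_
        have := Real.exp_one_lt_d9
        gcongr
        linarith
      have h3 : ‖1 - χ.primitiveCharacter p * (p : ℂ) ^ (-s)‖ ≤ 1 + 3 / p := by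
        refine (norm_sub_le _ _).trans ?_
        rw [norm_one, norm_mul]
        have h4 := χ.primitiveCharacter.norm_le_one (p : ZMod χ.conductor)
        have h5 : ‖χ.primitiveCharacter (p : ZMod χ.conductor)‖ * ‖(p : ℂ) ^ (-s)‖ ≤ 1 * (3 / p) := by gcongr
        linarith
      refine h3.trans ?_
      have h4 : 0 < 1 / (p : ℝ) := by positivity
      have h5 : (3 : ℝ) / p = 3 * (1 / p) := by ring
      rw [h5]
      nlinarith [pow_pos h4 2, pow_pos h4 3]
    refine (prod_le_prod (fun p _ => norm_nonneg _) h1).trans ?_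
    rw [Finset.prod_pow]
    apply pow_le_pow_left₀ (prod_nonneg fun p _ => by positivity)
    exact Pool.Agent.H378R2.M1.prod_upper _ fun p hp => (Nat.prime_of_mem_primeFactors hp).two_le
  have hcard : (d.primeFactors.card : ℝ) + 1 ≤ 2 * y ^ m + 1 := by
    have h1 : (2 : ℝ) ^ d.primeFactors.card ≤ rad d := by
      have h2 : 2 ^ d.primeFactors.card ≤ rad d := by
        unfold rad
        exact Finset.pow_card_le_prod _ _ _ fun p hp => (Nat.prime_of_mem_primeFactors hp).two_le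
      exact_mod_cast h2
    have h2 := Real.log_le_log (by positivity) h1
    rw [Real.log_pow] at h2
    have h3 := Real.log_two_gt_d9
    have h4 : (0 : ℝ) ≤ d.primeFactors.card := Nat.cast_nonneg _
    nlinarith
  have hym : 1 ≤ y ^ m := one_le_pow₀ hy1
  have h3 : ((d.primeFactors.card : ℝ) + 1) ^ 3 ≤ 27 * y ^ (3 * m) := by
    calc ((d.primeFactors.card : ℝ) + 1) ^ 3 ≤ (3 * y ^ m) ^ 3 := by
          gcongr
          linarith
      _ = 27 * y ^ (3 * m) := by
          rw [mul_pow, ← pow_mul, mul_comm m 3]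
          norm_num
  calc ‖χ.primitiveCharacter.LFunction s‖ *
        ‖∏ p ∈ d.primeFactors, (1 - χ.primitiveCharacter p * (p : ℂ) ^ (-s))‖
      ≤ (16 * V * (1 + ‖s‖)) * (27 * y ^ (3 * m)) := by
        gcongr
        exact hprod.trans h3
    _ = 432 * (V * y ^ (3 * m)) * (1 + ‖s‖) := by ring
    _ ≤ y ^ (5 * m + 2) * (1 + ‖s‖) := by
        gcongr
        have e : V * y ^ (3 * m) = y ^ (5 * m - 1) := by
          rw [hV, ← pow_add]
          congr 1
          omega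
        have e2 : y ^ (5 * m + 2) = y ^ 3 * y ^ (5 * m - 1) := by
          rw [← pow_add]
          congr 1
          omega
        rw [e, e2]
        have h5 : (432 : ℝ) ≤ y ^ 3 := by
          have : (8 : ℝ) ^ 3 ≤ y ^ 3 := by gcongr
          linarith
        gcongr

end Pool.Agent.T9h57.PK
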