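import Pool.Agent.Y732.Log2

/-!
# Powers of `1 + p ^ s` and the `p`-adic logarithm
-/

set_option autoImplicit false

namespace Pool.Agent.T9h57.PK

open Pool.Agent.Y732 Finset

variable {p : ℕ} [hp : Fact p.Prime]

lemma aux_four (n : ℕ) (hn : 1 ≤ n) : 2 * (n + 1) ≤ 4 ^ n := by
  induction n, hn using Nat.le_induction with
  | base => norm_num
  | succ n hn ih =>
    rw [pow_succ]
    omega

lemma two_le_p : (2 : ℝ) ≤ p := by exact_mod_cast hp.out.two_le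

lemma inv_sq_le : ((p : ℝ)⁻¹) ^ 2 ≤ (p : ℝ)⁻¹ := by
  have h := two_le_p (p := p)
  have h1 : (p : ℝ)⁻¹ ≤ 1 := inv_le_one_of_one_le₀ (by linarith)
  have h2 : (0 : ℝ) ≤ (p : ℝ)⁻¹ := by positivity
  nlinarith

/-- a term of the logarithm -/
lemma term_le {w : ℚ_[p]} {R : ℝ} (hw : ‖w‖ ≤ R) (n : ℕ) :
    ‖(-1 : ℚ_[p]) ^ n * w ^ (n + 1) / ((n : ℚ_[p]) + 1)‖ ≤ ‖w‖ * ((n + 1 : ℕ) * R ^ n) := by
  have h4 : (n : ℚ_[p]) + 1 = ((n + 1 : ℕ) : ℚ_[p]) := by push_cast; ring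
  rw [h4, norm_div, norm_mul, norm_pow, norm_neg, norm_one, one_pow, one_mul, norm_pow]
  have h5 := one_le_norm_natCast (p := p) (n + 1) (by omega)
  have hpos : 0 < ‖((n + 1 : ℕ) : ℚ_[p])‖ := by
    rw [norm_pos_iff]
    exact_mod_cast (by omega : n + 1 ≠ 0)
  have hR : 0 ≤ R := (norm_nonneg _).trans hw
  rw [div_le_iff₀ hpos, pow_succ]
  have h6 : ‖w‖ ^ n ≤ R ^ n := pow_le_pow_left₀ (norm_nonneg _) hw n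
  have h7 : ‖w‖ ^ n * ‖w‖ ≤ R ^ n * ‖w‖ := mul_le_mul_of_nonneg_right h6 (norm_nonneg _)
  calc ‖w‖ ^ n * ‖w‖ ≤ R ^ n * ‖w‖ := h7
    _ = (R ^ n * ‖w‖) * 1 := (mul_one _).symm
    _ ≤ (R ^ n * ‖w‖) * (‖((n + 1 : ℕ) : ℚ_[p])‖ * ((n + 1 : ℕ) : ℝ)) :=
        mul_le_mul_of_nonneg_left h5 (by positivity)
    _ = _ := by ring

lemma lg_sub_le4 {w : ℚ_[p]} (hw : ‖w‖ ≤ ((p : ℝ)⁻¹) ^ 2) : ‖lg w - w‖ ≤ 1 / 2 * ‖w‖ := by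
  have hp2 := two_le_p (p := p)
  unfold lg
  rw [(summable_lg (hw.trans inv_sq_le)).tsum_eq_zero_add]
  have h3 : (-1 : ℚ_[p]) ^ 0 * w ^ (0 + 1) / (((0 : ℕ) : ℚ_[p]) + 1) = w := by simp
  rw [h3, add_sub_cancel_left]
  apply IsUltrametricDist.norm_tsum_le_of_forall_le_of_nonneg (by positivity)
  intro n
  refine (term_le hw (n + 1)).trans ?_
  have h4 : ((p : ℝ)⁻¹) ^ 2 ≤ (4 : ℝ)⁻¹ := by
    have h5 : (p : ℝ)⁻¹ ≤ (2 : ℝ)⁻¹ := inv_anti₀ (by norm_num) hp2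
    calc ((p : ℝ)⁻¹) ^ 2 ≤ ((2 : ℝ)⁻¹) ^ 2 := pow_le_pow_left₀ (by positivity) h5 2
      _ = (4 : ℝ)⁻¹ := by norm_num
  have h5 : (((p : ℝ)⁻¹) ^ 2) ^ (n + 1) ≤ ((4 : ℝ)⁻¹) ^ (n + 1) :=
    pow_le_pow_left₀ (by positivity) h4 _
  have h6 := aux_four (n + 1) (by omega)
  have h7 : (2 : ℝ) * ((n + 1 + 1 : ℕ) : ℝ) ≤ 4 ^ (n + 1) := by exact_mod_cast h6
  have h8 : (0 : ℝ) < 4 ^ (n + 1) := by positivity
  have h9 : (((n + 1 + 1 : ℕ) : ℝ)) * (((p : ℝ)⁻¹) ^ 2) ^ (n + 1) ≤ 1 / 2 := by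
    calc (((n + 1 + 1 : ℕ) : ℝ)) * (((p : ℝ)⁻¹) ^ 2) ^ (n + 1)
        ≤ (((n + 1 + 1 : ℕ) : ℝ)) * ((4 : ℝ)⁻¹) ^ (n + 1) :=
          mul_le_mul_of_nonneg_left h5 (by positivity)
      _ = (((n + 1 + 1 : ℕ) : ℝ)) / 4 ^ (n + 1) := by rw [inv_pow]; rfl
      _ ≤ 1 / 2 := by
          rw [div_le_div_iff₀ h8 (by norm_num)]
          linarith
  calc ‖w‖ * ((((n + 1 + 1 : ℕ) : ℝ)) * (((p : ℝ)⁻¹) ^ 2) ^ (n + 1)) ≤ ‖w‖ * (1 / 2) :=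
        mul_le_mul_of_nonneg_left h9 (norm_nonneg _)
    _ = _ := by ring

/-- `|log (1 + w)| = |w|` -/
lemma norm_lg4 {w : ℚ_[p]} (hw : ‖w‖ ≤ ((p : ℝ)⁻¹) ^ 2) : ‖lg w‖ = ‖w‖ := by
  rcases eq_or_ne w 0 with rfl | h0
  · rw [lg_zero]
  · have h1 := lg_sub_le4 hw
    have h2 : 0 < ‖w‖ := norm_pos_iff.2 h0
    have h3 : ‖lg w - w‖ < ‖w‖ := by linarith
    have h4 := IsUltrametricDist.norm_add_eq_max_of_norm_ne_norm h3.ne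
    rw [sub_add_cancel, max_eq_right h3.le] at h4
    exact h4

/-- the norm of `p ^ s z` -/
lemma norm_ps (s : ℕ) (z : ℤ) : ‖((p : ℚ_[p]) ^ s * (z : ℚ_[p]))‖ ≤ ((p : ℝ)⁻¹) ^ s := by
  rw [norm_mul, norm_pow, Padic.norm_p]
  have h := Padic.norm_int_le_one (p := p) z
  have h1 : (0 : ℝ) ≤ ((p : ℝ)⁻¹) ^ s := by positivity
  nlinarith

lemma pow_inv_le {s : ℕ} (hs : 2 ≤ s) : ((p : ℝ)⁻¹) ^ s ≤ ((p : ℝ)⁻¹) ^ 2 := by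
  have h := two_le_p (p := p)
  exact pow_le_pow_of_le_one (by positivity) (inv_le_one_of_one_le₀ (by linarith)) hs

/-- the truncated logarithm -/
lemma tail_le {s a k : ℕ} (hs : 2 ≤ s) (hk : a + k ≤ s * k) (z : ℤ) :
    ‖lg ((p : ℚ_[p]) ^ s * (z : ℚ_[p])) - ∑ j ∈ range (k - 1),
      (-1 : ℚ_[p]) ^ j * ((p : ℚ_[p]) ^ s * (z : ℚ_[p])) ^ (j + 1) / ((j : ℚ_[p]) + 1)‖ ≤ ((p : ℝ)⁻¹) ^ a := by
  have hp2 := two_le_p (p := p)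
  have hw1 := norm_ps (p := p) s z
  have hw : ‖((p : ℚ_[p]) ^ s * (z : ℚ_[p]))‖ ≤ (p : ℝ)⁻¹ := (hw1.trans (pow_inv_le hs)).trans inv_sq_le
  unfold lg
  rw [← (summable_lg hw).sum_add_tsum_nat_add (k - 1), add_sub_cancel_left]
  apply IsUltrametricDist.norm_tsum_le_of_forall_le_of_nonneg (by positivity)
  intro n
  refine (term_le hw1 (n + (k - 1))).trans ?_
  obtain ⟨j, hj⟩ : ∃ j, j = n + (k - 1) + 1 := ⟨_, rfl⟩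
  have hjk : k ≤ j := by omega
  have hj1 : n + (k - 1) = j - 1 := by omega
  rw [hj1]
  have e0 : ((j - 1 + 1 : ℕ) : ℝ) = j := by
    congr 1; omega
  rw [e0]
  have hR0 : (0 : ℝ) ≤ (((p : ℝ)⁻¹) ^ s) ^ (j - 1) := by positivity
  have h1 : ‖((p : ℚ_[p]) ^ s * (z : ℚ_[p]))‖ * ((j : ℝ) * (((p : ℝ)⁻¹) ^ s) ^ (j - 1)) ≤
      (j : ℝ) * (((p : ℝ)⁻¹) ^ s) ^ j := by
    calc ‖((p : ℚ_[p]) ^ s * (z : ℚ_[p]))‖ * ((j : ℝ) * (((p : ℝ)⁻¹) ^ s) ^ (j - 1))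
        ≤ ((p : ℝ)⁻¹) ^ s * ((j : ℝ) * (((p : ℝ)⁻¹) ^ s) ^ (j - 1)) :=
          mul_le_mul_of_nonneg_right hw1 (by positivity)
      _ = (j : ℝ) * ((((p : ℝ)⁻¹) ^ s) ^ (j - 1) * ((p : ℝ)⁻¹) ^ s) := by ring
      _ = (j : ℝ) * (((p : ℝ)⁻¹) ^ s) ^ j := by
          rw [← pow_succ, show j - 1 + 1 = j by omega]
  refine h1.trans ?_
  have h2 : (j : ℝ) ≤ (p : ℝ) ^ j := by
    have h3 : (j : ℝ) < 2 ^ j := by exact_mod_cast Nat.lt_two_pow_self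
    exact h3.le.trans (pow_le_pow_left₀ (by norm_num) hp2 j)
  have h4 : a + j ≤ s * j := by
    obtain ⟨i, rfl⟩ : ∃ i, j = k + i := ⟨j - k, by omega⟩
    have : s * (k + i) = s * k + s * i := by ring
    have h5 : 2 * i ≤ s * i := Nat.mul_le_mul_right _ hs
    omega
  have hpp : (0 : ℝ) < p := by linarith
  have hinv1 : (p : ℝ)⁻¹ ≤ 1 := inv_le_one_of_one_le₀ (by linarith)
  calc (j : ℝ) * (((p : ℝ)⁻¹) ^ s) ^ j ≤ (p : ℝ) ^ j * (((p : ℝ)⁻¹) ^ s) ^ j :=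
        mul_le_mul_of_nonneg_right h2 (by positivity)
    _ = (p : ℝ) ^ j * ((p : ℝ)⁻¹) ^ (s * j) := by rw [← pow_mul]
    _ ≤ (p : ℝ) ^ j * ((p : ℝ)⁻¹) ^ (a + j) := by
        apply mul_le_mul_of_nonneg_left _ (by positivity)
        exact pow_le_pow_of_le_one (by positivity) hinv1 h4
    _ = ((p : ℝ)⁻¹) ^ a := by
        rw [pow_add, mul_comm (((p : ℝ)⁻¹) ^ a), ← mul_assoc, ← mul_pow, mul_inv_cancel₀ hpp.ne', one_pow, one_mul]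

/-- approximation of a `p`-adic integer by a natural number -/
lemma exists_nat {x : ℚ_[p]} (hx : ‖x‖ ≤ 1) (e : ℕ) : ∃ n : ℕ, ‖x - (n : ℚ_[p])‖ ≤ ((p : ℝ)⁻¹) ^ e := by
  obtain ⟨x', rfl⟩ : ∃ x' : ℤ_[p], (x' : ℚ_[p]) = x := ⟨⟨x, hx⟩, rfl⟩
  refine ⟨x'.appr e, ?_⟩
  have h := (PadicInt.norm_le_pow_iff_mem_span_pow (x' - (x'.appr e : ℤ_[p])) e).mpr (x'.appr_spec e)
  have h2 : ‖((x' - (x'.appr e : ℤ_[p]) : ℤ_[p]) : ℚ_[p])‖ ≤ (p : ℝ) ^ (-(e : ℤ)) := h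
  push_cast at h2
  rw [zpow_neg, zpow_natCast, ← inv_pow] at h2
  exact h2

lemma int_dvd_of_norm {x : ℤ} {a : ℕ} (h : ‖(x : ℚ_[p])‖ ≤ ((p : ℝ)⁻¹) ^ a) : (p : ℤ) ^ a ∣ x := by
  rw [inv_pow, ← zpow_natCast, ← zpow_neg] at h
  exact_mod_cast (Padic.norm_int_le_pow_iff_dvd (p := p) x a).1 h

lemma norm_of_int_dvd {x : ℤ} {a : ℕ} (h : (p : ℤ) ^ a ∣ x) : ‖(x : ℚ_[p])‖ ≤ ((p : ℝ)⁻¹) ^ a := by
  rw [inv_pow, ← zpow_natCast, ← zpow_neg]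
  exact (Padic.norm_int_le_pow_iff_dvd (p := p) x a).2 (by exact_mod_cast h)

/-- every `1 + p ^ s z` is a power of `1 + p ^ s` modulo `p ^ a`, the exponent is given by the logarithm -/
theorem exists_pow {s a : ℕ} (hs : 2 ≤ s) (hsa : s ≤ a) (z : ℤ) : ∃ n : ℕ,
    (p : ℤ) ^ a ∣ (1 + (p : ℤ) ^ s) ^ n - (1 + (p : ℤ) ^ s * z) ∧
    ‖(n : ℚ_[p]) * lg ((p : ℚ_[p]) ^ s) - lg ((p : ℚ_[p]) ^ s * (z : ℚ_[p]))‖ ≤ ((p : ℝ)⁻¹) ^ a := by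
  have hp2 := two_le_p (p := p)
  have hpp : (0 : ℝ) < p := by linarith
  have hg1 : ‖(p : ℚ_[p]) ^ s‖ = ((p : ℝ)⁻¹) ^ s := by rw [norm_pow, Padic.norm_p]
  have hg2 : ‖(p : ℚ_[p]) ^ s‖ ≤ ((p : ℝ)⁻¹) ^ 2 := by rw [hg1]; exact pow_inv_le hs
  have hg3 : ‖lg ((p : ℚ_[p]) ^ s)‖ = ((p : ℝ)⁻¹) ^ s := by rw [norm_lg4 hg2, hg1]
  have hw1 := norm_ps (p := p) s z
  have hw2 := hw1.trans (pow_inv_le hs)
  have hw3 := norm_lg4 hw2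
  have hne : lg ((p : ℚ_[p]) ^ s) ≠ 0 := by
    rw [← norm_pos_iff, hg3]; positivity
  obtain ⟨x, hx⟩ : ∃ x, x = lg ((p : ℚ_[p]) ^ s * (z : ℚ_[p])) / lg ((p : ℚ_[p]) ^ s) := ⟨_, rfl⟩
  have hx1 : ‖x‖ ≤ 1 := by
    rw [hx, norm_div, hg3, hw3, div_le_one (by positivity)]
    exact hw1
  obtain ⟨n, hn⟩ := exists_nat hx1 (a - s)
  have hkey : ‖(n : ℚ_[p]) * lg ((p : ℚ_[p]) ^ s) - lg ((p : ℚ_[p]) ^ s * (z : ℚ_[p]))‖ ≤ ((p : ℝ)⁻¹) ^ a := by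
    have e1 : (n : ℚ_[p]) * lg ((p : ℚ_[p]) ^ s) - lg ((p : ℚ_[p]) ^ s * (z : ℚ_[p])) =
        ((n : ℚ_[p]) - x) * lg ((p : ℚ_[p]) ^ s) := by
      rw [sub_mul, hx, div_mul_cancel₀ _ hne]
    rw [e1, norm_mul, hg3, norm_sub_rev]
    calc ‖x - (n : ℚ_[p])‖ * ((p : ℝ)⁻¹) ^ s ≤ ((p : ℝ)⁻¹) ^ (a - s) * ((p : ℝ)⁻¹) ^ s :=
          mul_le_mul_of_nonneg_right hn (by positivity)
      _ = ((p : ℝ)⁻¹) ^ a := by rw [← pow_add, Nat.sub_add_cancel hsa]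
  refine ⟨n, ?_, hkey⟩
  -- the power
  obtain ⟨w, hw⟩ : ∃ w : ℚ_[p], w = (p : ℚ_[p]) ^ s * (z : ℚ_[p]) := ⟨_, rfl⟩
  obtain ⟨v, hv⟩ : ∃ v : ℚ_[p], v = (1 + (p : ℚ_[p]) ^ s) ^ n - 1 := ⟨_, rfl⟩
  rw [← hw] at hw1 hw2 hw3 hkey
  obtain ⟨-, hl2⟩ := lg_pow (hg2.trans inv_sq_le) n
  rw [← hv] at hl2
  have hvs : ‖v‖ ≤ ((p : ℝ)⁻¹) ^ s := by
    have h1 : (p : ℤ) ^ s ∣ (1 + (p : ℤ) ^ s) ^ n - 1 := by
      have := sub_one_dvd_pow_sub_one (1 + (p : ℤ) ^ s) n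
      rwa [add_sub_cancel_left] at this
    have h2 := norm_of_int_dvd (p := p) h1
    push_cast at h2
    rw [hv]
    exact h2
  have hv2 := hvs.trans (pow_inv_le (p := p) hs)
  have hw1' : ‖1 + w‖ = 1 := by
    have h1 : ‖w‖ < 1 := by
      refine lt_of_le_of_lt hw2 ?_
      have : (p : ℝ)⁻¹ < 1 := inv_lt_one_of_one_lt₀ (by linarith)
      exact pow_lt_one₀ (by positivity) this (by norm_num)
    have h2 := IsUltrametricDist.norm_add_eq_max_of_norm_ne_norm (x := (1 : ℚ_[p])) (y := w)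
      (by rw [norm_one]; exact h1.ne')
    rw [h2, norm_one, max_eq_left h1.le]
  have hw0 : 1 + w ≠ 0 := by
    rw [← norm_pos_iff, hw1']; norm_num
  obtain ⟨u, hu⟩ : ∃ u : ℚ_[p], u = (v - w) / (1 + w) := ⟨_, rfl⟩
  have hun : ‖u‖ = ‖v - w‖ := by rw [hu, norm_div, hw1', div_one]
  have hus : ‖u‖ ≤ ((p : ℝ)⁻¹) ^ 2 := by
    rw [hun]
    rw [sub_eq_add_neg]
    refine (IsUltrametricDist.norm_add_le_max _ _).trans (max_le hv2 ?_)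
    rw [norm_neg]
    exact hw2
  have hadd := lg_add (hw2.trans inv_sq_le) (hus.trans inv_sq_le)
  have e2 : w + u + w * u = v := by
    rw [hu]
    field_simp
    ring
  rw [e2, hl2] at hadd
  have h3 : ‖lg u‖ ≤ ((p : ℝ)⁻¹) ^ a := by
    have : lg u = (n : ℚ_[p]) * lg ((p : ℚ_[p]) ^ s) - lg w := by rw [hadd]; ring
    rw [this]
    exact hkey
  rw [norm_lg4 hus, hun] at h3
  apply int_dvd_of_norm (p := p)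
  push_cast
  have e3 : (1 + (p : ℚ_[p]) ^ s) ^ n - (1 + (p : ℚ_[p]) ^ s * (z : ℚ_[p])) = v - w := by
    rw [hv, hw]; ring
  rw [e3]
  exact h3

end Pool.Agent.T9h57.PK
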