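import Pool.Agent.T9h57.PK.PostP

/-!
# Postnikov's formula for characters to general moduli
-/

set_option autoImplicit false

namespace Pool.Agent.T9h57.PK

open Finset

/-- the character is not trivial on the classes `1` modulo `d / p`, for every prime `p` -/
def NT (d : ℕ) (χ : DirichletCharacter ℂ d) : Prop :=
  ∀ p : ℕ, p.Prime → p ∣ d → ∃ x : ℤ, ((d / p : ℕ) : ℤ) ∣ x - 1 ∧ χ (x : ZMod d) ≠ 1 ∧ χ (x : ZMod d) ≠ 0

/-- the exponent of `p` in the denominator -/
def eD (s : ℕ → ℕ) (d j p : ℕ) : ℕ := d.factorization p + j.factorization p - s p * j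

/-- the denominators -/
def Dj (s : ℕ → ℕ) (d j : ℕ) : ℕ := ∏ p ∈ d.primeFactors, p ^ eD s d j p

/-- the step -/
def Hh (s : ℕ → ℕ) (d : ℕ) : ℕ := ∏ p ∈ d.primeFactors, p ^ s p

lemma Dj_mul (s : ℕ → ℕ) {a b : ℕ} (h : Nat.Coprime a b) (j : ℕ) : Dj s (a * b) j = Dj s a j * Dj s b j := by
  unfold Dj
  rw [h.primeFactors_mul, prod_union h.disjoint_primeFactors]
  congr 1
  · refine prod_congr rfl fun p hp => ?_
    unfold eD
    rw [Nat.factorization_mul_apply_of_coprime h, Nat.factorization_eq_zero_of_not_dvd (n := b) (p := p), add_zero]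
    intro h1
    have h2 := Nat.dvd_of_mem_primeFactors hp
    have h3 := Nat.dvd_gcd h2 h1
    rw [h] at h3
    exact (Nat.prime_of_mem_primeFactors hp).one_lt.ne' (Nat.dvd_one.1 h3)
  · refine prod_congr rfl fun p hp => ?_
    unfold eD
    rw [Nat.factorization_mul_apply_of_coprime h, Nat.factorization_eq_zero_of_not_dvd (n := a) (p := p), zero_add]
    intro h1
    have h2 := Nat.dvd_of_mem_primeFactors hp
    have h3 := Nat.dvd_gcd h1 h2
    rw [h] at h3
    exact (Nat.prime_of_mem_primeFactors hp).one_lt.ne' (Nat.dvd_one.1 h3)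

lemma Hh_mul (s : ℕ → ℕ) {a b : ℕ} (h : Nat.Coprime a b) : Hh s (a * b) = Hh s a * Hh s b := by
  unfold Hh
  rw [h.primeFactors_mul, prod_union h.disjoint_primeFactors]

lemma Dj_pos (s : ℕ → ℕ) (d j : ℕ) : 0 < Dj s d j :=
  prod_pos fun _ hp => pow_pos (Nat.prime_of_mem_primeFactors hp).pos _

lemma Hh_pos (s : ℕ → ℕ) (d : ℕ) : 0 < Hh s d :=
  prod_pos fun _ hp => pow_pos (Nat.prime_of_mem_primeFactors hp).pos _

lemma coprime_of_supp {a b : ℕ} (h : Nat.Coprime a b) (f g : ℕ → ℕ) :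
    Nat.Coprime (∏ p ∈ a.primeFactors, p ^ f p) (∏ p ∈ b.primeFactors, p ^ g p) := by
  apply Nat.Coprime.prod_left
  intro p hp
  apply Nat.Coprime.prod_right
  intro q hq
  apply Nat.Coprime.pow
  rw [Nat.coprime_primes (Nat.prime_of_mem_primeFactors hp) (Nat.prime_of_mem_primeFactors hq)]
  intro h1
  exact disjoint_left.1 h.disjoint_primeFactors hp (h1 ▸ hq)

/-- the component of a character modulo `m` for coprime `m`, `n` -/
noncomputable def comp1 {m n : ℕ} (h : Nat.Coprime m n) (χ : DirichletCharacter ℂ (m * n)) :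
    DirichletCharacter ℂ m where
  toFun a := χ ((ZMod.chineseRemainder h).symm (a, 1))
  map_one' := by
    have : ((1 : ZMod m), (1 : ZMod n)) = 1 := rfl
    simp only [this, map_one]
  map_mul' a b := by
    have : (a * b, (1 : ZMod n)) = (a, 1) * (b, 1) := by rw [Prod.mk_mul_mk, mul_one]
    simp only [this, map_mul]
  map_nonunit' a ha := by
    apply MulChar.map_nonunit
    intro h1
    apply ha
    have h2 := h1.map (ZMod.chineseRemainder h)
    rw [RingEquiv.apply_symm_apply] at h2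
    exact (Prod.isUnit_iff.1 h2).1

/-- the other component -/
noncomputable def comp2 {m n : ℕ} (h : Nat.Coprime m n) (χ : DirichletCharacter ℂ (m * n)) :
    DirichletCharacter ℂ n where
  toFun b := χ ((ZMod.chineseRemainder h).symm (1, b))
  map_one' := by
    have : ((1 : ZMod m), (1 : ZMod n)) = 1 := rfl
    simp only [this, map_one]
  map_mul' a b := by
    have : ((1 : ZMod m), a * b) = (1, a) * (1, b) := by rw [Prod.mk_mul_mk, mul_one]
    simp only [this, map_mul]
  map_nonunit' a ha := by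
    apply MulChar.map_nonunit
    intro h1
    apply ha
    have h2 := h1.map (ZMod.chineseRemainder h)
    rw [RingEquiv.apply_symm_apply] at h2
    exact (Prod.isUnit_iff.1 h2).2

lemma comp_mul {m n : ℕ} (h : Nat.Coprime m n) (χ : DirichletCharacter ℂ (m * n)) (x : ℤ) :
    χ (x : ZMod (m * n)) = comp1 h χ (x : ZMod m) * comp2 h χ (x : ZMod n) := by
  have e1 : comp1 h χ (x : ZMod m) = χ ((ZMod.chineseRemainder h).symm ((x : ZMod m), 1)) := rfl
  have e2 : comp2 h χ (x : ZMod n) = χ ((ZMod.chineseRemainder h).symm (1, (x : ZMod n))) := rfl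
  rw [e1, e2, ← map_mul, ← map_mul, Prod.mk_mul_mk, mul_one, one_mul]
  congr 1
  rw [eq_comm, RingEquiv.symm_apply_eq]
  rw [map_intCast]
  rfl

lemma div_split {m n p : ℕ} (hm : 0 < m) (hp : p.Prime) (h : p ∣ m) : m * n / p = m / p * n := by
  obtain ⟨c, rfl⟩ := h
  rw [mul_assoc, Nat.mul_div_cancel_left _ hp.pos, Nat.mul_div_cancel_left _ hp.pos]

lemma NT_comp1 {m n : ℕ} (hm : 0 < m) (h : Nat.Coprime m n) {χ : DirichletCharacter ℂ (m * n)} (hχ : NT (m * n) χ) :
    NT m (comp1 h χ) := by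
  intro p hp hpm
  obtain ⟨x, hx1, hx2, hx3⟩ := hχ p hp (hpm.mul_right n)
  rw [div_split hm hp hpm] at hx1
  have h1 : (n : ℤ) ∣ x - 1 := (Int.natCast_dvd_natCast.2 (Dvd.intro_left _ rfl)).trans hx1
  have h2 : ((m / p : ℕ) : ℤ) ∣ x - 1 := (Int.natCast_dvd_natCast.2 (Dvd.intro _ rfl)).trans hx1
  have h3 : comp2 h χ (x : ZMod n) = 1 := by
    rw [chi_congr (comp2 h χ) h1]
    simp
  rw [comp_mul h, h3, mul_one] at hx2 hx3
  exact ⟨x, h2, hx2, hx3⟩

lemma NT_comp2 {m n : ℕ} (hn : 0 < n) (h : Nat.Coprime m n) {χ : DirichletCharacter ℂ (m * n)} (hχ : NT (m * n) χ) :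
    NT n (comp2 h χ) := by
  intro p hp hpn
  obtain ⟨x, hx1, hx2, hx3⟩ := hχ p hp (hpn.mul_left m)
  rw [mul_comm m n, div_split hn hp hpn] at hx1
  have h1 : (m : ℤ) ∣ x - 1 := (Int.natCast_dvd_natCast.2 (Dvd.intro_left _ rfl)).trans hx1
  have h2 : ((n / p : ℕ) : ℤ) ∣ x - 1 := (Int.natCast_dvd_natCast.2 (Dvd.intro _ rfl)).trans hx1
  have h3 : comp1 h χ (x : ZMod m) = 1 := by
    rw [chi_congr (comp1 h χ) h1]
    simp
  rw [comp_mul h, h3, one_mul] at hx2 hx3
  exact ⟨x, h2, hx2, hx3⟩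

/-- **Postnikov's formula** for a general modulus -/
theorem post (d : ℕ) (hd : 0 < d) : ∀ (χ : DirichletCharacter ℂ d), NT d χ → ∀ (s : ℕ → ℕ) (k : ℕ),
    (∀ p ∈ d.primeFactors, 2 ≤ s p ∧ d.factorization p + k ≤ s p * k) →
    ∃ m : ℕ → ℤ, (∀ j, 1 ≤ j → IsCoprime (m j) (Dj s d j : ℤ)) ∧
      ∀ z : ℤ, χ (((1 + (Hh s d : ℤ) * z : ℤ)) : ZMod d) =
        ex (∑ j ∈ Icc 1 (k - 1), (m j : ℝ) * (z : ℝ) ^ j / (Dj s d j : ℝ)) := by
  induction d using Nat.recOnPosPrimePosCoprime with
  | prime_pow p a hp ha =>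
    intro χ hχ s k hs
    have : Fact p.Prime := ⟨hp⟩
    have hpf : (p ^ a).primeFactors = {p} := Nat.primeFactors_prime_pow ha.ne' hp
    have hpm : p ∈ (p ^ a).primeFactors := by rw [hpf]; exact mem_singleton_self p
    obtain ⟨h1, h2⟩ := hs p hpm
    have hfa : (p ^ a).factorization p = a := by
      rw [hp.factorization_pow]; simp
    rw [hfa] at h2
    have hH : Hh s (p ^ a) = p ^ s p := by unfold Hh; rw [hpf, prod_singleton]
    have hD : ∀ j, Dj s (p ^ a) j = p ^ ee p a (s p) j := by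
      intro j
      unfold Dj eD ee
      rw [hpf, prod_singleton, hfa, Nat.factorization_def _ hp]
    obtain ⟨x, hx1, hx2, hx3⟩ := hχ p hp (dvd_pow_self p ha.ne')
    have hdiv : p ^ a / p = p ^ (a - 1) := by
      obtain ⟨b, rfl⟩ : ∃ b, a = b + 1 := ⟨a - 1, by omega⟩
      rw [pow_succ, Nat.mul_div_cancel _ hp.pos, Nat.add_sub_cancel]
    rw [hdiv] at hx1
    push_cast at hx1
    obtain ⟨m, hm1, hm2⟩ := post_pp (p := p) (s := s p) (a := a) (k := k) h1 h2 χ ⟨x, hx1, hx2, hx3⟩
    refine ⟨m, fun j hj => ?_, fun z => ?_⟩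
    · rw [hD]
      rcases Nat.eq_zero_or_pos (ee p a (s p) j) with h0 | h0
      · rw [h0]
        simpa using isCoprime_one_right
      · have h3 := hm1 j hj h0
        push_cast
        apply IsCoprime.pow_right
        rw [isCoprime_comm]
        exact (Nat.prime_iff_prime_int.1 hp).coprime_iff_not_dvd.2 h3
    · rw [hH]
      have h3 := hm2 z
      simp only [hD]
      push_cast at h3 ⊢
      exact h3
  | zero => exact absurd hd (lt_irrefl _)
  | one =>
    intro χ _ s k _
    refine ⟨fun _ => 0, fun j _ => ?_, fun z => ?_⟩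
    · unfold Dj
      simpa using isCoprime_one_right
    · have h1 : χ (((1 + (Hh s 1 : ℤ) * z : ℤ)) : ZMod 1) = χ 1 := by
        congr 1
        exact Subsingleton.elim _ _
      rw [h1, map_one]
      simp [ex_zero]
  | coprime a b ha hb hab iha ihb =>
    intro χ hχ s k hs
    have ha0 : 0 < a := by omega
    have hb0 : 0 < b := by omega
    have hfa : ∀ p ∈ a.primeFactors, (a * b).factorization p = a.factorization p := by
      intro p hp
      rw [Nat.factorization_mul_apply_of_coprime hab, Nat.factorization_eq_zero_of_not_dvd (n := b) (p := p), add_zero]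
      intro h1
      have h2 := Nat.dvd_of_mem_primeFactors hp
      have h3 := Nat.dvd_gcd h2 h1
      rw [hab] at h3
      exact (Nat.prime_of_mem_primeFactors hp).one_lt.ne' (Nat.dvd_one.1 h3)
    have hfb : ∀ p ∈ b.primeFactors, (a * b).factorization p = b.factorization p := by
      intro p hp
      rw [Nat.factorization_mul_apply_of_coprime hab, Nat.factorization_eq_zero_of_not_dvd (n := a) (p := p), zero_add]
      intro h1
      have h2 := Nat.dvd_of_mem_primeFactors hp
      have h3 := Nat.dvd_gcd h1 h2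
      rw [hab] at h3
      exact (Nat.prime_of_mem_primeFactors hp).one_lt.ne' (Nat.dvd_one.1 h3)
    obtain ⟨m1, hm1, hz1⟩ := iha ha0 (comp1 hab χ) (NT_comp1 ha0 hab hχ) s k (by
      intro p hp
      have h1 := hs p (by rw [hab.primeFactors_mul]; exact mem_union_left _ hp)
      rwa [hfa p hp] at h1)
    obtain ⟨m2, hm2, hz2⟩ := ihb hb0 (comp2 hab χ) (NT_comp2 hb0 hab hχ) s k (by
      intro p hp
      have h1 := hs p (by rw [hab.primeFactors_mul]; exact mem_union_right _ hp)
      rwa [hfb p hp] at h1)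
    refine ⟨fun j => m1 j * (Hh s b : ℤ) ^ j * (Dj s b j : ℤ) + m2 j * (Hh s a : ℤ) ^ j * (Dj s a j : ℤ),
      fun j hj => ?_, fun z => ?_⟩
    · rw [Dj_mul s hab]
      push_cast
      have c1 : IsCoprime ((Hh s b : ℕ) : ℤ) ((Dj s a j : ℕ) : ℤ) :=
        Nat.isCoprime_iff_coprime.2 (coprime_of_supp hab _ _).symm
      have c2 : IsCoprime ((Hh s a : ℕ) : ℤ) ((Dj s b j : ℕ) : ℤ) :=
        Nat.isCoprime_iff_coprime.2 (coprime_of_supp hab _ _)
      have c3 : IsCoprime ((Dj s b j : ℕ) : ℤ) ((Dj s a j : ℕ) : ℤ) :=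
        Nat.isCoprime_iff_coprime.2 (coprime_of_supp hab _ _).symm
      apply IsCoprime.mul_right
      · rw [IsCoprime.add_mul_right_left_iff]
        exact ((hm1 j hj).mul_left (c1.pow_left)).mul_left c3
      · rw [add_comm, IsCoprime.add_mul_right_left_iff]
        exact ((hm2 j hj).mul_left (c2.pow_left)).mul_left c3.symm
    · rw [comp_mul hab, Hh_mul s hab]
      have g1 := hz1 ((Hh s b : ℤ) * z)
      have g2 := hz2 ((Hh s a : ℤ) * z)
      have e1 : (1 + ((Hh s a * Hh s b : ℕ) : ℤ) * z) = 1 + (Hh s a : ℤ) * ((Hh s b : ℤ) * z) := by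
        push_cast; ring
      have e2 : (1 + ((Hh s a * Hh s b : ℕ) : ℤ) * z) = 1 + (Hh s b : ℤ) * ((Hh s a : ℤ) * z) := by
        push_cast; ring
      rw [← e1] at g1
      rw [← e2] at g2
      rw [g1, g2, ← ex_add, ← sum_add_distrib]
      congr 1
      refine sum_congr rfl fun j _ => ?_
      rw [Dj_mul s hab]
      have d1 : (Dj s a j : ℝ) ≠ 0 := by exact_mod_cast (Dj_pos s a j).ne'
      have d2 : (Dj s b j : ℝ) ≠ 0 := by exact_mod_cast (Dj_pos s b j).ne'
      push_cast
      rw [mul_pow, mul_pow]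
      field_simp

end Pool.Agent.T9h57.PK
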