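import Pool.Agent.T9h57.PK.Log

/-!
# Postnikov's formula for characters modulo a prime power
-/

set_option autoImplicit false

namespace Pool.Agent.T9h57.PK

open Pool.Agent.Y732 Finset

/-- `e(x)` -/
noncomputable def ex (x : ℝ) : ℂ := Complex.exp (2 * Real.pi * Complex.I * (x : ℂ))

lemma ex_add (x y : ℝ) : ex (x + y) = ex x * ex y := by
  unfold ex
  rw [← Complex.exp_add]
  congr 1
  push_cast
  ring

lemma ex_zero : ex 0 = 1 := by simp [ex]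

lemma ex_int (n : ℤ) : ex (n : ℝ) = 1 := by
  unfold ex
  rw [Complex.exp_eq_one_iff]
  exact ⟨n, by push_cast; ring⟩

lemma ex_nat_mul (x : ℝ) (n : ℕ) : ex (n * x) = ex x ^ n := by
  unfold ex
  rw [← Complex.exp_nat_mul]
  congr 1
  push_cast
  ring

lemma ex_eq_of_sub {x y : ℝ} {n : ℤ} (h : x = y + n) : ex x = ex y := by
  rw [h, ex_add, ex_int, mul_one]

lemma norm_ex (x : ℝ) : ‖ex x‖ = 1 := by
  unfold ex
  have h3 : 2 * Real.pi * Complex.I * (x : ℂ) = ((2 * Real.pi * x : ℝ) : ℂ) * Complex.I := by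
    push_cast
    ring
  rw [h3, Complex.norm_exp_ofReal_mul_I]

/-- a root of unity -/
lemma root_eq {ζ : ℂ} {n : ℕ} (hn : 0 < n) (h : ζ ^ n = 1) : ∃ m : ℕ, ζ = ex ((m : ℝ) / n) := by
  have : NeZero n := ⟨hn.ne'⟩
  obtain ⟨i, -, hi⟩ := (Complex.isPrimitiveRoot_exp n hn.ne').eq_pow_of_pow_eq_one h
  refine ⟨i, ?_⟩
  rw [← hi, ← Complex.exp_nat_mul]
  unfold ex
  congr 1
  push_cast
  ring

variable {p : ℕ} [hp : Fact p.Prime]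

/-- the exponent of the denominator -/
def ee (p a s j : ℕ) : ℕ := a + padicValNat p j - s * j

lemma val_lt (j : ℕ) (hj : 1 ≤ j) : padicValNat p j + 1 ≤ j := by
  have h1 : p ^ padicValNat p j ≤ j := Nat.le_of_dvd hj pow_padicValNat_dvd
  have h2 : padicValNat p j < p ^ padicValNat p j := Nat.lt_pow_self hp.out.one_lt
  omega

lemma ee_big {a s j : ℕ} (hs : 2 ≤ s) (has : a ≤ s) (hj : 1 ≤ j) : ee p a s j = 0 := by
  unfold ee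
  have h1 := val_lt (p := p) j hj
  obtain ⟨i, rfl⟩ : ∃ i, j = i + 1 := ⟨j - 1, by omega⟩
  have h2 : s * (i + 1) = s * i + s := by ring
  have h3 : 2 * i ≤ s * i := Nat.mul_le_mul_right _ hs
  omega

lemma pow_mod_one {s a : ℕ} (hs : 2 ≤ s) (hsa : s ≤ a) :
    (p : ℤ) ^ a ∣ (1 + (p : ℤ) ^ s) ^ (p ^ (a - s)) - 1 := by
  have hg1 : ‖(p : ℚ_[p]) ^ s‖ = ((p : ℝ)⁻¹) ^ s := by rw [norm_pow, Padic.norm_p]
  have hg2 : ‖(p : ℚ_[p]) ^ s‖ ≤ ((p : ℝ)⁻¹) ^ 2 := by rw [hg1]; exact pow_inv_le hs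
  have hg3 : ‖lg ((p : ℚ_[p]) ^ s)‖ = ((p : ℝ)⁻¹) ^ s := by rw [norm_lg4 hg2, hg1]
  obtain ⟨-, hl2⟩ := lg_pow (hg2.trans inv_sq_le) (p ^ (a - s))
  have h1 : (p : ℤ) ^ s ∣ (1 + (p : ℤ) ^ s) ^ (p ^ (a - s)) - 1 := by
    have := sub_one_dvd_pow_sub_one (1 + (p : ℤ) ^ s) (p ^ (a - s))
    rwa [add_sub_cancel_left] at this
  have h2 := norm_of_int_dvd (p := p) h1
  push_cast at h2
  have h3 := norm_lg4 (h2.trans (pow_inv_le (p := p) hs))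
  rw [hl2, norm_mul, hg3] at h3
  apply int_dvd_of_norm (p := p)
  push_cast
  rw [← h3]
  apply le_of_eq
  push_cast
  rw [norm_pow, Padic.norm_p, ← pow_add, Nat.sub_add_cancel hsa]

/-- the coefficients -/
lemma coeff_exists {s a : ℕ} {c : ℚ_[p]} (hc : ‖c‖ = 1) (j : ℕ) (hj : 1 ≤ j) : ∃ m : ℕ,
    (0 < ee p a s j → ¬ (p : ℤ) ∣ (m : ℤ)) ∧
    ‖c * ((-1 : ℚ_[p]) ^ (j - 1) * ((p : ℚ_[p]) ^ s) ^ j / (j : ℚ_[p])) / (p : ℚ_[p]) ^ a -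
      (m : ℚ_[p]) / (p : ℚ_[p]) ^ (ee p a s j)‖ ≤ 1 := by
  have hpp : (0 : ℝ) < p := by exact_mod_cast hp.out.pos
  have hp1 : (1 : ℝ) < p := by exact_mod_cast hp.out.one_lt
  have hp0 : (p : ℚ_[p]) ≠ 0 := by exact_mod_cast hp.out.ne_zero
  obtain ⟨β, hβ⟩ : ∃ β : ℚ_[p], β = c * ((-1 : ℚ_[p]) ^ (j - 1) * ((p : ℚ_[p]) ^ s) ^ j / (j : ℚ_[p])) /
    (p : ℚ_[p]) ^ a := ⟨_, rfl⟩
  rw [← hβ]
  obtain ⟨v, hv⟩ : ∃ v, v = padicValNat p j := ⟨_, rfl⟩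
  have hj0 : (j : ℚ_[p]) ≠ 0 := by exact_mod_cast (by omega : j ≠ 0)
  have hjn : ‖(j : ℚ_[p])‖ = ((p : ℝ)⁻¹) ^ v := by
    rw [Padic.norm_eq_zpow_neg_valuation hj0, Padic.valuation_natCast, ← hv, zpow_neg, zpow_natCast, inv_pow]
  have hn : ‖β‖ * ((p : ℝ)⁻¹) ^ (a + v) = ((p : ℝ)⁻¹) ^ (s * j) := by
    rw [hβ, norm_div, norm_mul, norm_div, norm_mul, norm_pow, norm_pow, norm_pow, norm_pow, norm_neg, norm_one,
      one_pow, one_mul, hc, one_mul, hjn, Padic.norm_p, ← pow_mul, pow_add]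
    field_simp
  obtain ⟨e, he⟩ : ∃ e, e = ee p a s j := ⟨_, rfl⟩
  rw [← he]
  have he' : e = a + v - s * j := by rw [he, ee, hv]
  have hpi : (0 : ℝ) < (p : ℝ)⁻¹ := by positivity
  have hpi1 : (p : ℝ)⁻¹ < 1 := inv_lt_one_of_one_lt₀ hp1
  have hle : ‖β * (p : ℚ_[p]) ^ e‖ ≤ 1 ∧ (0 < e → ‖β * (p : ℚ_[p]) ^ e‖ = 1) := by
    rw [norm_mul, norm_pow, Padic.norm_p]
    rcases le_or_gt (a + v) (s * j) with h | h
    · have e0 : e = 0 := by omega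
      rw [e0, pow_zero, mul_one]
      refine ⟨?_, fun h => absurd h (lt_irrefl _)⟩
      have h1 : ((p : ℝ)⁻¹) ^ (s * j) ≤ ((p : ℝ)⁻¹) ^ (a + v) := pow_le_pow_of_le_one hpi.le hpi1.le h
      rw [← hn] at h1
      have h2 : (0 : ℝ) < ((p : ℝ)⁻¹) ^ (a + v) := by positivity
      by_contra hcon
      rw [not_le] at hcon
      nlinarith
    · have h1 : a + v = e + s * j := by omega
      rw [h1, pow_add] at hn
      have h2 : (0 : ℝ) < ((p : ℝ)⁻¹) ^ (s * j) := by positivity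
      have h3 : ‖β‖ * ((p : ℝ)⁻¹) ^ e = 1 := by
        have : (‖β‖ * ((p : ℝ)⁻¹) ^ e) * ((p : ℝ)⁻¹) ^ (s * j) = 1 * ((p : ℝ)⁻¹) ^ (s * j) := by
          rw [one_mul, mul_assoc]; exact hn
        exact mul_right_cancel₀ h2.ne' this
      exact ⟨h3.le, fun _ => h3⟩
  obtain ⟨m, hm⟩ := exists_nat hle.1 e
  refine ⟨m, fun he0 hdvd => ?_, ?_⟩
  · have h1 := hle.2 he0
    have h2 : ‖(m : ℚ_[p])‖ ≤ (p : ℝ)⁻¹ := by
      have := norm_of_int_dvd (p := p) (x := (m : ℤ)) (a := 1) (by rw [pow_one]; exact hdvd)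
      rw [pow_one] at this
      exact_mod_cast this
    have h3 : ‖β * (p : ℚ_[p]) ^ e - (m : ℚ_[p])‖ ≤ (p : ℝ)⁻¹ := by
      refine hm.trans ?_
      calc ((p : ℝ)⁻¹) ^ e ≤ ((p : ℝ)⁻¹) ^ 1 := pow_le_pow_of_le_one hpi.le hpi1.le he0
        _ = _ := pow_one _
    have h4 : ‖β * (p : ℚ_[p]) ^ e‖ ≤ (p : ℝ)⁻¹ := by
      have e1 : β * (p : ℚ_[p]) ^ e = (β * (p : ℚ_[p]) ^ e - (m : ℚ_[p])) + (m : ℚ_[p]) := by ring
      rw [e1]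
      exact (IsUltrametricDist.norm_add_le_max _ _).trans (max_le h3 h2)
    linarith
  · have h1 : β - (m : ℚ_[p]) / (p : ℚ_[p]) ^ e = (β * (p : ℚ_[p]) ^ e - (m : ℚ_[p])) / (p : ℚ_[p]) ^ e := by
      have : (p : ℚ_[p]) ^ e ≠ 0 := pow_ne_zero _ hp0
      field_simp
    rw [h1, norm_div, norm_pow, Padic.norm_p, div_le_one (by positivity)]
    exact hm

lemma chi_pow {n : ℕ} (χ : DirichletCharacter ℂ n) (x : ℤ) (k : ℕ) :
    χ ((x ^ k : ℤ) : ZMod n) = χ (x : ZMod n) ^ k := by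
  push_cast
  rw [map_pow]

lemma chi_congr {n : ℕ} (χ : DirichletCharacter ℂ n) {x y : ℤ} (h : (n : ℤ) ∣ x - y) :
    χ (x : ZMod n) = χ (y : ZMod n) := by
  congr 1
  rw [ZMod.intCast_eq_intCast_iff_dvd_sub]
  have := dvd_neg.2 h
  rwa [neg_sub] at this

/-- **Postnikov's formula** -/
theorem post_pp {s a k : ℕ} (hs : 2 ≤ s) (hk : a + k ≤ s * k)
    (χ : DirichletCharacter ℂ (p ^ a)) (hχ : ∃ x : ℤ, (p : ℤ) ^ (a - 1) ∣ x - 1 ∧ χ (x : ZMod (p ^ a)) ≠ 1 ∧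
      χ (x : ZMod (p ^ a)) ≠ 0) :
    ∃ m : ℕ → ℤ, (∀ j, 1 ≤ j → 0 < ee p a s j → ¬ (p : ℤ) ∣ m j) ∧
      ∀ z : ℤ, χ (((1 + (p : ℤ) ^ s * z : ℤ)) : ZMod (p ^ a)) =
        ex (∑ j ∈ Icc 1 (k - 1), (m j : ℝ) * (z : ℝ) ^ j / (p : ℝ) ^ (ee p a s j)) := by
  have hpp : (0 : ℝ) < p := by exact_mod_cast hp.out.pos
  have hp0 : (p : ℚ_[p]) ≠ 0 := by exact_mod_cast hp.out.ne_zero
  rcases le_or_gt a s with has | hsa
  · refine ⟨fun _ => 0, fun j hj h => ?_, fun z => ?_⟩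
    · rw [ee_big hs has hj] at h
      exact absurd h (lt_irrefl _)
    · have h1 : χ (((1 + (p : ℤ) ^ s * z : ℤ)) : ZMod (p ^ a)) = χ ((1 : ℤ) : ZMod (p ^ a)) := by
        apply chi_congr
        rw [add_sub_cancel_left]
        push_cast
        exact Dvd.dvd.mul_right (pow_dvd_pow _ has) _
      rw [h1]
      simp [ex_zero]
  -- the generator
  obtain ⟨ζ, hζ⟩ : ∃ ζ : ℂ, ζ = χ (((1 + (p : ℤ) ^ s : ℤ)) : ZMod (p ^ a)) := ⟨_, rfl⟩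
  have hcast : (((p ^ a : ℕ) : ℤ)) = (p : ℤ) ^ a := by push_cast; rfl
  have hζ1 : ζ ^ (p ^ (a - s)) = 1 := by
    rw [hζ, ← chi_pow]
    have h1 := chi_congr χ (x := (1 + (p : ℤ) ^ s) ^ (p ^ (a - s))) (y := 1)
      (by rw [hcast]; exact pow_mod_one hs hsa.le)
    rw [h1]
    simp
  have hpow : ∀ z : ℤ, ∃ n : ℕ, χ (((1 + (p : ℤ) ^ s * z : ℤ)) : ZMod (p ^ a)) = ζ ^ n ∧
      ‖(n : ℚ_[p]) * lg ((p : ℚ_[p]) ^ s) - lg ((p : ℚ_[p]) ^ s * (z : ℚ_[p]))‖ ≤ ((p : ℝ)⁻¹) ^ a := by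
    intro z
    obtain ⟨n, hn1, hn2⟩ := exists_pow (p := p) hs hsa.le z
    refine ⟨n, ?_, hn2⟩
    rw [hζ, ← chi_pow]
    symm
    apply chi_congr
    rw [hcast]
    exact hn1
  obtain ⟨m0, hm0⟩ := root_eq (pow_pos hp.out.pos (a - s)) hζ1
  have hζn : ∀ n : ℕ, ζ ^ n = ex ((m0 : ℝ) * n / (p : ℝ) ^ (a - s)) := by
    intro n
    rw [hm0, ← ex_nat_mul]
    congr 1
    push_cast
    ring
  have hg1 : ‖(p : ℚ_[p]) ^ s‖ = ((p : ℝ)⁻¹) ^ s := by rw [norm_pow, Padic.norm_p]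
  have hg2 : ‖(p : ℚ_[p]) ^ s‖ ≤ ((p : ℝ)⁻¹) ^ 2 := by rw [hg1]; exact pow_inv_le hs
  have hg3 : ‖lg ((p : ℚ_[p]) ^ s)‖ = ((p : ℝ)⁻¹) ^ s := by rw [norm_lg4 hg2, hg1]
  have hne : lg ((p : ℚ_[p]) ^ s) ≠ 0 := by
    rw [← norm_pos_iff, hg3]; positivity
  -- the generator has the exact order
  have hm0p : ¬ (p : ℤ) ∣ (m0 : ℤ) := by
    intro hdvd
    obtain ⟨x, hx1, hx2, hx3⟩ := hχ
    apply hx2
    have h1 : (p : ℤ) ^ s ∣ x - 1 := (pow_dvd_pow _ (by omega)).trans hx1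
    obtain ⟨z, hz⟩ := h1
    have hxz : x = 1 + (p : ℤ) ^ s * z := by linarith
    obtain ⟨n, hn1, hn2⟩ := hpow z
    have hlz : ‖lg ((p : ℚ_[p]) ^ s * (z : ℚ_[p]))‖ ≤ ((p : ℝ)⁻¹) ^ (a - 1) := by
      rw [norm_lg4 ((norm_ps s z).trans (pow_inv_le hs))]
      have h2 := norm_of_int_dvd (p := p) (x := x - 1) hx1
      rw [hz] at h2
      push_cast at h2
      exact h2
    have h3 : ‖(n : ℚ_[p])‖ * ((p : ℝ)⁻¹) ^ s ≤ ((p : ℝ)⁻¹) ^ (a - 1) := by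
      rw [← hg3, ← norm_mul]
      have e1 : (n : ℚ_[p]) * lg ((p : ℚ_[p]) ^ s) = ((n : ℚ_[p]) * lg ((p : ℚ_[p]) ^ s) -
        lg ((p : ℚ_[p]) ^ s * (z : ℚ_[p]))) + lg ((p : ℚ_[p]) ^ s * (z : ℚ_[p])) := by ring
      rw [e1]
      refine (IsUltrametricDist.norm_add_le_max _ _).trans (max_le (hn2.trans ?_) hlz)
      exact pow_le_pow_of_le_one (by positivity)
        (inv_le_one_of_one_le₀ (by exact_mod_cast hp.out.one_lt.le)) (by omega)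
    have h4 : ‖((n : ℤ) : ℚ_[p])‖ ≤ ((p : ℝ)⁻¹) ^ (a - 1 - s) := by
      have h5 : (0 : ℝ) < ((p : ℝ)⁻¹) ^ s := by positivity
      have h6 : ((p : ℝ)⁻¹) ^ (a - 1) = ((p : ℝ)⁻¹) ^ (a - 1 - s) * ((p : ℝ)⁻¹) ^ s := by
        rw [← pow_add]; congr 1; omega
      rw [h6] at h3
      have := le_of_mul_le_mul_right h3 h5
      exact_mod_cast this
    have h5 := int_dvd_of_norm (p := p) h4
    obtain ⟨u, hu⟩ := h5
    obtain ⟨u', hu'⟩ := hdvd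
    rw [hxz, hn1, hζn]
    have e2 : (m0 : ℝ) * n / (p : ℝ) ^ (a - s) = ((u' * u : ℤ) : ℝ) := by
      have e3 : (m0 : ℝ) = p * u' := by exact_mod_cast hu'
      have e4 : (n : ℝ) = (p : ℝ) ^ (a - 1 - s) * u := by exact_mod_cast hu
      have e5 : (p : ℝ) ^ (a - s) = (p : ℝ) ^ (a - 1 - s) * p := by
        rw [← pow_succ]; congr 1; omega
      rw [e3, e4, e5]
      push_cast
      field_simp
    rw [e2, ex_int]
  obtain ⟨c, hc⟩ : ∃ c : ℚ_[p], c = (m0 : ℚ_[p]) * (p : ℚ_[p]) ^ s / lg ((p : ℚ_[p]) ^ s) := ⟨_, rfl⟩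
  have hcn : ‖c‖ = 1 := by
    have h1 : ‖(m0 : ℚ_[p])‖ = 1 := by
      have h2 : ‖((m0 : ℤ) : ℚ_[p])‖ ≤ 1 := Padic.norm_int_le_one _
      have h3 : ¬ ‖((m0 : ℤ) : ℚ_[p])‖ < 1 := by
        rw [Padic.norm_intCast_lt_one_iff]
        exact hm0p
      have h4 : ‖((m0 : ℤ) : ℚ_[p])‖ = 1 := le_antisymm h2 (not_lt.1 h3)
      exact_mod_cast h4
    rw [hc, norm_div, norm_mul, h1, one_mul, hg1, hg3, div_self (by positivity)]
  have hco := fun j hj => coeff_exists (p := p) (s := s) (a := a) hcn j hj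
  have hm : ∃ m : ℕ → ℕ, ∀ j, 1 ≤ j → (0 < ee p a s j → ¬ (p : ℤ) ∣ ((m j : ℕ) : ℤ)) ∧
    ‖c * ((-1 : ℚ_[p]) ^ (j - 1) * ((p : ℚ_[p]) ^ s) ^ j / (j : ℚ_[p])) / (p : ℚ_[p]) ^ a -
      (m j : ℚ_[p]) / (p : ℚ_[p]) ^ (ee p a s j)‖ ≤ 1 := by
    refine ⟨fun j => if h : 1 ≤ j then (hco j h).choose else 0, fun j hj => ?_⟩
    simp only [dif_pos hj]
    exact (hco j hj).choose_spec
  obtain ⟨m, hm⟩ := hm
  refine ⟨fun j => (m j : ℤ), fun j hj h => (hm j hj).1 h, fun z => ?_⟩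
  obtain ⟨n, hn1, hn2⟩ := hpow z
  rw [hn1, hζn]
  -- the difference is an integer
  obtain ⟨E, hE⟩ : ∃ E, E = a + k := ⟨_, rfl⟩
  have hEe : ∀ j ∈ Icc 1 (k - 1), ee p a s j ≤ E := by
    intro j hj
    rw [mem_Icc] at hj
    have := val_lt (p := p) j hj.1
    unfold ee
    omega
  obtain ⟨Y, hY⟩ : ∃ Y : ℤ, Y = ∑ j ∈ Icc 1 (k - 1), (m j : ℤ) * z ^ j * (p : ℤ) ^ (E - ee p a s j) -
    (m0 : ℤ) * n * (p : ℤ) ^ (E - (a - s)) := ⟨_, rfl⟩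
  have hYn : ‖(Y : ℚ_[p])‖ ≤ ((p : ℝ)⁻¹) ^ E := by
    have e1 : (Y : ℚ_[p]) = (p : ℚ_[p]) ^ E * (∑ j ∈ Icc 1 (k - 1), (m j : ℚ_[p]) * (z : ℚ_[p]) ^ j /
        (p : ℚ_[p]) ^ (ee p a s j) - (m0 : ℚ_[p]) * n / (p : ℚ_[p]) ^ (a - s)) := by
      rw [hY]
      push_cast
      rw [mul_sub, mul_sum]
      congr 1
      · refine sum_congr rfl fun j hj => ?_
        have h1 : (p : ℚ_[p]) ^ E = (p : ℚ_[p]) ^ (E - ee p a s j) * (p : ℚ_[p]) ^ (ee p a s j) := by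
          rw [← pow_add, Nat.sub_add_cancel (hEe j hj)]
        rw [h1]
        have h2 : (p : ℚ_[p]) ^ (ee p a s j) ≠ 0 := pow_ne_zero _ hp0
        field_simp
      · have h1 : (p : ℚ_[p]) ^ E = (p : ℚ_[p]) ^ (E - (a - s)) * (p : ℚ_[p]) ^ (a - s) := by
          rw [← pow_add, Nat.sub_add_cancel (by omega)]
        rw [h1]
        have h2 : (p : ℚ_[p]) ^ (a - s) ≠ 0 := pow_ne_zero _ hp0
        field_simp
    rw [e1, norm_mul, norm_pow, Padic.norm_p]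
    have h0 : (0 : ℝ) ≤ ((p : ℝ)⁻¹) ^ E := by positivity
    refine le_trans (mul_le_mul_of_nonneg_left ?_ h0) (le_of_eq (mul_one _))
    -- three parts
    obtain ⟨T, hT⟩ : ∃ T : ℚ_[p], T = ∑ j ∈ range (k - 1),
      (-1 : ℚ_[p]) ^ j * ((p : ℚ_[p]) ^ s * (z : ℚ_[p])) ^ (j + 1) / ((j : ℚ_[p]) + 1) := ⟨_, rfl⟩
    obtain ⟨l, hl⟩ : ∃ l : ℚ_[p], l = lg ((p : ℚ_[p]) ^ s * (z : ℚ_[p])) := ⟨_, rfl⟩
    have htail := tail_le (p := p) hs hk z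
    rw [← hT, ← hl] at htail
    rw [← hl] at hn2
    have hTe : ∑ j ∈ Icc 1 (k - 1), c * ((-1 : ℚ_[p]) ^ (j - 1) * ((p : ℚ_[p]) ^ s) ^ j / (j : ℚ_[p])) /
        (p : ℚ_[p]) ^ a * (z : ℚ_[p]) ^ j = c / (p : ℚ_[p]) ^ a * T := by
      rw [hT, mul_sum, Finset.range_eq_Ico]
      have hI : Icc 1 (k - 1) = Ico (0 + 1) (k - 1 + 1) := by
        ext j; simp only [mem_Icc, mem_Ico]; omega
      rw [hI, ← Finset.sum_Ico_add']
      refine sum_congr rfl fun j _ => ?_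
      rw [Nat.add_sub_cancel]
      push_cast
      rw [mul_pow]
      ring
    have hsplit : ∑ j ∈ Icc 1 (k - 1), (m j : ℚ_[p]) * (z : ℚ_[p]) ^ j / (p : ℚ_[p]) ^ (ee p a s j) -
        (m0 : ℚ_[p]) * n / (p : ℚ_[p]) ^ (a - s) =
        (∑ j ∈ Icc 1 (k - 1), ((m j : ℚ_[p]) / (p : ℚ_[p]) ^ (ee p a s j) -
          c * ((-1 : ℚ_[p]) ^ (j - 1) * ((p : ℚ_[p]) ^ s) ^ j / (j : ℚ_[p])) / (p : ℚ_[p]) ^ a) *
            (z : ℚ_[p]) ^ j) + (c / (p : ℚ_[p]) ^ a * (T - l) +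
          c / (p : ℚ_[p]) ^ a * (l - n * lg ((p : ℚ_[p]) ^ s))) := by
      have h1 : (m0 : ℚ_[p]) * n / (p : ℚ_[p]) ^ (a - s) = c / (p : ℚ_[p]) ^ a * (n * lg ((p : ℚ_[p]) ^ s)) := by
        rw [hc]
        have h2 : (p : ℚ_[p]) ^ a = (p : ℚ_[p]) ^ (a - s) * (p : ℚ_[p]) ^ s := by
          rw [← pow_add, Nat.sub_add_cancel hsa.le]
        have h3 : (p : ℚ_[p]) ^ (a - s) ≠ 0 := pow_ne_zero _ hp0
        have h4 : (p : ℚ_[p]) ^ s ≠ 0 := pow_ne_zero _ hp0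
        rw [h2]
        generalize lg ((p : ℚ_[p]) ^ s) = G at *
        field_simp
      have h2 : ∑ j ∈ Icc 1 (k - 1), ((m j : ℚ_[p]) / (p : ℚ_[p]) ^ (ee p a s j) -
          c * ((-1 : ℚ_[p]) ^ (j - 1) * ((p : ℚ_[p]) ^ s) ^ j / (j : ℚ_[p])) / (p : ℚ_[p]) ^ a) *
            (z : ℚ_[p]) ^ j = ∑ j ∈ Icc 1 (k - 1), (m j : ℚ_[p]) * (z : ℚ_[p]) ^ j / (p : ℚ_[p]) ^ (ee p a s j) -
          c / (p : ℚ_[p]) ^ a * T := by
        rw [← hTe, ← sum_sub_distrib]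
        refine sum_congr rfl fun j _ => ?_
        ring
      rw [h1, h2]
      ring
    rw [hsplit]
    have hpan : ‖c / (p : ℚ_[p]) ^ a‖ * ((p : ℝ)⁻¹) ^ a = 1 := by
      rw [norm_div, hcn, norm_pow, Padic.norm_p, one_div, inv_mul_cancel₀]
      positivity
    refine (IsUltrametricDist.norm_add_le_max _ _).trans (max_le ?_ ?_)
    · apply IsUltrametricDist.norm_sum_le_of_forall_le_of_nonneg zero_le_one
      intro j hj
      rw [mem_Icc] at hj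
      rw [norm_mul, norm_pow, norm_sub_rev]
      exact mul_le_one₀ (hm j hj.1).2 (by positivity) (pow_le_one₀ (norm_nonneg _) (Padic.norm_int_le_one _))
    · refine (IsUltrametricDist.norm_add_le_max _ _).trans (max_le ?_ ?_)
      · rw [norm_mul, ← hpan]
        refine mul_le_mul_of_nonneg_left ?_ (norm_nonneg _)
        rw [norm_sub_rev]
        exact htail
      · rw [norm_mul, ← hpan]
        refine mul_le_mul_of_nonneg_left ?_ (norm_nonneg _)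
        rw [norm_sub_rev]
        exact hn2
  obtain ⟨W, hW⟩ := int_dvd_of_norm (p := p) hYn
  symm
  apply ex_eq_of_sub (n := W)
  have hpE : (0 : ℝ) < (p : ℝ) ^ E := by positivity
  have e1 : (p : ℝ) ^ E * (∑ j ∈ Icc 1 (k - 1), (((m j : ℕ) : ℤ) : ℝ) * (z : ℝ) ^ j / (p : ℝ) ^ (ee p a s j)) =
      (p : ℝ) ^ E * ((m0 : ℝ) * n / (p : ℝ) ^ (a - s)) + (Y : ℝ) := by
    rw [hY]
    push_cast
    rw [mul_sum]
    have h3 : (p : ℝ) ^ E * ((m0 : ℝ) * n / (p : ℝ) ^ (a - s)) = (m0 : ℝ) * n * (p : ℝ) ^ (E - (a - s)) := by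
      have h1 : (p : ℝ) ^ E = (p : ℝ) ^ (E - (a - s)) * (p : ℝ) ^ (a - s) := by
        rw [← pow_add, Nat.sub_add_cancel (by omega)]
      rw [h1]
      field_simp
    rw [h3]
    have h4 : ∑ j ∈ Icc 1 (k - 1), (p : ℝ) ^ E * ((m j : ℝ) * (z : ℝ) ^ j / (p : ℝ) ^ (ee p a s j)) =
        ∑ j ∈ Icc 1 (k - 1), (m j : ℝ) * (z : ℝ) ^ j * (p : ℝ) ^ (E - ee p a s j) := by
      refine sum_congr rfl fun j hj => ?_
      have h1 : (p : ℝ) ^ E = (p : ℝ) ^ (E - ee p a s j) * (p : ℝ) ^ (ee p a s j) := by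
        rw [← pow_add, Nat.sub_add_cancel (hEe j hj)]
      rw [h1]
      field_simp
    rw [h4]
    ring
  have e2 : (Y : ℝ) = (p : ℝ) ^ E * W := by
    rw [hW]; push_cast; rfl
  rw [e2, ← mul_add] at e1
  exact mul_left_cancel₀ hpE.ne' e1

end Pool.Agent.T9h57.PK
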