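import Pool.Agent.T9h57.PK.Grow
import Pool.Agent.N475.SP.SC
import Pool.Agent.N457.SP.TEL

/-!
# Prime sums twisted by characters to moduli with small radical
-/

set_option autoImplicit false

namespace Pool.Agent.T9h57.PK

open Finset Filter Topology
open Pool.Agent.N728.SP Pool.Agent.H378R2 Pool.Agent.H378R2.M1

/-- powers of the logarithm are small -/
lemma ev_log (C : ℝ) (k : ℕ) : ∀ᶠ y : ℝ in atTop, C * Real.log y ^ k ≤ y := by
  have h1 := (Real.isLittleO_pow_log_id_atTop (n := k)).bound (show (0 : ℝ) < 1 / (|C| + 1) by positivity)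
  filter_upwards [h1, eventually_ge_atTop (1 : ℝ)] with y hy hy1
  rw [Real.norm_of_nonneg (pow_nonneg (Real.log_nonneg hy1) k), id, Real.norm_of_nonneg (by linarith)] at hy
  have h2 : 0 ≤ Real.log y ^ k := pow_nonneg (Real.log_nonneg hy1) k
  have h3 : (|C| + 1) * Real.log y ^ k ≤ y := by
    calc (|C| + 1) * Real.log y ^ k ≤ (|C| + 1) * (1 / (|C| + 1) * y) := by gcongr
      _ = y := by field_simp
  have h4 := le_abs_self C
  nlinarith

/-- zero free region -/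
theorem zone {m : ℕ} (hm : 3 ≤ m) (K2 : ℕ) : ∀ᶠ y : ℝ in atTop, SumsAt m y →
    ∀ (d : ℕ) [NeZero d], Real.log d ≤ y ^ (2 * m) → Real.log (rad d) ≤ y ^ m →
    ∀ χ : DirichletCharacter ℂ d, χ ^ 2 ≠ 1 →
    ∀ s : ℂ, |s.re - 1| ≤ 1 / (y ^ (2 * m - 1) * Real.log y ^ 2) → |s.im| ≤ y ^ K2 →
      χ.LFunction s ≠ 0 ∧ ‖deriv χ.LFunction s / χ.LFunction s‖ ≤ y ^ (2 * m) := by
  obtain ⟨A, hA1, hA⟩ := ldb
  obtain ⟨P, hP⟩ : ∃ P : ℝ, P = 7 * m + 3 + K2 := ⟨_, rfl⟩
  have hP1 : 1 ≤ P := by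
    rw [hP]
    have h1 : (0 : ℝ) ≤ m := Nat.cast_nonneg _
    have h2 : (0 : ℝ) ≤ K2 := Nat.cast_nonneg _
    linarith
  filter_upwards [eventually_ge_atTop (8 : ℝ), ev_log (4 * A * P ^ 2) 2,
    Real.tendsto_log_atTop.eventually_ge_atTop (4 * A * P)] with y hy8 hy1 hy2 hS d _ hd hR χ hχ2 s hs1 hs2
  have hχ : χ ≠ 1 := by
    rintro rfl
    exact hχ2 (one_pow 2)
  have hyp : 0 < y := by linarith
  have hyo : 1 ≤ y := by linarith
  have hl4 : 4 ≤ Real.log y := by nlinarith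
  obtain ⟨V, hV⟩ : ∃ V : ℝ, V = y ^ (2 * m - 1) := ⟨_, rfl⟩
  have hV8 : 8 ≤ V := by
    rw [hV]
    exact hy8.trans (le_self_pow₀ hyo (by omega))
  have hV0 : 0 < V := by linarith
  obtain ⟨θ, hθ⟩ : ∃ θ : ℝ, θ = 1 / (4 * V) := ⟨_, rfl⟩
  obtain ⟨T, hT⟩ : ∃ T : ℝ, T = y ^ K2 := ⟨_, rfl⟩
  have hT1 : 1 ≤ T := by rw [hT]; exact one_le_pow₀ hyo
  obtain ⟨R, hRd⟩ : ∃ R : ℝ, R = y ^ (5 * m + 2) * (y * T) := ⟨_, rfl⟩
  have hθ0 : 0 < θ := by rw [hθ]; positivity
  have hθ1 : θ ≤ 1 / 20 := by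
    rw [hθ]
    exact one_div_le_one_div_of_le (by norm_num) (by linarith)
  have h4θ : 4 * θ = 1 / V := by
    rw [hθ]
    field_simp
  have hyR : y ≤ R := by
    rw [hRd]
    have h1 : 1 ≤ y ^ (5 * m + 2) := one_le_pow₀ hyo
    have h2 : y ≤ y * T := by nlinarith
    nlinarith
  have hR3 : 3 ≤ R := by linarith
  have hbd : ∀ χ' : DirichletCharacter ℂ d, χ' ≠ 1 → ∀ τ : ℝ, |τ| ≤ 2 * T →
      ∀ z : ℂ, 1 - 4 * θ < z.re → z.re ≤ 3 → |z.im - τ| < 1 → ‖χ'.LFunction z‖ ≤ R := by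
    intro χ' hχ' τ hτ z h1 h2 h3
    rw [h4θ, hV] at h1
    refine (grow hm hy8 hS d hd hR χ' hχ' h1.le).trans ?_
    rw [hRd]
    apply mul_le_mul_of_nonneg_left _ (by positivity)
    have h4 : ‖z‖ ≤ |z.re| + |z.im| := Complex.norm_le_abs_re_add_abs_im z
    have h5 : |z.re| ≤ 3 := by
      rw [abs_le]
      refine ⟨?_, h2⟩
      have : 1 / y ^ (2 * m - 1) ≤ 1 / 8 := by
        rw [← hV]
        exact one_div_le_one_div_of_le (by norm_num) hV8
      linarith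
    have h6 : |z.im| ≤ |z.im - τ| + |τ| := by
      have := abs_add_le (z.im - τ) τ
      rwa [sub_add_cancel] at this
    nlinarith
  have h8θ : 8 * θ < 1 := by linarith
  have D1 : Dat χ s.im (4 * θ) θ R := by
    refine ⟨hχ, hθ0, hθ1, hR3, fun z h1 h2 h3 => hbd χ hχ s.im ?_ z h1 h2 (by linarith)⟩
    rw [← hT] at hs2
    linarith
  have D2 : Dat (χ ^ 2) (2 * s.im) (8 * θ) θ R := by
    refine ⟨hχ2, hθ0, hθ1, hR3, fun z h1 h2 h3 => hbd (χ ^ 2) hχ2 (2 * s.im) ?_ z h1 h2 (by linarith)⟩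
    rw [abs_mul, abs_of_pos (by norm_num : (0 : ℝ) < 2)]
    rw [← hT] at hs2
    linarith
  obtain ⟨Q, hQ⟩ : ∃ Q, Q = Real.log (R / θ) := ⟨_, rfl⟩
  have hQP : Q ≤ P * Real.log y := by
    have h1 : R / θ ≤ y ^ (7 * m + 3 + K2) := by
      rw [hθ, hRd, hT, div_div_eq_mul_div, div_one]
      calc y ^ (5 * m + 2) * (y * y ^ K2) * (4 * V) = 4 * (y ^ (5 * m + 2) * (y * y ^ K2) * V) := by ring
        _ ≤ y * (y ^ (5 * m + 2) * (y * y ^ K2) * V) := by
            gcongr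
            linarith
        _ = y ^ (7 * m + 3 + K2) := by
            rw [hV, ← pow_succ', ← pow_add, ← pow_add, ← pow_succ']
            congr 1
            omega
    have h2 := Real.log_le_log (by positivity) h1
    rw [Real.log_pow] at h2
    rw [hQ, hP]
    push_cast at h2
    exact h2
  have hQ1 : 1 ≤ Q := by
    have h1 : Real.exp 1 ≤ R / θ := by
      have e := Real.exp_one_lt_d9
      rw [le_div_iff₀ hθ0]
      nlinarith
    rw [hQ, Real.le_log_iff_exp_le (by positivity)]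
    exact h1
  have hQ0 : 0 < Q := by linarith
  have hly : 0 < Real.log y := by linarith
  have hmain := hA χ s.im θ R D1 D2 s.re (by
    refine hs1.trans ?_
    rw [← hQ, ← hV, hθ, div_div]
    apply one_div_le_one_div_of_le (by positivity)
    calc 4 * V * (A * Q) ≤ 4 * V * (A * (P * Real.log y)) := by gcongr
      _ = V * (4 * A * P * Real.log y) := by ring
      _ ≤ V * (Real.log y * Real.log y) := by gcongr
      _ = V * Real.log y ^ 2 := by ring)
  have hs : (⟨s.re, s.im⟩ : ℂ) = s := Complex.eta s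
  rw [hs, ← hQ] at hmain
  refine ⟨hmain.1, hmain.2.trans ?_⟩
  have h1 : A * Q ^ 2 / θ = A * Q ^ 2 * (4 * V) := by
    rw [hθ]
    field_simp
  rw [h1]
  calc A * Q ^ 2 * (4 * V) ≤ A * (P * Real.log y) ^ 2 * (4 * V) := by gcongr
    _ = (4 * A * P ^ 2 * Real.log y ^ 2) * V := by ring
    _ ≤ y * V := by gcongr
    _ = y ^ (2 * m) := by
        rw [hV, ← pow_succ']
        congr 1
        omega

/-- the tent-weighted sums -/
theorem tent57 {m : ℕ} (hm : 3 ≤ m) (U : ℕ) : ∀ᶠ y : ℝ in atTop, SumsAt m y →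
    ∀ (d : ℕ) [NeZero d], Real.log d ≤ y ^ (2 * m) → Real.log (rad d) ≤ y ^ m →
    ∀ χ : DirichletCharacter ℂ d, χ ^ 2 ≠ 1 →
    ∀ X : ℝ, 0 < X → y ^ (2 * m) / 8 ≤ Real.log X → Real.log X ≤ 2 * y ^ (2 * m) →
      ‖psiPhi χ X‖ ≤ X / y ^ U := by
  obtain ⟨C, hC1, hC⟩ := vM_sum_bound
  filter_upwards [eventually_ge_atTop (16 : ℝ), zone hm (4 * m + U + 1), ev_log (8 * (2 * m + U + 1 : ℕ)) 3,
    ev_log 4 2, eventually_ge_atTop (16 * (2 + 4 * C)),
    Real.tendsto_log_atTop.eventually_ge_atTop 1] with y hy16 hz hy1 hy2 hy3 hly1 hS d _ hd hR χ hχ2 X hX0 hX1 hX2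
  have hy8 : 8 ≤ y := by linarith
  have hχ : χ ≠ 1 := by
    rintro rfl
    exact hχ2 (one_pow 2)
  have hyp : 0 < y := by linarith
  have hyo : 1 ≤ y := by linarith
  have hly : 0 < Real.log y := by linarith
  obtain ⟨V, hV⟩ : ∃ V : ℝ, V = y ^ (2 * m - 1) := ⟨_, rfl⟩
  have hyV : y ^ (2 * m) = y * V := by
    rw [hV, ← pow_succ']
    congr 1
    omega
  have hV8 : 8 ≤ V := by
    rw [hV]
    exact hy8.trans (le_self_pow₀ hyo (by omega))
  have hV0 : 0 < V := by linarith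
  obtain ⟨δ, hδ⟩ : ∃ δ : ℝ, δ = 1 / (V * Real.log y ^ 2) := ⟨_, rfl⟩
  have hδ0 : 0 < δ := by rw [hδ]; positivity
  have hδ4 : δ ≤ 1 / 4 := by
    rw [hδ]
    apply one_div_le_one_div_of_le (by norm_num)
    have : 1 ≤ Real.log y ^ 2 := one_le_pow₀ hly1
    nlinarith
  have hlX : 1 < Real.log X := by
    rw [hyV] at hX1
    nlinarith
  have hlX0 : 0 < Real.log X := by linarith
  have hX1' : 1 ≤ X := by
    by_contra hcon
    push Not at hcon
    have := Real.log_nonpos hX0.le hcon.le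
    linarith
  -- `δ log X ≥ y / (2 (log y)^2)`
  have hδX : (2 * m + U + 1 : ℕ) * Real.log y ≤ δ * Real.log X := by
    have h1 : y / (8 * Real.log y ^ 2) ≤ δ * Real.log X := by
      calc y / (8 * Real.log y ^ 2) = δ * (y ^ (2 * m) / 8) := by
            rw [hδ, hyV]
            field_simp
        _ ≤ _ := by gcongr
    refine le_trans ?_ h1
    rw [le_div_iff₀ (by positivity)]
    calc ((2 * m + U + 1 : ℕ) : ℝ) * Real.log y * (8 * Real.log y ^ 2) =
          8 * ((2 * m + U + 1 : ℕ) : ℝ) * Real.log y ^ 3 := by ring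
      _ ≤ y := hy1
  have hδX1 : 1 ≤ δ * Real.log X := by
    refine le_trans ?_ hδX
    have h1 : (1 : ℝ) ≤ ((2 * m + U + 1 : ℕ) : ℝ) := by
      exact_mod_cast (by omega : 1 ≤ 2 * m + U + 1)
    nlinarith
  obtain ⟨c, hc⟩ : ∃ c : ℝ, c = 1 + 1 / Real.log X := ⟨_, rfl⟩
  have hc1 : 1 < c := by
    rw [hc]
    have : 0 < 1 / Real.log X := by positivity
    linarith
  have hcδ : c ≤ 1 + δ := by
    rw [hc]
    have h2 : 1 / Real.log X ≤ δ := by
      rw [div_le_iff₀ hlX0]; linarith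
    linarith
  have hXc : X ^ c ≤ 3 * X := by
    rw [hc, Real.rpow_add hX0, Real.rpow_one]
    have h1 : X ^ (1 / Real.log X) = Real.exp 1 := by
      rw [Real.rpow_def_of_pos hX0, mul_one_div_cancel hlX0.ne']
    rw [h1]
    have := Real.exp_one_lt_d9
    nlinarith
  have hA : ∑' n : ℕ, ArithmeticFunction.vonMangoldt n * (n : ℝ) ^ (-c) ≤
      C * (Real.log X) ^ 2 := by
    refine (hC c hc1 (by linarith)).trans (le_of_eq ?_)
    have h1 : c - 1 = 1 / Real.log X := by rw [hc]; ring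
    rw [h1]
    field_simp
  obtain ⟨T, hT⟩ : ∃ T : ℝ, T = y ^ (4 * m + U + 1) := ⟨_, rfl⟩
  have hT1 : 1 ≤ T := by rw [hT]; exact one_le_pow₀ hyo
  have hT0 : 0 < T := by linarith
  have hcont := contour χ hχ hX1' hc1 hδ0 hδ4 hcδ hXc hT1 (M := y ^ (2 * m)) (by positivity) hA (by
    intro s h1 h2
    refine hz hS d hd hR χ hχ2 s ?_ ?_
    · rw [← hV, ← hδ]
      exact h1
    · rw [← hT]
      exact h2)
  refine hcont.trans ?_
  obtain ⟨Y, hY⟩ : ∃ Y : ℝ, Y = y ^ (U + 1) := ⟨_, rfl⟩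
  have hY0 : 0 < Y := by rw [hY]; positivity
  have hy2m : 0 < y ^ (2 * m) := by positivity
  have t1 : X ^ (1 - δ) * y ^ (2 * m) ≤ X / Y := by
    have h1 : X ^ (1 - δ) ≤ X / (y ^ (2 * m) * Y) := by
      rw [Real.rpow_sub hX0, Real.rpow_one]
      apply div_le_div_of_nonneg_left hX0.le (by positivity)
      have e : y ^ (2 * m) * Y = Real.exp ((2 * m + U + 1 : ℕ) * Real.log y) := by
        rw [Real.exp_nat_mul, Real.exp_log hyp, hY, ← pow_add]
        congr 1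
      rw [e, Real.rpow_def_of_pos hX0]
      apply Real.exp_le_exp.2
      linarith
    calc X ^ (1 - δ) * y ^ (2 * m) ≤ X / (y ^ (2 * m) * Y) * y ^ (2 * m) := by gcongr
      _ = X / Y := by field_simp
  have t2 : X * y ^ (2 * m) / T ^ 2 ≤ X / Y := by
    rw [div_le_div_iff₀ (by positivity) hY0, hT, hY, mul_assoc, ← pow_add, ← pow_mul]
    apply mul_le_mul_of_nonneg_left _ hX0.le
    exact pow_le_pow_right₀ hyo (by omega)
  have t3 : X * (C * Real.log X ^ 2) / T ≤ 4 * C * (X / Y) := by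
    have h1 : Real.log X ^ 2 ≤ 4 * y ^ (4 * m) := by
      calc Real.log X ^ 2 ≤ (2 * y ^ (2 * m)) ^ 2 := by gcongr
        _ = 4 * y ^ (4 * m) := by
            rw [mul_pow, ← pow_mul]
            norm_num
            ring_nf
    calc X * (C * Real.log X ^ 2) / T ≤ X * (C * (4 * y ^ (4 * m))) / T := by gcongr
      _ = 4 * C * (X * (y ^ (4 * m) / T)) := by ring
      _ = 4 * C * (X * (1 / Y)) := by
          congr 2
          rw [hT, hY]
          have : y ^ (4 * m + U + 1) = y ^ (4 * m) * y ^ (U + 1) := by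
            rw [← pow_add]
            congr 1
          rw [this]
          field_simp
      _ = _ := by ring
  have hYU : X / Y = X / y ^ U / y := by
    rw [hY, pow_succ, div_div]
  have hXU : 0 < X / y ^ U := by positivity
  calc 16 * (X ^ (1 - δ) * y ^ (2 * m) + X * y ^ (2 * m) / T ^ 2 + X * (C * Real.log X ^ 2) / T)
      ≤ 16 * (X / Y + X / Y + 4 * C * (X / Y)) := by gcongr
    _ = 16 * (2 + 4 * C) * (X / Y) := by ring
    _ ≤ y * (X / Y) := by gcongr
    _ = X / y ^ U := by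
        rw [hYU]
        field_simp

end Pool.Agent.T9h57.PK
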