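import Pool.Agent.T9h57.PK.Post

/-!
# The size of the step and of the denominators
-/

set_option autoImplicit false

namespace Pool.Agent.T9h57.PK

open Finset

/-- the radical -/
def rad (d : ℕ) : ℕ := ∏ p ∈ d.primeFactors, p

lemma rad_pos (d : ℕ) : 0 < rad d := prod_pos fun _ hp => (Nat.prime_of_mem_primeFactors hp).pos

/-- the exponents in the step -/
def sK (k d p : ℕ) : ℕ := (d.factorization p + k - 1) / k + 1

lemma sK_ok {k d p : ℕ} (hk : 1 ≤ k) (hp : p ∈ d.primeFactors) :
    2 ≤ sK k d p ∧ d.factorization p + k ≤ sK k d p * k ∧ sK k d p * k ≤ d.factorization p + 2 * k := by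
  have ha : 1 ≤ d.factorization p := by
    have h1 := Nat.mem_primeFactors.1 hp
    exact h1.1.factorization_pos_of_dvd h1.2.2 h1.2.1
  unfold sK
  obtain ⟨a, hae⟩ : ∃ a, a = d.factorization p := ⟨_, rfl⟩
  rw [← hae] at ha ⊢
  obtain ⟨c, hc⟩ : ∃ c, c = (a + k - 1) / k := ⟨_, rfl⟩
  rw [← hc]
  have h1 : c * k ≤ a + k - 1 := by rw [hc]; exact Nat.div_mul_le_self _ _
  have h2 : a + k - 1 < k * (c + 1) := by rw [hc]; exact Nat.lt_mul_div_succ _ hk
  have h3 : k * (c + 1) = c * k + k := by ring
  have h4 : (c + 1) * k = c * k + k := by ring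
  refine ⟨?_, by omega, by omega⟩
  by_contra hcon
  have h5 : c = 0 := by omega
  rw [h5] at h2
  omega

lemma prod_fact {d : ℕ} (hd : 0 < d) : ∏ p ∈ d.primeFactors, p ^ d.factorization p = d := by
  have h := Nat.factorization_prod_pow_eq_self hd.ne'
  rw [Finsupp.prod, Nat.support_factorization] at h
  exact h

/-- the step is not much larger than `d ^ (1 / k)` -/
lemma Hh_le {k d : ℕ} (hk : 1 ≤ k) (hd : 0 < d) : Hh (sK k d) d ^ k ≤ d * rad d ^ (2 * k) := by
  unfold Hh rad
  rw [← prod_pow]
  calc ∏ p ∈ d.primeFactors, (p ^ sK k d p) ^ k ≤ ∏ p ∈ d.primeFactors, (p ^ d.factorization p * p ^ (2 * k)) := by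
        refine prod_le_prod' fun p hp => ?_
        rw [← pow_mul, ← pow_add]
        exact Nat.pow_le_pow_right (Nat.prime_of_mem_primeFactors hp).pos (sK_ok hk hp).2.2
    _ = d * (∏ p ∈ d.primeFactors, p) ^ (2 * k) := by
        rw [prod_mul_distrib, prod_fact hd, prod_pow]

/-- lower bound for the denominators -/
lemma Dj_low {k d j : ℕ} (hk : 1 ≤ k) (hd : 0 < d) (hj : j ≤ k) :
    d ^ (k - j) ≤ Dj (sK k d) d j ^ k * rad d ^ (2 * k * j) := by
  unfold Dj rad
  rw [← prod_pow, ← prod_pow, ← prod_mul_distrib]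
  have h0 : d ^ (k - j) = ∏ p ∈ d.primeFactors, p ^ (d.factorization p * (k - j)) := by
    conv_lhs => rw [← prod_fact hd]
    rw [← prod_pow]
    exact prod_congr rfl fun p _ => by rw [pow_mul]
  rw [h0]
  refine prod_le_prod' fun p hp => ?_
  rw [← pow_mul, ← pow_add]
  apply Nat.pow_le_pow_right (Nat.prime_of_mem_primeFactors hp).pos
  have h1 := (sK_ok hk hp).2.2
  unfold eD
  obtain ⟨a, ha⟩ : ∃ a, a = d.factorization p := ⟨_, rfl⟩
  obtain ⟨s, hs⟩ : ∃ s, s = sK k d p := ⟨_, rfl⟩
  rw [← ha, ← hs] at h1 ⊢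
  obtain ⟨e, he⟩ : ∃ e, e = a + j.factorization p - s * j := ⟨_, rfl⟩
  rw [← he]
  have h2 : a ≤ e + s * j := by omega
  have h3 : a * k ≤ e * k + s * k * j := by
    calc a * k ≤ (e + s * j) * k := Nat.mul_le_mul_right _ h2
      _ = _ := by ring
  have h4 : s * k * j ≤ (a + 2 * k) * j := Nat.mul_le_mul_right _ h1
  obtain ⟨i, hi⟩ : ∃ i, k = j + i := ⟨k - j, by omega⟩
  have h5 : k - j = i := by omega
  rw [h5]
  have h6 : a * k = a * j + a * i := by rw [hi]; ring
  have h7 : (a + 2 * k) * j = a * j + 2 * k * j := by ring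
  omega

/-- upper bound for the denominators -/
lemma Dj_up {s : ℕ → ℕ} {d j : ℕ} (hd : 0 < d) (hj : 1 ≤ j) : Dj s d j ≤ d * j := by
  unfold Dj
  calc ∏ p ∈ d.primeFactors, p ^ eD s d j p ≤ ∏ p ∈ d.primeFactors, (p ^ d.factorization p * p ^ j.factorization p) := by
        refine prod_le_prod' fun p hp => ?_
        rw [← pow_add]
        apply Nat.pow_le_pow_right (Nat.prime_of_mem_primeFactors hp).pos
        unfold eD
        omega
    _ = d * ∏ p ∈ d.primeFactors, p ^ j.factorization p := by rw [prod_mul_distrib, prod_fact hd]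
    _ ≤ d * j := by
        apply Nat.mul_le_mul_left
        have h1 : ∏ p ∈ d.primeFactors, p ^ j.factorization p ≤
            ∏ p ∈ d.primeFactors ∪ j.primeFactors, p ^ j.factorization p := by
          apply prod_le_prod_of_subset_of_one_le' subset_union_left
          intro p hp _
          apply Nat.one_le_pow
          rw [mem_union] at hp
          rcases hp with h | h
          · exact (Nat.prime_of_mem_primeFactors h).pos
          · exact (Nat.prime_of_mem_primeFactors h).pos
        refine h1.trans (le_of_eq ?_)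
        have h2 : ∏ p ∈ d.primeFactors ∪ j.primeFactors, p ^ j.factorization p =
            ∏ p ∈ j.primeFactors, p ^ j.factorization p := by
          symm
          apply prod_subset subset_union_right
          intro p _ hp
          have : j.factorization p = 0 := by
            rw [← Finsupp.notMem_support_iff, Nat.support_factorization]
            exact hp
          rw [this, pow_zero]
        rw [h2, prod_fact hj]

/-- numbers with prime factors in `d` -/
lemma coprime_Dj {s : ℕ → ℕ} {d j : ℕ} {n : ℤ} (h : IsCoprime n (d : ℤ)) : IsCoprime n (Dj s d j : ℤ) := by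
  unfold Dj
  push_cast
  apply IsCoprime.prod_right
  intro p hp
  apply IsCoprime.pow_right
  exact h.of_isCoprime_of_dvd_right (Int.natCast_dvd_natCast.2 (Nat.dvd_of_mem_primeFactors hp))

lemma dvd_Hh {k d p : ℕ} (hk : 1 ≤ k) (hp : p ∈ d.primeFactors) : p ∣ Hh (sK k d) d := by
  unfold Hh
  have h1 := (sK_ok hk hp).1
  exact (dvd_pow_self p (by omega)).trans (dvd_prod_of_mem (fun p => p ^ sK k d p) hp)

/-- primitive characters -/
lemma NT_of_primitive {d : ℕ} [NeZero d] {χ : DirichletCharacter ℂ d} (hχ : χ.IsPrimitive) : NT d χ := by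
  intro p hp hpd
  by_contra hcon
  push Not at hcon
  have hdp : d / p ∣ d := Nat.div_dvd_of_dvd hpd
  have h1 : χ.FactorsThrough (d / p) := by
    rw [DirichletCharacter.factorsThrough_iff_ker_unitsMap hdp]
    intro u hu
    rw [MonoidHom.mem_ker] at hu ⊢
    have h2 : (ZMod.unitsMap hdp u : ZMod (d / p)) = 1 := by rw [hu]; rfl
    rw [ZMod.unitsMap_val] at h2
    obtain ⟨x, hx⟩ : ∃ x : ℤ, (x : ZMod d) = (u : ZMod d) := ⟨((u : ZMod d).val : ℤ), by simp⟩
    have h3 : ((d / p : ℕ) : ℤ) ∣ x - 1 := by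
      rw [← hx] at h2
      have h4 : ((x : ℤ) : ZMod (d / p)) = ((1 : ℤ) : ZMod (d / p)) := by
        rw [ZMod.cast_intCast hdp] at h2
        simpa using h2
      have h5 := (ZMod.intCast_eq_intCast_iff_dvd_sub x 1 (d / p)).1 h4
      have := dvd_neg.2 h5
      rwa [neg_sub] at this
    have h4 := hcon x h3
    have h5 : χ (x : ZMod d) ≠ 0 := by
      rw [hx]
      exact (IsUnit.map χ u.isUnit).ne_zero
    have h6 : χ (x : ZMod d) = 1 := by
      by_contra h7
      exact h5 (h4 h7)
    rw [hx] at h6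
    ext
    simpa using h6
  have h2 := (DirichletCharacter.mem_conductorSet_iff χ).2 h1
  have h3 := Nat.sInf_le h2
  have h4 : χ.conductor = d := hχ
  have h5 : χ.conductor ≤ d / p := h3
  rw [h4] at h5
  have h6 : d / p < d := Nat.div_lt_self (NeZero.pos d) hp.one_lt
  omega

end Pool.Agent.T9h57.PK
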