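import Pool.Agent.T9h57.PK.Block
import Pool.Agent.H307R2.LU

/-!
# Long sums of primitive characters to moduli with small radical
-/

set_option autoImplicit false

namespace Pool.Agent.T9h57.PK

open Finset

/-- long sums of primitive characters -/
theorem sumsP : ∃ m : ℕ, 3 ≤ m ∧ ∃ y0 : ℝ, 8 ≤ y0 ∧ ∀ y : ℝ, y0 ≤ y → ∀ (d : ℕ) [NeZero d],
    Real.log d ≤ y ^ (2 * m) → Real.log (rad d) ≤ y ^ m →
    ∀ χ : DirichletCharacter ℂ d, χ.IsPrimitive → χ ≠ 1 → ∀ u : ℕ, y ^ (2 * m - 1) ≤ Real.log u →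
    ‖∑ n ∈ Ioc 0 u, χ (n : ZMod d)‖ ≤ (u : ℝ) ^ (1 - 1 / y ^ 3) := by
  obtain ⟨C, hC⟩ := block
  refine ⟨C + 3, by omega, 10 ^ 13 * (1 + C * 2 ^ C), ?_, ?_⟩
  · have : (0 : ℝ) ≤ C * 2 ^ C := by positivity
    linarith
  intro y hy d _ hd hR χ hχ hχ1 u hu
  obtain ⟨m, hm⟩ : ∃ m, m = C + 3 := ⟨_, rfl⟩
  rw [← hm] at hd hR hu
  have hd0 : 0 < d := NeZero.pos d
  have hCC : (0 : ℝ) ≤ C * 2 ^ C := by positivity
  have hy13 : (10 : ℝ) ^ 13 ≤ y := by linarith
  have hy1 : 1 ≤ y := by linarith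
  have hy0 : 0 < y := by linarith
  obtain ⟨W, hW⟩ : ∃ W, W = Real.log u := ⟨_, rfl⟩
  rw [← hW] at hu
  have hpow1 : y ≤ y ^ (2 * m - 1) := le_self_pow₀ hy1 (by omega)
  have hW13 : (10 : ℝ) ^ 13 ≤ W := by linarith
  have hW0 : 0 < W := by linarith
  have hu0 : (0 : ℝ) < u := by
    rcases Nat.eq_zero_or_pos u with h | h
    · rw [h, Nat.cast_zero, Real.log_zero] at hW
      linarith
    · exact_mod_cast h
  have hu2 : 2 ≤ u := by
    by_contra hcon
    push Not at hcon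
    have h1 : (u : ℝ) ≤ 1 := by
      have : u ≤ 1 := by omega
      exact_mod_cast this
    have := Real.log_nonpos hu0.le h1
    linarith
  have hu1 : (1 : ℝ) ≤ u := by exact_mod_cast (by omega : 1 ≤ u)
  have hexpu : ∀ a : ℝ, (u : ℝ) ^ a = Real.exp (a * W) := by
    intro a
    rw [Real.rpow_def_of_pos hu0, hW, mul_comm]
  have hy3 : 1 / y ^ 3 ≤ 1 / 2 := by
    have h1 : y ≤ y ^ 3 := le_self_pow₀ hy1 (by norm_num)
    exact one_div_le_one_div_of_le (by norm_num) (by linarith)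
  obtain ⟨κ, hκ⟩ : ∃ κ, κ = Real.log d / W := ⟨_, rfl⟩
  have hdκ : Real.log d = κ * W := by
    rw [hκ]
    field_simp
  rcases lt_or_ge κ (1 / 2) with hc | hc
  · -- the trivial bound
    have h1 := Pool.Agent.H307R2.Ech_norm_le hχ1 0 (u : ℝ)
    unfold Pool.Agent.H307R2.Ech at h1
    rw [Nat.floor_natCast] at h1
    refine h1.trans ?_
    have hdr : (0 : ℝ) < d := by exact_mod_cast hd0
    rw [hexpu, ← Real.exp_log hdr]
    apply Real.exp_le_exp.2
    rw [hdκ]
    apply mul_le_mul_of_nonneg_right _ hW0.le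
    linarith
  · have hκy : κ ≤ y := by
      rw [hκ, div_le_iff₀ hW0]
      calc Real.log d ≤ y ^ (2 * m) := hd
        _ = y * y ^ (2 * m - 1) := by
            rw [← pow_succ']
            congr 1
            omega
        _ ≤ y * W := by gcongr
    have hκ0 : 0 < κ := by linarith
    have h1κ : 1 + κ ≤ 2 * y := by linarith
    have hb := hC u d κ hu2 hc hd0 (by rw [← hW]; exact hdκ) (by
      rw [← hW]
      calc Real.log (rad d) * (50 * κ + 60) ≤ y ^ m * (110 * y) := by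
            have h2 : 50 * κ + 60 ≤ 110 * y := by linarith
            have h3 : 0 ≤ Real.log (rad d) := Real.log_natCast_nonneg _
            gcongr
        _ = 110 * y ^ (m + 1) := by ring
        _ ≤ y * y ^ (m + 1) := by
            gcongr
            linarith
        _ = y ^ (m + 2) := by ring
        _ ≤ y ^ (2 * m - 1) := pow_le_pow_right₀ hy1 (by omega)
        _ ≤ W := hu) χ hχ 0 u (by omega)
    refine hb.trans ?_
    rw [hexpu, hexpu, ← Real.exp_add]
    apply Real.exp_le_exp.2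
    obtain ⟨v, hv⟩ : ∃ v : ℝ, v = 1 + κ := ⟨_, rfl⟩
    rw [← hv] at h1κ ⊢
    have hv1 : 1 ≤ v := by linarith
    have hv0 : 0 < v := by linarith
    -- `C v ^ C ≤ (c / v ^ 2 - 1 / y ^ 3) W`
    have e1 : 1 / 10 ^ 10 / (4 * y ^ 2) ≤ 1 / 10 ^ 10 / v ^ 2 := by
      apply div_le_div_of_nonneg_left (by norm_num) (by positivity)
      nlinarith
    have e2 : 1 / y ^ 3 ≤ 1 / 10 ^ 10 / (8 * y ^ 2) := by
      rw [div_div]
      apply one_div_le_one_div_of_le (by positivity)
      have : y ^ 3 = y * y ^ 2 := by ring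
      rw [this]
      have h2 : 0 < y ^ 2 := by positivity
      nlinarith
    have e3 : 1 / 10 ^ 10 / (4 * y ^ 2) = 1 / 10 ^ 10 / (8 * y ^ 2) + 1 / 10 ^ 10 / (8 * y ^ 2) := by
      field_simp
      norm_num
    have e4 : C * v ^ C ≤ 1 / 10 ^ 10 / (8 * y ^ 2) * W := by
      calc C * v ^ C ≤ C * (2 * y) ^ C := by gcongr
        _ = C * 2 ^ C * y ^ C := by rw [mul_pow]; ring
        _ ≤ (y / 10 ^ 12) * y ^ C := by
            gcongr
            rw [le_div_iff₀ (by norm_num)]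
            linarith
        _ = 1 / 10 ^ 12 * y ^ (C + 1) := by ring
        _ ≤ 1 / 10 ^ 12 * y ^ (2 * m - 3) :=
            mul_le_mul_of_nonneg_left (pow_le_pow_right₀ hy1 (by omega)) (by norm_num)
        _ ≤ 1 / 10 ^ 10 / 8 * y ^ (2 * m - 3) :=
            mul_le_mul_of_nonneg_right (by norm_num) (by positivity)
        _ = 1 / 10 ^ 10 / (8 * y ^ 2) * y ^ (2 * m - 1) := by
            have h5 : y ^ (2 * m - 1) = y ^ (2 * m - 3) * y ^ 2 := by
              rw [← pow_add]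
              congr 1
              omega
            rw [h5]
            field_simp
        _ ≤ _ := by gcongr
    have e5 : 1 / 10 ^ 10 / (8 * y ^ 2) * W ≤ (1 / 10 ^ 10 / v ^ 2 - 1 / y ^ 3) * W := by
      apply mul_le_mul_of_nonneg_right _ hW0.le
      linarith
    linarith

end Pool.Agent.T9h57.PK
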