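import Pool.Agent.Y957.VK.Stm

/-!
# The sums `WJ` for rational numbers
-/

set_option autoImplicit false

namespace Pool.Agent.T9h57.PK

open Finset Pool.Agent.Y957.VK

lemma dz_nonneg (θ : ℝ) : 0 ≤ dz θ := abs_nonneg _

lemma dz_add_int (θ : ℝ) (n : ℤ) : dz (θ + n) = dz θ := by
  unfold dz
  rw [round_add_intCast]
  push_cast
  congr 1
  ring

lemma mn_nonneg (V : ℕ) (θ : ℝ) : 0 ≤ mn V θ := by
  unfold mn
  have := dz_nonneg θ
  split_ifs
  · positivity
  · exact le_min (by positivity) (by positivity)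

lemma mn_le (V : ℕ) (θ : ℝ) : mn V θ ≤ 2 * V + 1 := by
  unfold mn
  split_ifs
  · exact le_rfl
  · exact min_le_left _ _

lemma mn_add_int (V : ℕ) (θ : ℝ) (n : ℤ) : mn V (θ + n) = mn V θ := by
  unfold mn
  rw [dz_add_int]

/-- the distance of `v / D` to the nearest integer -/
lemma dz_frac {D v : ℕ} (hv : 1 ≤ v) (hD : v < D) : 1 / (2 * dz ((v : ℝ) / D)) ≤ D / 2 * (1 / v + 1 / ((D - v : ℕ) : ℝ)) ∧
    dz ((v : ℝ) / D) ≠ 0 := by
  have hD0 : (0 : ℝ) < D := by exact_mod_cast (by omega : 0 < D)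
  have hv0 : (0 : ℝ) < v := by exact_mod_cast hv
  have hDv : ((D - v : ℕ) : ℝ) = D - v := by rw [Nat.cast_sub hD.le]
  have hDv0 : (0 : ℝ) < (D : ℝ) - v := by
    have : (v : ℝ) < D := by exact_mod_cast hD
    linarith
  rw [hDv]
  -- the nearest integer is 0 or at least one of the two bounds holds
  have key : (v : ℝ) / D ≤ dz ((v : ℝ) / D) ∨ ((D : ℝ) - v) / D ≤ dz ((v : ℝ) / D) := by
    unfold dz
    rcases le_or_gt (round ((v : ℝ) / D)) 0 with h | h
    · left
      have h1 : ((round ((v : ℝ) / D) : ℤ) : ℝ) ≤ 0 := by exact_mod_cast h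
      rw [le_abs]
      left
      linarith
    · right
      have h1 : (1 : ℝ) ≤ ((round ((v : ℝ) / D) : ℤ) : ℝ) := by exact_mod_cast h
      rw [le_abs]
      right
      have h2 : ((D : ℝ) - v) / D = 1 - v / D := by field_simp
      linarith
  have hpos : 0 < dz ((v : ℝ) / D) := by
    rcases key with h | h
    · exact lt_of_lt_of_le (by positivity) h
    · exact lt_of_lt_of_le (by positivity) h
  refine ⟨?_, hpos.ne'⟩
  rcases key with h | h
  · calc 1 / (2 * dz ((v : ℝ) / D)) ≤ 1 / (2 * ((v : ℝ) / D)) :=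
          one_div_le_one_div_of_le (by positivity) (by linarith)
      _ = D / 2 * (1 / v) := by field_simp
      _ ≤ _ := by
          apply mul_le_mul_of_nonneg_left _ (by positivity)
          have : 0 ≤ 1 / ((D : ℝ) - v) := by positivity
          linarith
  · calc 1 / (2 * dz ((v : ℝ) / D)) ≤ 1 / (2 * (((D : ℝ) - v) / D)) :=
          one_div_le_one_div_of_le (by positivity) (by linarith)
      _ = D / 2 * (1 / ((D : ℝ) - v)) := by field_simp
      _ ≤ _ := by
          apply mul_le_mul_of_nonneg_left _ (by positivity)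
          have : 0 ≤ 1 / (v : ℝ) := by positivity
          linarith

lemma sum_inv_le (n : ℕ) (hn : 1 ≤ n) : ∑ t ∈ Ico 1 n, (1 : ℝ) / t ≤ 1 + Real.log n := by
  have h := harmonic_le_one_add_log n
  have e : ((harmonic n : ℚ) : ℝ) = ∑ t ∈ Icc 1 n, (1 : ℝ) / t := by
    rw [harmonic_eq_sum_Icc]
    push_cast
    exact sum_congr rfl fun i _ => by rw [one_div]
  refine le_trans ?_ (e ▸ h)
  refine sum_le_sum_of_subset_of_nonneg (fun t ht => ?_) fun t _ _ => by positivity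
  rw [mem_Ico] at ht
  rw [mem_Icc]
  omega

/-- one period -/
lemma period_sum (V D : ℕ) (hD : 1 ≤ D) :
    ∑ v ∈ range D, mn V ((v : ℝ) / D) ≤ (2 * V + 1) + D * (1 + Real.log D) := by
  have h1 : range D = insert 0 (Ico 1 D) := by
    ext v
    simp only [mem_range, mem_insert, mem_Ico]
    omega
  rw [h1, sum_insert (by simp)]
  refine add_le_add (mn_le _ _) ?_
  have h2 : ∀ v ∈ Ico 1 D, mn V ((v : ℝ) / D) ≤ D / 2 * (1 / v + 1 / ((D - v : ℕ) : ℝ)) := by
    intro v hv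
    rw [mem_Ico] at hv
    obtain ⟨h3, h4⟩ := dz_frac hv.1 hv.2
    unfold mn
    rw [if_neg h4]
    exact (min_le_right _ _).trans h3
  refine (sum_le_sum h2).trans ?_
  rw [← mul_sum, sum_add_distrib]
  have h3 : ∑ v ∈ Ico 1 D, (1 : ℝ) / ((D - v : ℕ) : ℝ) = ∑ v ∈ Ico 1 D, (1 : ℝ) / v := by
    refine sum_nbij' (fun v => D - v) (fun v => D - v) ?_ ?_ ?_ ?_ ?_
    · intro v hv
      rw [mem_Ico] at hv ⊢
      omega
    · intro v hv
      rw [mem_Ico] at hv ⊢
      omega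
    · intro v hv
      rw [mem_Ico] at hv
      show D - (D - v) = v
      omega
    · intro v hv
      rw [mem_Ico] at hv
      show D - (D - v) = v
      omega
    · intro v hv
      rfl
  rw [h3]
  have h4 := sum_inv_le D hD
  have hD0 : (0 : ℝ) ≤ D := Nat.cast_nonneg _
  nlinarith

lemma per (g : ℕ → ℝ) (D : ℕ) (hg : ∀ t, g (t + D) = g t) (B t : ℕ) : g (B * D + t) = g t := by
  induction B with
  | zero => simp
  | succ B ih =>
    rw [← ih, ← hg (B * D + t)]
    congr 1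
    ring

/-- the sum over a long interval of a periodic function -/
lemma blocks (g : ℕ → ℝ) (D : ℕ) (hg : ∀ t, g (t + D) = g t) (B : ℕ) :
    ∑ t ∈ range (B * D), g t = B * ∑ t ∈ range D, g t := by
  induction B with
  | zero => simp
  | succ B ih =>
    rw [Nat.succ_mul, sum_range_add, ih]
    simp only [per g D hg B]
    push_cast
    ring

/-- the value at `a / D` depends only on the class of `a` -/
lemma mn_class (V D : ℕ) [NeZero D] (x : ℤ) : mn V ((x : ℝ) / D) = mn V (((x : ZMod D).val : ℝ) / D) := by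
  have hD0 : (D : ℝ) ≠ 0 := by exact_mod_cast NeZero.ne D
  have h1 : (((x : ZMod D).val : ℤ)) = x % D := ZMod.val_intCast x
  have h2 : x = x % D + D * (x / D) := (Int.emod_add_mul_ediv x D).symm
  have h3 : (x : ℝ) / D = ((x : ZMod D).val : ℝ) / D + ((x / D : ℤ) : ℝ) := by
    have h4 : (((x : ZMod D).val : ℕ) : ℝ) = ((x % D : ℤ) : ℝ) := by exact_mod_cast congrArg (Int.cast : ℤ → ℝ) h1
    rw [h4]
    have h5 : (x : ℝ) = ((x % D : ℤ) : ℝ) + D * ((x / D : ℤ) : ℝ) := by exact_mod_cast congrArg (Int.cast : ℤ → ℝ) h2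
    rw [h5]
    field_simp
  rw [h3, mn_add_int]

/-- a complete system of residues -/
lemma complete (V D : ℕ) [NeZero D] {A : ℤ} (hA : IsCoprime A (D : ℤ)) (c : ℤ) :
    ∑ t ∈ range D, mn V (((A * (t + c) : ℤ) : ℝ) / D) = ∑ v ∈ range D, mn V ((v : ℝ) / D) := by
  have h1 : ∀ F : ZMod D → ℝ, ∑ t ∈ range D, F (t : ZMod D) = ∑ x : ZMod D, F x := by
    intro F
    rw [← Fin.sum_univ_eq_sum_range (fun t => F (t : ZMod D))]
    obtain ⟨n, rfl⟩ : ∃ n, D = n + 1 := ⟨D - 1, by have := NeZero.pos D; omega⟩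
    refine Fintype.sum_equiv (Equiv.refl _) _ _ fun x => ?_
    show F ((x : ℕ) : ZMod (n + 1)) = F x
    congr 1
    exact ZMod.natCast_zmod_val (n := n + 1) x
  have h2 : ∀ t : ℕ, mn V (((A * (t + c) : ℤ) : ℝ) / D) =
      (fun x : ZMod D => mn V (((((A : ZMod D) * (x + c)).val : ℕ) : ℝ) / D)) (t : ZMod D) := by
    intro t
    rw [mn_class]
    simp only
    congr 3
    push_cast
    rfl
  have h3 : ∀ v ∈ range D, mn V ((v : ℝ) / D) = (fun x : ZMod D => mn V ((x.val : ℝ) / D)) (v : ZMod D) := by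
    intro v hv
    rw [mem_range] at hv
    simp only
    rw [ZMod.val_natCast_of_lt hv]
  rw [sum_congr rfl fun t _ => h2 t, sum_congr rfl h3,
    h1 (fun x : ZMod D => mn V (((((A : ZMod D) * (x + c)).val : ℕ) : ℝ) / D)),
    h1 (fun x : ZMod D => mn V ((x.val : ℝ) / D))]
  have hu : IsUnit (A : ZMod D) := by
    rw [ZMod.coe_int_isUnit_iff_isCoprime]
    exact hA.symm
  obtain ⟨u, hu⟩ := hu
  refine Fintype.sum_equiv ((Equiv.addRight (c : ZMod D)).trans (Units.mulLeft u)) _ _ fun x => ?_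
  simp only [Equiv.trans_apply, Equiv.coe_addRight, Units.mulLeft_apply, hu]

/-- **the bound for rational numbers** -/
theorem WJ_rat (s M j D : ℕ) (hD : 1 ≤ D) {A : ℤ} (hA : IsCoprime A (D : ℤ)) :
    WJ s M j ((A : ℝ) / D) ≤
      ((2 * (s * M ^ j : ℕ) + 1 : ℝ) / D + 1) * ((2 * (s * M ^ j : ℕ) + 1) + D * (1 + Real.log D)) := by
  have : NeZero D := ⟨by omega⟩
  have hD0 : (0 : ℝ) < D := by exact_mod_cast hD
  obtain ⟨U, hU⟩ : ∃ U, U = s * M ^ j := ⟨_, rfl⟩
  unfold WJ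
  rw [← hU]
  obtain ⟨g, hg⟩ : ∃ g : ℕ → ℝ, g = fun t : ℕ => mn U (((A * ((t : ℤ) + (-(U : ℤ))) : ℤ) : ℝ) / D) := ⟨_, rfl⟩
  have h1 : ∑ u ∈ Icc (-(U : ℤ)) (U : ℤ), mn U ((A : ℝ) / D * u) = ∑ t ∈ range (2 * U + 1), g t := by
    symm
    refine sum_nbij (fun t => (t : ℤ) + (-(U : ℤ))) ?_ ?_ ?_ ?_
    · intro t ht
      rw [mem_range] at ht
      rw [mem_Icc]
      constructor <;> omega
    · intro t _ t' _ h
      have : (t : ℤ) = t' := by simpa using h
      exact_mod_cast this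
    · intro u hu
      rw [coe_Icc, Set.mem_Icc] at hu
      refine ⟨(u + U).toNat, ?_, ?_⟩
      · rw [coe_range, Set.mem_Iio]
        omega
      · show (((u + U).toNat : ℕ) : ℤ) + (-(U : ℤ)) = u
        omega
    · intro t _
      rw [hg]
      simp only
      congr 1
      push_cast
      ring
  rw [h1]
  have hgn : ∀ t, 0 ≤ g t := fun t => by rw [hg]; exact mn_nonneg _ _
  have hgp : ∀ t, g (t + D) = g t := by
    intro t
    rw [hg]
    simp only
    have e : (((A * (((t + D : ℕ) : ℤ) + (-(U : ℤ))) : ℤ) : ℝ) / D) =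
        (((A * ((t : ℤ) + (-(U : ℤ))) : ℤ) : ℝ) / D) + (A : ℤ) := by
      push_cast
      field_simp
      ring
    rw [e, mn_add_int]
  obtain ⟨B, hB⟩ : ∃ B, B = (2 * U + 1) / D + 1 := ⟨_, rfl⟩
  have hBD : 2 * U + 1 ≤ B * D := by
    rw [hB, mul_comm _ D]
    exact (Nat.lt_mul_div_succ (2 * U + 1) hD).le
  have h2 : ∑ t ∈ range (2 * U + 1), g t ≤ ∑ t ∈ range (B * D), g t :=
    sum_le_sum_of_subset_of_nonneg (range_subset_range.2 hBD) fun t _ _ => hgn t
  refine h2.trans ?_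
  rw [blocks g D hgp B]
  have h3 : ∑ t ∈ range D, g t ≤ (2 * U + 1) + D * (1 + Real.log D) := by
    rw [hg]
    simp only
    rw [complete U D hA]
    exact period_sum U D hD
  have h4 : (B : ℝ) ≤ (2 * (U : ℕ) + 1 : ℝ) / D + 1 := by
    rw [hB]
    push_cast
    have : (((2 * U + 1) / D : ℕ) : ℝ) ≤ ((2 * U + 1 : ℕ) : ℝ) / D := Nat.cast_div_le
    push_cast at this
    linarith
  have h5 : 0 ≤ ∑ t ∈ range D, g t := sum_nonneg fun t _ => hgn t
  exact mul_le_mul h4 h3 h5 (by positivity)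

end Pool.Agent.T9h57.PK
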